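import Mathlib

set_option autoImplicit false
set_option linter.unusedSectionVars false
set_option linter.unnecessarySeqFocus false

namespace Pool.Agent.Helper373_CM

open Finset

variable {V : Type*} [Fintype V] [DecidableEq V]

/-- integer valued indicator of a proposition -/
noncomputable def ind (p : Prop) : ℤ := open Classical in if p then 1 else 0

theorem ind_true {p : Prop} (h : p) : ind p = 1 := by
  unfold ind; exact if_pos h

theorem ind_false {p : Prop} (h : ¬ p) : ind p = 0 := by
  unfold ind; exact if_neg h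

theorem ind_eq_one_or_zero (p : Prop) : ind p = 1 ∨ ind p = 0 := by
  by_cases h : p
  · exact Or.inl (ind_true h)
  · exact Or.inr (ind_false h)

theorem ind_nonneg (p : Prop) : 0 ≤ ind p := by
  rcases ind_eq_one_or_zero p with h | h <;> rw [h] <;> norm_num

theorem ind_le_one (p : Prop) : ind p ≤ 1 := by
  rcases ind_eq_one_or_zero p with h | h <;> rw [h] <;> norm_num

theorem ind_sq (p : Prop) : ind p * ind p = ind p := by
  rcases ind_eq_one_or_zero p with h | h <;> rw [h] <;> norm_num

theorem ind_congr {p q : Prop} (h : p ↔ q) : ind p = ind q := by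
  rw [propext h]

theorem ind_eq_one {p : Prop} : ind p = 1 ↔ p := by
  constructor
  · intro h
    by_contra hp
    rw [ind_false hp] at h
    norm_num at h
  · exact ind_true

theorem ind_eq_zero {p : Prop} : ind p = 0 ↔ ¬ p := by
  constructor
  · intro h hp
    rw [ind_true hp] at h
    norm_num at h
  · exact ind_false

/-- adjacency indicator -/
noncomputable def ad (G : SimpleGraph V) (x y : V) : ℤ := ind (G.Adj x y)

theorem ad_comm (G : SimpleGraph V) (x y : V) : ad G x y = ad G y x :=
  ind_congr (G.adj_comm x y)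

theorem ad_self (G : SimpleGraph V) (x : V) : ad G x x = 0 := ind_false (G.loopless.irrefl x)

/-- degree, as an integer -/
noncomputable def dg (G : SimpleGraph V) (x : V) : ℤ := ∑ y, ad G x y

/-- number of neighbours of `v` of degree `k` -/
noncomputable def nb (G : SimpleGraph V) (k : ℤ) (v : V) : ℤ := ∑ y, ad G v y * ind (dg G y = k)

/-- number of vertices of degree `k` -/
noncomputable def cls (G : SimpleGraph V) (k : ℤ) : ℤ := ∑ y, ind (dg G y = k)

/-- number of vertices of degree at least `k` -/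
noncomputable def clg (G : SimpleGraph V) (k : ℤ) : ℤ := ∑ y, ind (k ≤ dg G y)

/-- twice the number of edges -/
noncomputable def tot (G : SimpleGraph V) : ℤ := ∑ y, dg G y

/-- `G - v` and `H - w` are isomorphic -/
def CI (G H : SimpleGraph V) (v w : V) : Prop :=
  ∃ σ : Equiv.Perm V, σ v = w ∧ ∀ x y, x ≠ v → y ≠ v → (G.Adj x y ↔ H.Adj (σ x) (σ y))

theorem CI.refl (G : SimpleGraph V) (v : V) : CI G G v v :=
  ⟨Equiv.refl V, rfl, fun _ _ _ _ => Iff.rfl⟩

theorem CI.symm {G H : SimpleGraph V} {v w : V} (h : CI G H v w) : CI H G w v := by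
  obtain ⟨σ, hv, hσ⟩ := h
  refine ⟨σ.symm, by rw [← hv, Equiv.symm_apply_apply], ?_⟩
  intro x y hx hy
  have hx' : σ.symm x ≠ v := fun h => hx (by rw [← hv, ← h, Equiv.apply_symm_apply])
  have hy' : σ.symm y ≠ v := fun h => hy (by rw [← hv, ← h, Equiv.apply_symm_apply])
  have := hσ _ _ hx' hy'
  rw [Equiv.apply_symm_apply, Equiv.apply_symm_apply] at this
  exact this.symm

theorem CI.trans {G H K : SimpleGraph V} {u v w : V} (h : CI G H u v) (h' : CI H K v w) :
    CI G K u w := by
  obtain ⟨σ, hv, hσ⟩ := h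
  obtain ⟨τ, hw, hτ⟩ := h'
  refine ⟨σ.trans τ, by rw [Equiv.trans_apply, hv, hw], ?_⟩
  intro x y hx hy
  have hx' : σ x ≠ v := fun h => hx (σ.injective (h.trans hv.symm))
  have hy' : σ y ≠ v := fun h => hy (σ.injective (h.trans hv.symm))
  rw [hσ x y hx hy, hτ _ _ hx' hy']
  rfl

theorem ci_iff (G H : SimpleGraph V) (v w : V) :
    Nonempty (G.induce ({v}ᶜ : Set V) ≃g H.induce ({w}ᶜ : Set V)) ↔ CI G H v w := by
  classical
  constructor
  · rintro ⟨e⟩
    -- extend to a permutation
    have e0 : {x // x ∈ ({v}ᶜ : Set V)} ≃ {x // x ∈ ({w}ᶜ : Set V)} := e.toEquiv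
    let e1 : {x // x ∈ ({v}ᶜ : Set V)} ≃ {x // x ∈ ({w}ᶜ : Set V)} := e.toEquiv
    let e2 : {x // x ∈ ({v} : Set V)} ≃ {x // x ∈ ({w} : Set V)} :=
      { toFun := fun _ => ⟨w, rfl⟩
        invFun := fun _ => ⟨v, rfl⟩
        left_inv := fun x => Subtype.ext (by
          have := x.2
          simp only [Set.mem_singleton_iff] at this
          exact this.symm)
        right_inv := fun x => Subtype.ext (by
          have := x.2
          simp only [Set.mem_singleton_iff] at this
          exact this.symm) }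
    let σ : Equiv.Perm V :=
      (Equiv.Set.sumCompl ({v} : Set V)).symm.trans
        ((Equiv.sumCongr e2 e1).trans (Equiv.Set.sumCompl ({w} : Set V)))
    have hσv : σ v = w := by
      simp only [σ, Equiv.trans_apply]
      rw [Equiv.Set.sumCompl_symm_apply_of_mem (Set.mem_singleton v)]
      simp [e2]
    have hσx : ∀ x (hx : x ≠ v), σ x = (e ⟨x, hx⟩ : V) := by
      intro x hx
      simp only [σ, Equiv.trans_apply]
      have hx' : x ∉ ({v} : Set V) := by simpa using hx
      rw [Equiv.Set.sumCompl_symm_apply_of_notMem hx']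
      simp [e1]
    refine ⟨σ, hσv, ?_⟩
    intro x y hx hy
    rw [hσx x hx, hσx y hy]
    have := e.map_rel_iff (a := ⟨x, hx⟩) (b := ⟨y, hy⟩)
    simp only [SimpleGraph.comap_adj, SimpleGraph.induce] at this
    exact this.symm
  · rintro ⟨σ, hv, hσ⟩
    have hm : ∀ x : V, x ∈ ({v}ᶜ : Set V) ↔ σ x ∈ ({w}ᶜ : Set V) := by
      intro x
      simp only [Set.mem_compl_iff, Set.mem_singleton_iff]
      rw [← hv, σ.injective.eq_iff]
    refine ⟨⟨σ.subtypeEquiv hm, ?_⟩⟩
    rintro ⟨x, hx⟩ ⟨y, hy⟩
    simp only [SimpleGraph.comap_adj, SimpleGraph.induce, Equiv.subtypeEquiv_apply,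
      Function.Embedding.subtype_apply]
    exact (hσ x y hx hy).symm

/-! ### sums over cards -/

theorem sum_erase_eq (v : V) (f : V → ℤ) : ∑ x ∈ univ.erase v, f x = ∑ x, f x - f v := by
  have := Finset.sum_erase_add univ f (mem_univ v)
  linarith

theorem sum_card (σ : Equiv.Perm V) {v w : V} (hv : σ v = w) (f g : V → ℤ)
    (h : ∀ x, x ≠ v → f x = g (σ x)) :
    ∑ x ∈ univ.erase v, f x = ∑ x ∈ univ.erase w, g x := by
  refine Finset.sum_equiv σ ?_ ?_
  · intro x
    simp only [mem_erase, mem_univ, and_true, ne_eq]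
    rw [← hv, σ.injective.eq_iff]
  · intro x hx
    exact h x (Finset.ne_of_mem_erase hx)

theorem sum_card2 (σ : Equiv.Perm V) {v w : V} (hv : σ v = w) (f g : V → V → ℤ)
    (h : ∀ x y, x ≠ v → y ≠ v → f x y = g (σ x) (σ y)) :
    ∑ x ∈ univ.erase v, ∑ y ∈ univ.erase v, f x y
      = ∑ x ∈ univ.erase w, ∑ y ∈ univ.erase w, g x y := by
  refine sum_card σ hv _ (fun x => ∑ y ∈ univ.erase w, g x y) ?_
  intro x hx
  exact sum_card σ hv _ _ (fun y hy => h x y hx hy)

theorem dg_card {G H : SimpleGraph V} {σ : Equiv.Perm V} {v w : V} (hv : σ v = w)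
    (hσ : ∀ x y, x ≠ v → y ≠ v → (G.Adj x y ↔ H.Adj (σ x) (σ y))) {x : V} (hx : x ≠ v) :
    dg G x - ad G x v = dg H (σ x) - ad H (σ x) w := by
  have h1 := sum_card σ hv (fun y => ad G x y) (fun y => ad H (σ x) y)
    (fun y hy => ind_congr (hσ x y hx hy))
  rw [sum_erase_eq, sum_erase_eq] at h1
  exact h1

end Pool.Agent.Helper373_CM
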