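import Pool.Agent.Helper373_CM.Shift

set_option autoImplicit false
set_option linter.unusedSectionVars false
set_option linter.unnecessarySeqFocus false
set_option linter.unusedVariables false

namespace Pool.Agent.Helper373_CM

open Finset

variable {V : Type*} [Fintype V] [DecidableEq V]

/-- `X` and `Y` agree outside `v`. -/
def Same (X Y : SimpleGraph V) (v : V) : Prop :=
  ∀ x y, x ≠ v → y ≠ v → (X.Adj x y ↔ Y.Adj x y)

theorem Same.symm {X Y : SimpleGraph V} {v : V} (h : Same X Y v) : Same Y X v :=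
  fun x y hx hy => (h x y hx hy).symm

theorem Same.trans {X Y Z : SimpleGraph V} {v : V} (h : Same X Y v) (h' : Same Y Z v) :
    Same X Z v := fun x y hx hy => (h x y hx hy).trans (h' x y hx hy)

theorem Same.ci {X Y : SimpleGraph V} {v : V} (h : Same X Y v) : CI X Y v v :=
  ⟨Equiv.refl V, rfl, h⟩

theorem Same.ad {X Y : SimpleGraph V} {v x y : V} (h : Same X Y v) (hx : x ≠ v) (hy : y ≠ v) :
    ad X x y = ad Y x y := ind_congr (h x y hx hy)

theorem Same.dg {X Y : SimpleGraph V} {v x : V} (h : Same X Y v) (hx : x ≠ v) :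
    dg X x - Helper373_CM.ad X x v = dg Y x - Helper373_CM.ad Y x v :=
  dg_card (σ := Equiv.refl V) rfl h hx

theorem graph_ext {X Y : SimpleGraph V} {v : V} (h : Same X Y v)
    (h' : ∀ x, ad X v x = ad Y v x) : X = Y := by
  have hv : ∀ x, X.Adj v x ↔ Y.Adj v x := by
    intro x
    have := h' x
    constructor
    · intro hx
      exact ind_eq_one.mp ((show ind (Y.Adj v x) = ad X v x from this.symm).trans (ind_true hx))
    · intro hx
      exact ind_eq_one.mp ((show ind (X.Adj v x) = ad Y v x from this).trans (ind_true hx))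
  ext x y
  by_cases hx : x = v
  · rw [hx]; exact hv y
  · by_cases hy : y = v
    · rw [hy, X.adj_comm, Y.adj_comm]; exact hv x
    · exact h x y hx hy

/-- A family of labelled graphs with two consecutive degrees `d`, `d+1`, with an affine relation
for the number of walks of length two, such that every card extends in a second way. -/
structure Fam (F : Set (SimpleGraph V)) (d a c : ℤ) : Prop where
  deg : ∀ X ∈ F, ∀ x, dg X x = d ∨ dg X x = d + 1
  walk : ∀ X ∈ F, ∀ x, ∑ y, ad X x y * dg X y = a * dg X x + c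
  part : ∀ X ∈ F, ∀ v, ∃ Y ∈ F, Y ≠ X ∧ Same X Y v
  tots : ∀ X ∈ F, ∀ Y ∈ F, tot X = tot Y

structure IsD (a d : ℤ) (X : SimpleGraph V) (v : V) (D : V → ℤ) (s : ℤ) : Prop where
  zero : D v = 0
  pos : 0 < s
  eig : ∀ x, ∑ y, ad X x y * D y = (a - dg X v) * D x + s * ind (x = v)
  val : ∀ x, D x = 0 ∨ (D x = 1 ∧ dg X x = d + 1 ∧ X.Adj v x) ∨
    (D x = -1 ∧ dg X x = d ∧ ¬ X.Adj v x)
  sum0 : ∑ x, D x = 0

theorem IsD.card_pos {a d : ℤ} {X : SimpleGraph V} {v : V} {D : V → ℤ} {s : ℤ}
    (h : IsD a d X v D s) : ∑ x, ind (D x = 1) = s := by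
  have h1 := h.eig v
  rw [h.zero, ind_true rfl, mul_zero, zero_add, mul_one] at h1
  rw [← h1]
  refine Finset.sum_congr rfl (fun y _ => ?_)
  rcases h.val y with e | ⟨e, -, e'⟩ | ⟨e, -, e'⟩
  · rw [e, ind_false (by norm_num)]; ring
  · rw [e, ind_true rfl, show ad X v y = 1 from ind_true e']; ring
  · rw [e, ind_false (by norm_num), show ad X v y = 0 from ind_false e']; ring

theorem IsD.card_neg {a d : ℤ} {X : SimpleGraph V} {v : V} {D : V → ℤ} {s : ℤ}
    (h : IsD a d X v D s) : ∑ x, ind (D x = -1) = s := by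
  have h1 : ∑ x, D x = ∑ x, ind (D x = 1) - ∑ x, ind (D x = -1) := by
    rw [← Finset.sum_sub_distrib]
    refine Finset.sum_congr rfl (fun y _ => ?_)
    rcases h.val y with e | ⟨e, -, e'⟩ | ⟨e, -, e'⟩
    · rw [e, ind_false (by norm_num), ind_false (by norm_num)]; ring
    · rw [e, ind_true rfl, ind_false (by norm_num)]; ring
    · rw [e, ind_false (by norm_num), ind_true rfl]; ring
  rw [h.sum0, h.card_pos] at h1
  linarith

theorem IsD.exists_pos {a d : ℤ} {X : SimpleGraph V} {v : V} {D : V → ℤ} {s : ℤ}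
    (h : IsD a d X v D s) : ∃ x, D x = 1 := by
  by_contra hc
  push Not at hc
  have h1 := h.card_pos
  rw [Finset.sum_eq_zero (fun x _ => ind_false (hc x))] at h1
  have := h.pos
  omega

theorem IsD.exists_neg {a d : ℤ} {X : SimpleGraph V} {v : V} {D : V → ℤ} {s : ℤ}
    (h : IsD a d X v D s) : ∃ x, D x = -1 := by
  by_contra hc
  push Not at hc
  have h1 := h.card_neg
  rw [Finset.sum_eq_zero (fun x _ => ind_false (hc x))] at h1
  have := h.pos
  omega

/-- general pairing identity -/
theorem pair_id (X : SimpleGraph V) (D E : V → ℤ) (α β : ℤ) (p q : V → ℤ)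
    (hD : ∀ x, ∑ y, ad X x y * D y = α * D x + p x)
    (hE : ∀ x, ∑ y, ad X x y * E y = β * E x + q x) :
    (α - β) * ∑ x, D x * E x = ∑ x, D x * q x - ∑ x, E x * p x := by
  have h1 : ∑ x, E x * (∑ y, ad X x y * D y) = ∑ x, D x * (∑ y, ad X x y * E y) := by
    simp only [Finset.mul_sum]
    rw [Finset.sum_comm]
    refine Finset.sum_congr rfl (fun x _ => Finset.sum_congr rfl (fun y _ => ?_))
    rw [ad_comm X y x]
    ring
  simp only [hD, hE] at h1
  have h2 : ∑ x, E x * (α * D x + p x) = α * ∑ x, D x * E x + ∑ x, E x * p x := by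
    rw [Finset.mul_sum, ← Finset.sum_add_distrib]
    exact Finset.sum_congr rfl (fun x _ => by ring)
  have h3 : ∑ x, D x * (β * E x + q x) = β * ∑ x, D x * E x + ∑ x, D x * q x := by
    rw [Finset.mul_sum, ← Finset.sum_add_distrib]
    exact Finset.sum_congr rfl (fun x _ => by ring)
  rw [h2, h3] at h1
  linarith

theorem sum_mul_ind_eq (f : V → ℤ) (v : V) : ∑ x, f x * ind (x = v) = f v := by
  rw [Finset.sum_eq_single v]
  · rw [ind_true rfl, mul_one]
  · intro b _ hb
    rw [ind_false hb, mul_zero]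
  · intro h
    exact absurd (mem_univ v) h

theorem sum_mul_sind (f : V → ℤ) (s : ℤ) (v : V) : ∑ x, f x * (s * ind (x = v)) = s * f v := by
  rw [← sum_mul_ind_eq f v, Finset.mul_sum]
  exact Finset.sum_congr rfl (fun x _ => by ring)

theorem pair_D {a d : ℤ} {X : SimpleGraph V} {u v : V} {D E : V → ℤ} {s t : ℤ}
    (h : IsD a d X u D s) (h' : IsD a d X v E t) :
    (dg X v - dg X u) * ∑ x, D x * E x = t * D v - s * E u := by
  have := pair_id X D E _ _ _ _ h.eig h'.eig
  rw [sum_mul_sind, sum_mul_sind] at this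
  linarith

theorem mkD {F : Set (SimpleGraph V)} {d a c : ℤ} (hF : Fam F d a c) {X Y : SimpleGraph V}
    (hX : X ∈ F) (hY : Y ∈ F) (hne : Y ≠ X) {v : V} (hs : Same X Y v) :
    IsD a d X v (fun x => ad X v x - ad Y v x) (∑ y, ad X v y * (ad X v y - ad Y v y)) := by
  have hdv : dg X v = dg Y v := by
    have h1 := tot_card hs.ci
    have h2 := hF.tots X hX Y hY
    omega
  have hdx : ∀ x, x ≠ v → dg X x - dg Y x = ad X v x - ad Y v x := by
    intro x hx
    have := hs.dg hx
    rw [ad_comm X x v, ad_comm Y x v] at this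
    linarith
  have hval : ∀ x, ad X v x - ad Y v x = 0 ∨
      (ad X v x - ad Y v x = 1 ∧ dg X x = d + 1 ∧ X.Adj v x) ∨
      (ad X v x - ad Y v x = -1 ∧ dg X x = d ∧ ¬ X.Adj v x) := by
    intro x
    by_cases hx : x = v
    · left; rw [hx, ad_self, ad_self, sub_zero]
    · have h1 := hdx x hx
      have h2 := hF.deg X hX x
      have h3 := hF.deg Y hY x
      by_cases hA : X.Adj v x
      · by_cases hB : Y.Adj v x
        · left
          rw [show ad X v x = 1 from ind_true hA, show ad Y v x = 1 from ind_true hB]; ring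
        · right; left
          have e1 : ad X v x = 1 := ind_true hA
          have e2 : ad Y v x = 0 := ind_false hB
          rw [e1, e2] at h1 ⊢
          refine ⟨by norm_num, ?_, hA⟩
          omega
      · by_cases hB : Y.Adj v x
        · right; right
          have e1 : ad X v x = 0 := ind_false hA
          have e2 : ad Y v x = 1 := ind_true hB
          rw [e1, e2] at h1 ⊢
          refine ⟨by norm_num, ?_, hA⟩
          omega
        · left
          rw [show ad X v x = 0 from ind_false hA, show ad Y v x = 0 from ind_false hB]; ring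
  have hsum0 : ∑ x, (ad X v x - ad Y v x) = 0 := by
    rw [Finset.sum_sub_distrib]
    have : dg X v - dg Y v = 0 := by omega
    exact this
  have hcount : ∑ y, ad X v y * (ad X v y - ad Y v y) = ∑ y, ind (ad X v y - ad Y v y = 1) := by
    refine Finset.sum_congr rfl (fun y _ => ?_)
    rcases hval y with e | ⟨e, -, e'⟩ | ⟨e, -, e'⟩
    · rw [e, ind_false (by norm_num)]; ring
    · rw [e, ind_true rfl, show ad X v y = 1 from ind_true e']; ring
    · rw [e, ind_false (by norm_num), show ad X v y = 0 from ind_false e']; ring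
  refine ⟨?_, ?_, ?_, hval, hsum0⟩
  · rw [ad_self, ad_self, sub_zero]
  · -- positivity
    rw [hcount]
    have hnn : 0 ≤ ∑ y, ind (ad X v y - ad Y v y = 1) := Finset.sum_nonneg (fun y _ => ind_nonneg _)
    rcases hnn.lt_or_eq with h | h
    · exact h
    · exfalso
      have h1 := (Finset.sum_eq_zero_iff_of_nonneg (fun y _ => ind_nonneg _)).mp h.symm
      have h2 : ∀ x, ad X v x - ad Y v x ≤ 0 := by
        intro x
        have := ind_eq_zero.mp (h1 x (mem_univ x))
        rcases hval x with e | ⟨e, -, e'⟩ | ⟨e, -, e'⟩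
        · omega
        · exact absurd e this
        · omega
      have h3 := (Finset.sum_eq_zero_iff_of_nonpos (fun y _ => h2 y)).mp hsum0
      exact hne.symm (graph_ext hs (fun x => by have := h3 x (mem_univ x); omega))
  · intro x
    by_cases hx : x = v
    · rw [hx, ind_true rfl, ad_self, ad_self]; ring
    · rw [ind_false hx, mul_zero, add_zero]
      have e1 : ∀ (Z : SimpleGraph V), ∑ y ∈ univ.erase v, ad Z x y * dg Z y
          = ∑ y, ad Z x y * dg Z y - ad Z x v * dg Z v := fun Z => sum_erase_eq v _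
      have e2 : ∑ y, ad X x y * (ad X v y - ad Y v y)
          = ∑ y ∈ univ.erase v, (ad X x y * dg X y) - ∑ y ∈ univ.erase v, (ad Y x y * dg Y y) := by
        rw [← Finset.sum_sub_distrib]
        have : ∑ y, ad X x y * (ad X v y - ad Y v y)
            = ∑ y ∈ univ.erase v, ad X x y * (ad X v y - ad Y v y) := by
          rw [sum_erase_eq, ad_self, ad_self]; ring
        rw [this]
        refine Finset.sum_congr rfl (fun y hy => ?_)
        have hy' : y ≠ v := Finset.ne_of_mem_erase hy
        rw [← hdx y hy', ← hs.ad hx hy']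
        ring
      rw [e2, e1, e1, hF.walk X hX x, hF.walk Y hY x, ← hdx x hx, ← hdv]
      have h3 := hs.dg hx
      linear_combination (dg X v) * h3

theorem exD {F : Set (SimpleGraph V)} {d a c : ℤ} (hF : Fam F d a c) {X : SimpleGraph V}
    (hX : X ∈ F) (v : V) : ∃ D s, IsD a d X v D s := by
  obtain ⟨Y, hY, hne, hs⟩ := hF.part X hX v
  exact ⟨_, _, mkD hF hX hY hne hs⟩

/-- the part of `D` in the class of larger degree is unique for vertices in that class -/
theorem uniqB {F : Set (SimpleGraph V)} {d a c : ℤ} (hF : Fam F d a c) {X : SimpleGraph V}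
    (hX : X ∈ F) {w : V} (hw : dg X w = d + 1) {D D' : V → ℤ} {s s' : ℤ}
    (h : IsD a d X w D s) (h' : IsD a d X w D' s') :
    s = s' ∧ ∀ x, dg X x = d + 1 → D x = D' x := by
  have key : ∀ x, dg X x = d + 1 → s' * D x = s * D' x := by
    intro x hx
    obtain ⟨E, t, hE⟩ := exD hF hX x
    have h1 := pair_D h hE
    have h2 := pair_D h' hE
    rw [hx, hw, sub_self, zero_mul] at h1 h2
    have ht := hE.pos
    have h3 : t * (s' * D x - s * D' x) = 0 := by
      linear_combination s * h2 - s' * h1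
    rcases mul_eq_zero.mp h3 with h4 | h4
    · omega
    · linarith
  obtain ⟨x0, hx0⟩ := h.exists_pos
  have hx0B : dg X x0 = d + 1 := by
    rcases h.val x0 with e | ⟨e, e', -⟩ | ⟨e, -, -⟩
    · rw [hx0] at e; norm_num at e
    · exact e'
    · rw [hx0] at e; norm_num at e
  have h1 := key x0 hx0B
  rw [hx0, mul_one] at h1
  have hs' := h'.pos
  have hs := h.pos
  have hss : s = s' := by
    rcases h'.val x0 with e | ⟨e, e', -⟩ | ⟨e, e', -⟩
    · rw [e, mul_zero] at h1; omega
    · rw [e, mul_one] at h1; omega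
    · omega
  refine ⟨hss, fun x hx => ?_⟩
  have h2 := key x hx
  rw [← hss] at h2
  exact mul_left_cancel₀ hs.ne' h2

theorem no_three_B {F : Set (SimpleGraph V)} {d a c : ℤ} (hF : Fam F d a c)
    {X X1 X2 : SimpleGraph V} (hX : X ∈ F) (hX1 : X1 ∈ F) (hX2 : X2 ∈ F)
    (n1 : X1 ≠ X) (n2 : X2 ≠ X) (n12 : X2 ≠ X1) {w : V} (hw : dg X w = d + 1)
    (so1 : Same X X1 w) (so2 : Same X X2 w) : False := by
  have I1 := mkD hF hX hX1 n1 so1
  have I2 := mkD hF hX hX2 n2 so2
  obtain ⟨D1, hD1⟩ : ∃ D1 : V → ℤ, D1 = fun x => ad X w x - ad X1 w x := ⟨_, rfl⟩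
  obtain ⟨D2, hD2⟩ : ∃ D2 : V → ℤ, D2 = fun x => ad X w x - ad X2 w x := ⟨_, rfl⟩
  obtain ⟨s1, hs1⟩ : ∃ s1, s1 = ∑ y, ad X w y * (ad X w y - ad X1 w y) := ⟨_, rfl⟩
  obtain ⟨s2, hs2⟩ : ∃ s2, s2 = ∑ y, ad X w y * (ad X w y - ad X2 w y) := ⟨_, rfl⟩
  rw [← hD1, ← hs1] at I1
  rw [← hD2, ← hs2] at I2
  obtain ⟨hss, huB⟩ := uniqB hF hX hw I1 I2
  have hdx1 : ∀ x, x ≠ w → dg X1 x = dg X x - D1 x := by
    intro x hx
    have := so1.dg hx
    rw [ad_comm X x w, ad_comm X1 x w] at this
    rw [hD1]
    simp only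
    linarith
  have hw1 : dg X1 w = d + 1 := by
    have h1 := tot_card so1.ci
    have h2 := hF.tots X hX X1 hX1
    omega
  -- in `X1`
  have I10 := mkD hF hX1 hX n1.symm so1.symm
  have I12 := mkD hF hX1 hX2 n12 (so1.symm.trans so2)
  obtain ⟨-, huB1⟩ := uniqB hF hX1 hw1 I10 I12
  have hI10 : IsD a d X1 w (fun x => - D1 x) s1 := by
    have e1 : (fun x => - D1 x) = fun x => ad X1 w x - ad X w x := by
      rw [hD1]; funext x; ring
    have e2 : s1 = ∑ y, ad X1 w y * (ad X1 w y - ad X w y) := by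
      rw [← I10.card_pos, ← I1.card_neg]
      refine Finset.sum_congr rfl (fun y _ => ind_congr ?_)
      rw [hD1]
      constructor
      · intro h; simp only at h ⊢; omega
      · intro h; simp only at h ⊢; omega
    rw [e1, e2]
    exact I10
  -- consequences of the values of `D1`
  have vneg : ∀ x, D1 x = -1 → dg X x = d ∧ ¬ X.Adj w x := by
    intro x hx
    rcases I1.val x with e | ⟨e, -, -⟩ | ⟨-, e, e'⟩
    · omega
    · omega
    · exact ⟨e, e'⟩
  have vpos : ∀ x, D1 x = 1 → dg X x = d + 1 := by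
    intro x hx
    rcases I1.val x with e | ⟨-, e, -⟩ | ⟨e, -, -⟩
    · omega
    · exact e
    · omega
  have hnw : ∀ x, D1 x = -1 → x ≠ w := by
    intro x hx h
    rw [h, I1.zero] at hx
    norm_num at hx
  have hdisj : ∀ x, D1 x = -1 → D2 x = 0 := by
    intro x hx
    have h1 := (vneg x hx).1
    have h2 := hdx1 x (hnw x hx)
    have h3 := huB1 x (by omega)
    have h4 : ad X w x = 0 := ind_false (vneg x hx).2
    have h5 : ad X1 w x = 1 := by
      rw [hD1] at hx; simp only at hx; omega
    rw [hD2]; simp only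
    omega
  -- facts for an arbitrary vertex `v` with `D1 v = -1`
  have fact : ∀ v, D1 v = -1 → ∀ Dv sv, IsD a d X v Dv sv →
      (∀ x, Dv x = -1 → D1 x = -1) ∧ Dv w = 0 ∧ (∀ x, Dv x ≠ 0 → dg X1 x = d + 1) ∧
      (∀ x, ∑ y, ad X1 x y * Dv y
        = (a - d) * Dv x + (sv * ind (x = v) + (-sv) * ind (x = w))) := by
    intro v hv Dv sv hDv
    have dv : dg X v = d := (vneg v hv).1
    have hvw : v ≠ w := hnw v hv
    have hDvw : Dv w = 0 := by
      rcases hDv.val w with e | ⟨-, -, e⟩ | ⟨-, e, -⟩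
      · exact e
      · exact absurd e.symm (vneg v hv).2
      · omega
    have P2 := pair_D I2 hDv
    rw [dv, hw, hdisj v hv, hDvw] at P2
    have P2' : ∑ x, D2 x * Dv x = 0 := by linarith
    have nn : ∀ x, 0 ≤ D2 x * Dv x := by
      intro x
      rcases I2.val x with e | ⟨e, e1, -⟩ | ⟨e, e1, -⟩ <;>
      rcases hDv.val x with f | ⟨f, f1, -⟩ | ⟨f, f1, -⟩ <;>
      first
        | (rw [e]; simp; done)
        | (rw [f]; simp; done)
        | (rw [e, f]; norm_num; done)
        | omega
    have z2 : ∀ x, D2 x * Dv x = 0 := fun x =>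
      (Finset.sum_eq_zero_iff_of_nonneg (fun y _ => nn y)).mp P2' x (mem_univ x)
    have zpos : ∀ x, D1 x = 1 → Dv x = 0 := by
      intro x hx
      have h1 := huB x (vpos x hx)
      have h2 := z2 x
      rw [← h1, hx, one_mul] at h2
      exact h2
    have P1 := pair_D I1 hDv
    rw [dv, hw, hv, hDvw] at P1
    have P1' : ∑ x, D1 x * Dv x = sv := by linarith
    have hprod : ∀ x, D1 x * Dv x = ind (D1 x = -1) * ind (Dv x = -1) := by
      intro x
      rcases I1.val x with e | ⟨e, e1, -⟩ | ⟨e, e1, -⟩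
      · rw [e, ind_false (by norm_num)]; ring
      · rw [zpos x e, ind_false (by norm_num : ¬ (0 : ℤ) = -1)]; ring
      · rw [e, ind_true rfl]
        rcases hDv.val x with f | ⟨f, f1, -⟩ | ⟨f, f1, -⟩
        · rw [f, ind_false (by norm_num)]; ring
        · omega
        · rw [f, ind_true rfl]; ring
    have hsub : ∀ x, Dv x = -1 → D1 x = -1 := by
      have h1 : ∑ x, (ind (Dv x = -1) - D1 x * Dv x) = 0 := by
        rw [Finset.sum_sub_distrib, hDv.card_neg, P1', sub_self]
      have h2 : ∀ x, 0 ≤ ind (Dv x = -1) - D1 x * Dv x := by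
        intro x
        rw [hprod]
        rcases ind_eq_one_or_zero (D1 x = -1) with h | h
        · rw [h]; simp
        · rw [h]; have := ind_nonneg (Dv x = -1); simpa using this
      intro x hx
      have h3 := (Finset.sum_eq_zero_iff_of_nonneg (fun y _ => h2 y)).mp h1 x (mem_univ x)
      rw [hprod, ind_true hx] at h3
      exact ind_eq_one.mp (by linarith)
    have hnadj : ∀ y, X.Adj w y → Dv y = 0 := by
      have h1 := hDv.eig w
      rw [hDvw, mul_zero, zero_add, ind_false (Ne.symm hvw), mul_zero] at h1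
      have h2 : ∀ y, 0 ≤ ad X w y * Dv y := by
        intro y
        rcases hDv.val y with f | ⟨f, f1, -⟩ | ⟨f, f1, -⟩
        · rw [f, mul_zero]
        · rw [f, mul_one]; exact ind_nonneg _
        · have := (vneg y (hsub y f)).2
          rw [show ad X w y = 0 from ind_false this, zero_mul]
      intro y hy
      have h3 := (Finset.sum_eq_zero_iff_of_nonneg (fun y _ => h2 y)).mp h1 y (mem_univ y)
      rw [show ad X w y = 1 from ind_true hy, one_mul] at h3
      exact h3
    refine ⟨hsub, hDvw, ?_, ?_⟩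
    · intro x hx
      have hxw : x ≠ w := fun h => hx (h ▸ hDvw)
      have h1 := hdx1 x hxw
      rcases hDv.val x with f | ⟨f, f1, -⟩ | ⟨f, f1, -⟩
      · exact absurd f hx
      · rcases I1.val x with e | ⟨e, e1, -⟩ | ⟨e, e1, -⟩
        · omega
        · rw [zpos x e] at f; norm_num at f
        · omega
      · have := hsub x f
        omega
    · intro x
      by_cases hx : x = w
      · rw [hx, hDvw, ind_false (Ne.symm hvw), ind_true rfl]
        have h1 : ∑ y, ad X1 w y * Dv y = ∑ y, ad X w y * Dv y - ∑ y, D1 y * Dv y := by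
          rw [← Finset.sum_sub_distrib]
          refine Finset.sum_congr rfl (fun y _ => ?_)
          rw [hD1]; ring
        have h2 : ∑ y, ad X w y * Dv y = 0 := by
          refine Finset.sum_eq_zero (fun y _ => ?_)
          by_cases hy : X.Adj w y
          · rw [hnadj y hy, mul_zero]
          · rw [show ad X w y = 0 from ind_false hy, zero_mul]
        rw [h1, h2, P1']
        ring
      · rw [ind_false hx]
        have h1 : ∑ y, ad X1 x y * Dv y = ∑ y, ad X x y * Dv y := by
          refine Finset.sum_congr rfl (fun y _ => ?_)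
          by_cases hy : y = w
          · rw [hy, hDvw, mul_zero, mul_zero]
          · rw [so1.ad hx hy]
        rw [h1, hDv.eig x, dv]
        ring
  -- pairing in `X1`
  have pairX1 : ∀ v, D1 v = -1 → ∀ Dv sv, IsD a d X v Dv sv → ∀ y E σ, dg X1 y = d + 1 →
      IsD a d X1 y E σ → ∑ x, E x * Dv x = σ * Dv y + sv * (E w - E v) := by
    intro v hv Dv sv hDv y E σ hy hE
    obtain ⟨-, -, -, h4⟩ := fact v hv Dv sv hDv
    have h5 := pair_id X1 Dv E _ _ _ _ h4 hE.eig
    rw [sum_mul_sind, hy] at h5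
    have h6 : ∑ x, E x * (sv * ind (x = v) + (-sv) * ind (x = w)) = sv * E v - sv * E w := by
      have : ∀ x, E x * (sv * ind (x = v) + (-sv) * ind (x = w))
          = E x * (sv * ind (x = v)) + E x * ((-sv) * ind (x = w)) := fun x => by ring
      rw [Finset.sum_congr rfl (fun x _ => this x), Finset.sum_add_distrib, sum_mul_sind,
        sum_mul_sind]
      ring
    rw [h6] at h5
    have h7 : ∑ x, E x * Dv x = ∑ x, Dv x * E x := Finset.sum_congr rfl (fun x _ => by ring)
    rw [h7]
    linear_combination h5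
  -- values of `E` for vertices in `{D1 = -1}`
  have hU1 : ∀ y, D1 y = -1 → dg X1 y = d + 1 := by
    intro y hy
    have h1 := hdx1 y (hnw y hy)
    have h2 := (vneg y hy).1
    omega
  have factE : ∀ y, D1 y = -1 → ∀ E σ, IsD a d X1 y E σ → σ = s1 ∧ E w = 1 := by
    intro y hy E σ hE
    have h1 := pair_D hI10 hE
    rw [hU1 y hy, hw1, sub_self, zero_mul, hy] at h1
    have h2 := hE.pos
    have h3 := I1.pos
    have h4 : s1 * E w = σ := by linarith
    rcases hE.val w with e | ⟨e, -, -⟩ | ⟨e, -, -⟩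
    · rw [e, mul_zero] at h4; omega
    · rw [e, mul_one] at h4; exact ⟨h4.symm, e⟩
    · rw [e] at h4; omega
  have fact8 : ∀ v, D1 v = -1 → ∀ Dv sv, IsD a d X v Dv sv → ∀ E σ, IsD a d X1 v E σ →
      ∀ x, Dv x = -1 → E x = 0 := by
    intro v hv Dv sv hDv E σ hE
    obtain ⟨h1, h2, h3, h4⟩ := fact v hv Dv sv hDv
    have h5 := pairX1 v hv Dv sv hDv v E σ (hU1 v hv) hE
    rw [hDv.zero, hE.zero, (factE v hv E σ hE).2] at h5
    have h6 : ∑ x, (ind (Dv x = 1) - E x * Dv x) = 0 := by
      rw [Finset.sum_sub_distrib, hDv.card_pos, h5]; ring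
    have hEval : ∀ x, Dv x ≠ 0 → E x = 0 ∨ E x = 1 := by
      intro x hx
      have hx1 := h3 x hx
      rcases hE.val x with e | ⟨e, -, -⟩ | ⟨e, e1, -⟩
      · exact Or.inl e
      · exact Or.inr e
      · omega
    have h7 : ∀ x, 0 ≤ ind (Dv x = 1) - E x * Dv x := by
      intro x
      rcases hDv.val x with f | ⟨f, -, -⟩ | ⟨f, -, -⟩
      · rw [f, ind_false (by norm_num)]; simp
      · rw [f, ind_true rfl]
        rcases hEval x (by rw [f]; norm_num) with e | e <;> rw [e] <;> norm_num
      · rw [f, ind_false (by norm_num)]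
        rcases hEval x (by rw [f]; norm_num) with e | e <;> rw [e] <;> norm_num
    intro x hx
    have h8 := (Finset.sum_eq_zero_iff_of_nonneg (fun y _ => h7 y)).mp h6 x (mem_univ x)
    rw [hx, ind_false (by norm_num)] at h8
    linarith
  -- the contradiction
  obtain ⟨v, hv⟩ := I1.exists_neg
  obtain ⟨Dv, sv, hDv⟩ := exD hF hX v
  obtain ⟨y, hyv⟩ := hDv.exists_neg
  have hy : D1 y = -1 := (fact v hv Dv sv hDv).1 y hyv
  obtain ⟨Dy, sy, hDy⟩ := exD hF hX y
  obtain ⟨Ev, σv, hEv⟩ := exD hF hX1 v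
  obtain ⟨Ey, σy, hEy⟩ := exD hF hX1 y
  obtain ⟨e1, e2⟩ := factE v hv Ev σv hEv
  obtain ⟨e3, e4⟩ := factE y hy Ey σy hEy
  have h1 : Ev y = 0 := fact8 v hv Dv sv hDv Ev σv hEv y hyv
  have h2 := pair_D hEv hEy
  rw [hU1 v hv, hU1 y hy, sub_self, zero_mul, e1, e3, h1] at h2
  have hs1pos := I1.pos
  have h3 : Ey v = 0 := by
    have : s1 * Ey v = 0 := by linarith
    rcases mul_eq_zero.mp this with h | h
    · omega
    · exact h
  have h4 := pairX1 v hv Dv sv hDv y Ey σy (hU1 y hy) hEy
  rw [e3, e4, h3, hyv] at h4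
  -- `sy = sv`
  have h5 := pair_D hDv hDy
  rw [(vneg v hv).1, (vneg y hy).1, sub_self, zero_mul, hyv] at h5
  have hsv := hDv.pos
  have hsy := hDy.pos
  have h6 : sv = sy := by
    rcases hDy.val v with e | ⟨e, e', -⟩ | ⟨e, -, -⟩
    · rw [e, mul_zero] at h5; omega
    · have := (vneg v hv).1; omega
    · rw [e] at h5; omega
  -- count
  have h7 : ∑ x, (-(Ey x * Dv x)) ≤ ∑ x, (ind (D1 x = -1) - ind (Dy x = -1) - ind (x = y)) := by
    refine Finset.sum_le_sum (fun x _ => ?_)
    have hA : 0 ≤ ind (D1 x = -1) - ind (Dy x = -1) - ind (x = y) := by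
      by_cases hx : D1 x = -1
      · rw [ind_true hx]
        by_cases hxy : x = y
        · rw [hxy, hDy.zero, ind_false (by norm_num), ind_true rfl]; norm_num
        · rw [ind_false hxy]; have := ind_le_one (Dy x = -1); omega
      · have hx2 : ¬ Dy x = -1 := fun h => hx ((fact y hy Dy sy hDy).1 x h)
        have hx3 : x ≠ y := fun h => hx (h ▸ hy)
        rw [ind_false hx, ind_false hx2, ind_false hx3]; norm_num
    rcases hDv.val x with f | ⟨f, -, -⟩ | ⟨f, -, -⟩
    · rw [f]; simpa using hA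
    · have hx1 := (fact v hv Dv sv hDv).2.2.1 x (by rw [f]; norm_num)
      rcases hEy.val x with e | ⟨e, -, -⟩ | ⟨e, e', -⟩
      · rw [e]; simpa using hA
      · rw [e, f]; omega
      · omega
    · have hx1 := (fact v hv Dv sv hDv).2.2.1 x (by rw [f]; norm_num)
      have hx2 := (fact v hv Dv sv hDv).1 x f
      rcases hEy.val x with e | ⟨e, -, -⟩ | ⟨e, e', -⟩
      · rw [e]; simpa using hA
      · have hx3 : ¬ Dy x = -1 := by
          intro h
          have := fact8 y hy Dy sy hDy Ey σy hEy x h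
          omega
        have hx4 : x ≠ y := by
          intro h
          rw [h, hEy.zero] at e
          norm_num at e
        rw [e, f, ind_true hx2, ind_false hx3, ind_false hx4]; norm_num
      · omega
  rw [Finset.sum_neg_distrib, h4, Finset.sum_sub_distrib, Finset.sum_sub_distrib, I1.card_neg,
    hDy.card_neg] at h7
  have h8 : ∑ x, ind (x = y) = 1 := by
    have := sum_mul_ind_eq (fun _ => (1 : ℤ)) y
    simpa using this
  rw [h8] at h7
  linarith

end Pool.Agent.Helper373_CM
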