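import Pool.Agent.Helper373_CM.Level

set_option autoImplicit false
set_option linter.unusedSectionVars false
set_option linter.unnecessarySeqFocus false
set_option linter.unusedVariables false

namespace Pool.Agent.Helper373_CM

open Finset

variable {V : Type*} [Fintype V] [DecidableEq V]

/-- A family in which differences of neighbourhoods at vertices of degree `d` or `d + 1` are
eigenvectors supported on the vertices of degree `d` and `d + 1`. -/
structure FamR (F : Set (SimpleGraph V)) (d a : ℤ) : Prop where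
  mkd : ∀ X ∈ F, ∀ Y ∈ F, Y ≠ X → ∀ v, Same X Y v → (dg X v = d ∨ dg X v = d + 1) →
    IsD a d X v (fun x => ad X v x - ad Y v x) (∑ y, ad X v y * (ad X v y - ad Y v y))
  part : ∀ X ∈ F, ∀ v, ∃ Y ∈ F, Y ≠ X ∧ Same X Y v
  tots : ∀ X ∈ F, ∀ Y ∈ F, tot X = tot Y

theorem exR {F : Set (SimpleGraph V)} {d a : ℤ} (hF : FamR F d a) {X : SimpleGraph V}
    (hX : X ∈ F) (v : V) (hv : dg X v = d ∨ dg X v = d + 1) : ∃ D s, IsD a d X v D s := by
  obtain ⟨Y, hY, hne, hs⟩ := hF.part X hX v
  exact ⟨_, _, hF.mkd X hX Y hY hne v hs hv⟩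

/-- the part of `D` in the class of larger degree is unique for vertices in that class -/
theorem uniqR {F : Set (SimpleGraph V)} {d a : ℤ} (hF : FamR F d a) {X : SimpleGraph V}
    (hX : X ∈ F) {w : V} (hw : dg X w = d + 1) {D D' : V → ℤ} {s s' : ℤ}
    (h : IsD a d X w D s) (h' : IsD a d X w D' s') :
    s = s' ∧ ∀ x, dg X x = d + 1 → D x = D' x := by
  have key : ∀ x, dg X x = d + 1 → s' * D x = s * D' x := by
    intro x hx
    obtain ⟨E, t, hE⟩ := exR hF hX x (Or.inr hx)
    have h1 := pair_D h hE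
    have h2 := pair_D h' hE
    rw [hx, hw, sub_self, zero_mul] at h1 h2
    have ht := hE.pos
    have h3 : t * (s' * D x - s * D' x) = 0 := by
      linear_combination s * h2 - s' * h1
    rcases mul_eq_zero.mp h3 with h4 | h4
    · omega
    · linarith
  obtain ⟨x0, hx0⟩ := h.exists_pos
  have hx0B : dg X x0 = d + 1 := by
    rcases h.val x0 with e | ⟨e, e', -⟩ | ⟨e, -, -⟩
    · rw [hx0] at e; norm_num at e
    · exact e'
    · rw [hx0] at e; norm_num at e
  have h1 := key x0 hx0B
  rw [hx0, mul_one] at h1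
  have hs' := h'.pos
  have hs := h.pos
  have hss : s = s' := by
    rcases h'.val x0 with e | ⟨e, e', -⟩ | ⟨e, e', -⟩
    · rw [e, mul_zero] at h1; omega
    · rw [e, mul_one] at h1; omega
    · omega
  refine ⟨hss, fun x hx => ?_⟩
  have h2 := key x hx
  rw [← hss] at h2
  exact mul_left_cancel₀ hs.ne' h2

theorem no_three_R {F : Set (SimpleGraph V)} {d a : ℤ} (hF : FamR F d a)
    {X X1 X2 : SimpleGraph V} (hX : X ∈ F) (hX1 : X1 ∈ F) (hX2 : X2 ∈ F)
    (n1 : X1 ≠ X) (n2 : X2 ≠ X) (n12 : X2 ≠ X1) {w : V} (hw : dg X w = d + 1)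
    (so1 : Same X X1 w) (so2 : Same X X2 w) : False := by
  have I1 := hF.mkd X hX X1 hX1 n1 w so1 (Or.inr hw)
  have I2 := hF.mkd X hX X2 hX2 n2 w so2 (Or.inr hw)
  obtain ⟨D1, hD1⟩ : ∃ D1 : V → ℤ, D1 = fun x => ad X w x - ad X1 w x := ⟨_, rfl⟩
  obtain ⟨D2, hD2⟩ : ∃ D2 : V → ℤ, D2 = fun x => ad X w x - ad X2 w x := ⟨_, rfl⟩
  obtain ⟨s1, hs1⟩ : ∃ s1, s1 = ∑ y, ad X w y * (ad X w y - ad X1 w y) := ⟨_, rfl⟩
  obtain ⟨s2, hs2⟩ : ∃ s2, s2 = ∑ y, ad X w y * (ad X w y - ad X2 w y) := ⟨_, rfl⟩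
  rw [← hD1, ← hs1] at I1
  rw [← hD2, ← hs2] at I2
  obtain ⟨hss, huB⟩ := uniqR hF hX hw I1 I2
  have hdx1 : ∀ x, x ≠ w → dg X1 x = dg X x - D1 x := by
    intro x hx
    have := so1.dg hx
    rw [ad_comm X x w, ad_comm X1 x w] at this
    rw [hD1]
    simp only
    linarith
  have hw1 : dg X1 w = d + 1 := by
    have h1 := tot_card so1.ci
    have h2 := hF.tots X hX X1 hX1
    omega
  -- in `X1`
  have I10 := hF.mkd X1 hX1 X hX n1.symm w so1.symm (Or.inr hw1)
  have I12 := hF.mkd X1 hX1 X2 hX2 n12 w (so1.symm.trans so2) (Or.inr hw1)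
  obtain ⟨-, huB1⟩ := uniqR hF hX1 hw1 I10 I12
  have hI10 : IsD a d X1 w (fun x => - D1 x) s1 := by
    have e1 : (fun x => - D1 x) = fun x => ad X1 w x - ad X w x := by
      rw [hD1]; funext x; ring
    have e2 : s1 = ∑ y, ad X1 w y * (ad X1 w y - ad X w y) := by
      rw [← I10.card_pos, ← I1.card_neg]
      refine Finset.sum_congr rfl (fun y _ => ind_congr ?_)
      rw [hD1]
      constructor
      · intro h; simp only at h ⊢; omega
      · intro h; simp only at h ⊢; omega
    rw [e1, e2]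
    exact I10
  -- consequences of the values of `D1`
  have vneg : ∀ x, D1 x = -1 → dg X x = d ∧ ¬ X.Adj w x := by
    intro x hx
    rcases I1.val x with e | ⟨e, -, -⟩ | ⟨-, e, e'⟩
    · omega
    · omega
    · exact ⟨e, e'⟩
  have vpos : ∀ x, D1 x = 1 → dg X x = d + 1 := by
    intro x hx
    rcases I1.val x with e | ⟨-, e, -⟩ | ⟨e, -, -⟩
    · omega
    · exact e
    · omega
  have hnw : ∀ x, D1 x = -1 → x ≠ w := by
    intro x hx h
    rw [h, I1.zero] at hx
    norm_num at hx
  have hdisj : ∀ x, D1 x = -1 → D2 x = 0 := by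
    intro x hx
    have h1 := (vneg x hx).1
    have h2 := hdx1 x (hnw x hx)
    have h3 := huB1 x (by omega)
    have h4 : ad X w x = 0 := ind_false (vneg x hx).2
    have h5 : ad X1 w x = 1 := by
      rw [hD1] at hx; simp only at hx; omega
    rw [hD2]; simp only
    omega
  -- facts for an arbitrary vertex `v` with `D1 v = -1`
  have fact : ∀ v, D1 v = -1 → ∀ Dv sv, IsD a d X v Dv sv →
      (∀ x, Dv x = -1 → D1 x = -1) ∧ Dv w = 0 ∧ (∀ x, Dv x ≠ 0 → dg X1 x = d + 1) ∧
      (∀ x, ∑ y, ad X1 x y * Dv y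
        = (a - d) * Dv x + (sv * ind (x = v) + (-sv) * ind (x = w))) := by
    intro v hv Dv sv hDv
    have dv : dg X v = d := (vneg v hv).1
    have hvw : v ≠ w := hnw v hv
    have hDvw : Dv w = 0 := by
      rcases hDv.val w with e | ⟨-, -, e⟩ | ⟨-, e, -⟩
      · exact e
      · exact absurd e.symm (vneg v hv).2
      · omega
    have P2 := pair_D I2 hDv
    rw [dv, hw, hdisj v hv, hDvw] at P2
    have P2' : ∑ x, D2 x * Dv x = 0 := by linarith
    have nn : ∀ x, 0 ≤ D2 x * Dv x := by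
      intro x
      rcases I2.val x with e | ⟨e, e1, -⟩ | ⟨e, e1, -⟩ <;>
      rcases hDv.val x with f | ⟨f, f1, -⟩ | ⟨f, f1, -⟩ <;>
      first
        | (rw [e]; simp; done)
        | (rw [f]; simp; done)
        | (rw [e, f]; norm_num; done)
        | omega
    have z2 : ∀ x, D2 x * Dv x = 0 := fun x =>
      (Finset.sum_eq_zero_iff_of_nonneg (fun y _ => nn y)).mp P2' x (mem_univ x)
    have zpos : ∀ x, D1 x = 1 → Dv x = 0 := by
      intro x hx
      have h1 := huB x (vpos x hx)
      have h2 := z2 x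
      rw [← h1, hx, one_mul] at h2
      exact h2
    have P1 := pair_D I1 hDv
    rw [dv, hw, hv, hDvw] at P1
    have P1' : ∑ x, D1 x * Dv x = sv := by linarith
    have hprod : ∀ x, D1 x * Dv x = ind (D1 x = -1) * ind (Dv x = -1) := by
      intro x
      rcases I1.val x with e | ⟨e, e1, -⟩ | ⟨e, e1, -⟩
      · rw [e, ind_false (by norm_num)]; ring
      · rw [zpos x e, ind_false (by norm_num : ¬ (0 : ℤ) = -1)]; ring
      · rw [e, ind_true rfl]
        rcases hDv.val x with f | ⟨f, f1, -⟩ | ⟨f, f1, -⟩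
        · rw [f, ind_false (by norm_num)]; ring
        · omega
        · rw [f, ind_true rfl]; ring
    have hsub : ∀ x, Dv x = -1 → D1 x = -1 := by
      have h1 : ∑ x, (ind (Dv x = -1) - D1 x * Dv x) = 0 := by
        rw [Finset.sum_sub_distrib, hDv.card_neg, P1', sub_self]
      have h2 : ∀ x, 0 ≤ ind (Dv x = -1) - D1 x * Dv x := by
        intro x
        rw [hprod]
        rcases ind_eq_one_or_zero (D1 x = -1) with h | h
        · rw [h]; simp
        · rw [h]; have := ind_nonneg (Dv x = -1); simpa using this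
      intro x hx
      have h3 := (Finset.sum_eq_zero_iff_of_nonneg (fun y _ => h2 y)).mp h1 x (mem_univ x)
      rw [hprod, ind_true hx] at h3
      exact ind_eq_one.mp (by linarith)
    have hnadj : ∀ y, X.Adj w y → Dv y = 0 := by
      have h1 := hDv.eig w
      rw [hDvw, mul_zero, zero_add, ind_false (Ne.symm hvw), mul_zero] at h1
      have h2 : ∀ y, 0 ≤ ad X w y * Dv y := by
        intro y
        rcases hDv.val y with f | ⟨f, f1, -⟩ | ⟨f, f1, -⟩
        · rw [f, mul_zero]
        · rw [f, mul_one]; exact ind_nonneg _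
        · have := (vneg y (hsub y f)).2
          rw [show ad X w y = 0 from ind_false this, zero_mul]
      intro y hy
      have h3 := (Finset.sum_eq_zero_iff_of_nonneg (fun y _ => h2 y)).mp h1 y (mem_univ y)
      rw [show ad X w y = 1 from ind_true hy, one_mul] at h3
      exact h3
    refine ⟨hsub, hDvw, ?_, ?_⟩
    · intro x hx
      have hxw : x ≠ w := fun h => hx (h ▸ hDvw)
      have h1 := hdx1 x hxw
      rcases hDv.val x with f | ⟨f, f1, -⟩ | ⟨f, f1, -⟩
      · exact absurd f hx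
      · rcases I1.val x with e | ⟨e, e1, -⟩ | ⟨e, e1, -⟩
        · omega
        · rw [zpos x e] at f; norm_num at f
        · omega
      · have := hsub x f
        omega
    · intro x
      by_cases hx : x = w
      · rw [hx, hDvw, ind_false (Ne.symm hvw), ind_true rfl]
        have h1 : ∑ y, ad X1 w y * Dv y = ∑ y, ad X w y * Dv y - ∑ y, D1 y * Dv y := by
          rw [← Finset.sum_sub_distrib]
          refine Finset.sum_congr rfl (fun y _ => ?_)
          rw [hD1]; ring
        have h2 : ∑ y, ad X w y * Dv y = 0 := by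
          refine Finset.sum_eq_zero (fun y _ => ?_)
          by_cases hy : X.Adj w y
          · rw [hnadj y hy, mul_zero]
          · rw [show ad X w y = 0 from ind_false hy, zero_mul]
        rw [h1, h2, P1']
        ring
      · rw [ind_false hx]
        have h1 : ∑ y, ad X1 x y * Dv y = ∑ y, ad X x y * Dv y := by
          refine Finset.sum_congr rfl (fun y _ => ?_)
          by_cases hy : y = w
          · rw [hy, hDvw, mul_zero, mul_zero]
          · rw [so1.ad hx hy]
        rw [h1, hDv.eig x, dv]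
        ring
  -- pairing in `X1`
  have pairX1 : ∀ v, D1 v = -1 → ∀ Dv sv, IsD a d X v Dv sv → ∀ y E σ, dg X1 y = d + 1 →
      IsD a d X1 y E σ → ∑ x, E x * Dv x = σ * Dv y + sv * (E w - E v) := by
    intro v hv Dv sv hDv y E σ hy hE
    obtain ⟨-, -, -, h4⟩ := fact v hv Dv sv hDv
    have h5 := pair_id X1 Dv E _ _ _ _ h4 hE.eig
    rw [sum_mul_sind, hy] at h5
    have h6 : ∑ x, E x * (sv * ind (x = v) + (-sv) * ind (x = w)) = sv * E v - sv * E w := by
      have : ∀ x, E x * (sv * ind (x = v) + (-sv) * ind (x = w))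
          = E x * (sv * ind (x = v)) + E x * ((-sv) * ind (x = w)) := fun x => by ring
      rw [Finset.sum_congr rfl (fun x _ => this x), Finset.sum_add_distrib, sum_mul_sind,
        sum_mul_sind]
      ring
    rw [h6] at h5
    have h7 : ∑ x, E x * Dv x = ∑ x, Dv x * E x := Finset.sum_congr rfl (fun x _ => by ring)
    rw [h7]
    linear_combination h5
  -- values of `E` for vertices in `{D1 = -1}`
  have hU1 : ∀ y, D1 y = -1 → dg X1 y = d + 1 := by
    intro y hy
    have h1 := hdx1 y (hnw y hy)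
    have h2 := (vneg y hy).1
    omega
  have factE : ∀ y, D1 y = -1 → ∀ E σ, IsD a d X1 y E σ → σ = s1 ∧ E w = 1 := by
    intro y hy E σ hE
    have h1 := pair_D hI10 hE
    rw [hU1 y hy, hw1, sub_self, zero_mul, hy] at h1
    have h2 := hE.pos
    have h3 := I1.pos
    have h4 : s1 * E w = σ := by linarith
    rcases hE.val w with e | ⟨e, -, -⟩ | ⟨e, -, -⟩
    · rw [e, mul_zero] at h4; omega
    · rw [e, mul_one] at h4; exact ⟨h4.symm, e⟩
    · rw [e] at h4; omega
  have fact8 : ∀ v, D1 v = -1 → ∀ Dv sv, IsD a d X v Dv sv → ∀ E σ, IsD a d X1 v E σ →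
      ∀ x, Dv x = -1 → E x = 0 := by
    intro v hv Dv sv hDv E σ hE
    obtain ⟨h1, h2, h3, h4⟩ := fact v hv Dv sv hDv
    have h5 := pairX1 v hv Dv sv hDv v E σ (hU1 v hv) hE
    rw [hDv.zero, hE.zero, (factE v hv E σ hE).2] at h5
    have h6 : ∑ x, (ind (Dv x = 1) - E x * Dv x) = 0 := by
      rw [Finset.sum_sub_distrib, hDv.card_pos, h5]; ring
    have hEval : ∀ x, Dv x ≠ 0 → E x = 0 ∨ E x = 1 := by
      intro x hx
      have hx1 := h3 x hx
      rcases hE.val x with e | ⟨e, -, -⟩ | ⟨e, e1, -⟩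
      · exact Or.inl e
      · exact Or.inr e
      · omega
    have h7 : ∀ x, 0 ≤ ind (Dv x = 1) - E x * Dv x := by
      intro x
      rcases hDv.val x with f | ⟨f, -, -⟩ | ⟨f, -, -⟩
      · rw [f, ind_false (by norm_num)]; simp
      · rw [f, ind_true rfl]
        rcases hEval x (by rw [f]; norm_num) with e | e <;> rw [e] <;> norm_num
      · rw [f, ind_false (by norm_num)]
        rcases hEval x (by rw [f]; norm_num) with e | e <;> rw [e] <;> norm_num
    intro x hx
    have h8 := (Finset.sum_eq_zero_iff_of_nonneg (fun y _ => h7 y)).mp h6 x (mem_univ x)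
    rw [hx, ind_false (by norm_num)] at h8
    linarith
  -- the contradiction
  obtain ⟨v, hv⟩ := I1.exists_neg
  obtain ⟨Dv, sv, hDv⟩ := exR hF hX v (Or.inl (vneg v hv).1)
  obtain ⟨y, hyv⟩ := hDv.exists_neg
  have hy : D1 y = -1 := (fact v hv Dv sv hDv).1 y hyv
  obtain ⟨Dy, sy, hDy⟩ := exR hF hX y (Or.inl (vneg y hy).1)
  obtain ⟨Ev, σv, hEv⟩ := exR hF hX1 v (Or.inr (hU1 v hv))
  obtain ⟨Ey, σy, hEy⟩ := exR hF hX1 y (Or.inr (hU1 y hy))
  obtain ⟨e1, e2⟩ := factE v hv Ev σv hEv
  obtain ⟨e3, e4⟩ := factE y hy Ey σy hEy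
  have h1 : Ev y = 0 := fact8 v hv Dv sv hDv Ev σv hEv y hyv
  have h2 := pair_D hEv hEy
  rw [hU1 v hv, hU1 y hy, sub_self, zero_mul, e1, e3, h1] at h2
  have hs1pos := I1.pos
  have h3 : Ey v = 0 := by
    have : s1 * Ey v = 0 := by linarith
    rcases mul_eq_zero.mp this with h | h
    · omega
    · exact h
  have h4 := pairX1 v hv Dv sv hDv y Ey σy (hU1 y hy) hEy
  rw [e3, e4, h3, hyv] at h4
  -- `sy = sv`
  have h5 := pair_D hDv hDy
  rw [(vneg v hv).1, (vneg y hy).1, sub_self, zero_mul, hyv] at h5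
  have hsv := hDv.pos
  have hsy := hDy.pos
  have h6 : sv = sy := by
    rcases hDy.val v with e | ⟨e, e', -⟩ | ⟨e, -, -⟩
    · rw [e, mul_zero] at h5; omega
    · have := (vneg v hv).1; omega
    · rw [e] at h5; omega
  -- count
  have h7 : ∑ x, (-(Ey x * Dv x)) ≤ ∑ x, (ind (D1 x = -1) - ind (Dy x = -1) - ind (x = y)) := by
    refine Finset.sum_le_sum (fun x _ => ?_)
    have hA : 0 ≤ ind (D1 x = -1) - ind (Dy x = -1) - ind (x = y) := by
      by_cases hx : D1 x = -1
      · rw [ind_true hx]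
        by_cases hxy : x = y
        · rw [hxy, hDy.zero, ind_false (by norm_num), ind_true rfl]; norm_num
        · rw [ind_false hxy]; have := ind_le_one (Dy x = -1); omega
      · have hx2 : ¬ Dy x = -1 := fun h => hx ((fact y hy Dy sy hDy).1 x h)
        have hx3 : x ≠ y := fun h => hx (h ▸ hy)
        rw [ind_false hx, ind_false hx2, ind_false hx3]; norm_num
    rcases hDv.val x with f | ⟨f, -, -⟩ | ⟨f, -, -⟩
    · rw [f]; simpa using hA
    · have hx1 := (fact v hv Dv sv hDv).2.2.1 x (by rw [f]; norm_num)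
      rcases hEy.val x with e | ⟨e, -, -⟩ | ⟨e, e', -⟩
      · rw [e]; simpa using hA
      · rw [e, f]; omega
      · omega
    · have hx1 := (fact v hv Dv sv hDv).2.2.1 x (by rw [f]; norm_num)
      have hx2 := (fact v hv Dv sv hDv).1 x f
      rcases hEy.val x with e | ⟨e, -, -⟩ | ⟨e, e', -⟩
      · rw [e]; simpa using hA
      · have hx3 : ¬ Dy x = -1 := by
          intro h
          have := fact8 y hy Dy sy hDy Ey σy hEy x h
          omega
        have hx4 : x ≠ y := by
          intro h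
          rw [h, hEy.zero] at e
          norm_num at e
        rw [e, f, ind_true hx2, ind_false hx3, ind_false hx4]; norm_num
      · omega
  rw [Finset.sum_neg_distrib, h4, Finset.sum_sub_distrib, Finset.sum_sub_distrib, I1.card_neg,
    hDy.card_neg] at h7
  have h8 : ∑ x, ind (x = y) = 1 := by
    have := sum_mul_ind_eq (fun _ => (1 : ℤ)) y
    simpa using this
  rw [h8] at h7
  linarith

theorem IsD.compl {a d : ℤ} {X : SimpleGraph V} {v : V} {D : V → ℤ} {s : ℤ}
    (h : IsD a d X v D s) : IsD ((Fintype.card V : ℤ) - 2 - a) ((Fintype.card V : ℤ) - 2 - d) Xᶜ v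
      (fun x => - D x) s := by
  refine ⟨by rw [h.zero, neg_zero], h.pos, ?_, ?_, ?_⟩
  · intro x
    simp_rw [ad_compl, dg_compl]
    have h1 : ∀ y, (1 - ad X x y - ind (x = y)) * -D y
        = ad X x y * D y + D y * ind (y = x) - D y := by
      intro y
      rw [ind_congr (eq_comm : x = y ↔ y = x)]; ring
    rw [Finset.sum_congr rfl (fun y _ => h1 y), Finset.sum_sub_distrib, Finset.sum_add_distrib,
      h.eig, sum_mul_ind_eq, h.sum0]
    ring
  · intro x
    rw [dg_compl]
    rcases h.val x with e | ⟨e, e1, e2⟩ | ⟨e, e1, e2⟩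
    · left; rw [e, neg_zero]
    · right; right
      refine ⟨by rw [e], by omega, ?_⟩
      rw [SimpleGraph.compl_adj]
      exact fun h' => h'.2 e2
    · right; left
      refine ⟨by rw [e]; norm_num, by omega, ?_⟩
      rw [SimpleGraph.compl_adj]
      refine ⟨?_, e2⟩
      intro hvx
      rw [← hvx, h.zero] at e
      norm_num at e
  · rw [Finset.sum_neg_distrib, h.sum0, neg_zero]

theorem famR_compl {F : Set (SimpleGraph V)} {d a : ℤ} (hF : FamR F d a) :
    FamR ((fun X => Xᶜ) '' F) ((Fintype.card V : ℤ) - 2 - d) ((Fintype.card V : ℤ) - 2 - a) := by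
  refine ⟨?_, ?_, ?_⟩
  · rintro _ ⟨X, hX, rfl⟩ _ ⟨Y, hY, rfl⟩ hne v hs hv
    have hs' : Same X Y v := by
      have := hs.compl
      simp only [compl_compl] at this
      exact this
    simp only at hv
    rw [dg_compl] at hv
    have h1 := (hF.mkd X hX Y hY (fun h => hne (by rw [h])) v hs' (by omega)).compl
    have e1 : (fun x => ad Xᶜ v x - ad Yᶜ v x) = fun x => -(ad X v x - ad Y v x) := by
      funext x
      rw [ad_compl, ad_compl]; ring
    have h2 := h1.eig v
    rw [h1.zero, mul_zero, zero_add, ind_true rfl, mul_one] at h2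
    have e2 : ∑ y, ad Xᶜ v y * (ad Xᶜ v y - ad Yᶜ v y)
        = ∑ y, ad X v y * (ad X v y - ad Y v y) := by
      rw [← h2]
      exact Finset.sum_congr rfl (fun y _ => by rw [ad_compl X v y, ad_compl Y v y]; ring)
    simp only
    rw [e1, e2]
    exact h1
  · rintro _ ⟨X, hX, rfl⟩ v
    obtain ⟨Y, hY, hne, hs⟩ := hF.part X hX v
    exact ⟨Yᶜ, ⟨Y, hY, rfl⟩, fun h => hne (compl_injective h), hs.compl⟩
  · rintro _ ⟨X, hX, rfl⟩ _ ⟨Y, hY, rfl⟩
    simp only
    rw [tot_compl, tot_compl, hF.tots X hX Y hY]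

theorem no_three_run {F : Set (SimpleGraph V)} {d a : ℤ} (hF : FamR F d a)
    {X X1 X2 : SimpleGraph V} (hX : X ∈ F) (hX1 : X1 ∈ F) (hX2 : X2 ∈ F)
    (n1 : X1 ≠ X) (n2 : X2 ≠ X) (n12 : X2 ≠ X1) {w : V} (hw : dg X w = d ∨ dg X w = d + 1)
    (so1 : Same X X1 w) (so2 : Same X X2 w) : False := by
  rcases hw with h | h
  · refine no_three_R (famR_compl hF) ⟨X, hX, rfl⟩ ⟨X1, hX1, rfl⟩ ⟨X2, hX2, rfl⟩
      (fun h => n1 (compl_injective h)) (fun h => n2 (compl_injective h))
      (fun h => n12 (compl_injective h)) (w := w) ?_ so1.compl so2.compl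
    simp only
    rw [dg_compl, h]; ring
  · exact no_three_R hF hX hX1 hX2 n1 n2 n12 h so1 so2

/-- the family of a run of two consecutive degrees -/
theorem famR_of_famE {F : Set (SimpleGraph V)} {R : ℤ → Prop} {q : ℤ → ℤ → ℤ}
    (hF : FamE F R q) (gap : ∀ k, R (k - 1) → R k → ¬ R (k + 1)) {d : ℤ} (h1 : R d)
    (h2 : R (d + 1)) : FamR F d (q (d + 1) (d + 1) - q (d + 1) d + d) := by
  refine ⟨?_, hF.part, hF.tots⟩
  intro X hX Y hY hne v hs hv
  -- the only active level is `d + 1`
  have lv : ∀ l, (∃ y, lev X Y l y ≠ 0) → l = d + 1 := by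
    intro l hl
    have c1 := hF.stepA gap hX hY hs hl
    obtain ⟨-, -, -, r1, r2⟩ := hF.active hX hY hs hl
    have c2 : l ≠ d := by
      intro h
      rw [h] at r2
      exact gap d r2 h1 h2
    have c3 : l ≠ d + 2 := by
      intro h
      rw [h] at r1
      exact gap (d + 1) (by rw [add_sub_cancel_right]; exact h1) h2
        (by rw [show d + 1 + 1 = d + 2 by ring]; exact r1)
    omega
  have hD : ∀ x, ad X v x - ad Y v x = lev X Y (d + 1) x ∧
      (dg X x = dg Y x ∨ (dg X x = d + 1 ∧ dg Y x = d) ∨ (dg X x = d ∧ dg Y x = d + 1)) := by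
    intro x
    rw [← hF.dgx hX hY hs x]
    rcases hF.tri hX hY hs x with h | ⟨h, -⟩ | ⟨h, -⟩
    · refine ⟨?_, Or.inl h⟩
      unfold lev
      rw [h]; ring
    · have := lv (dg X x) ⟨x, by
        unfold lev; rw [ind_true (le_refl _), ind_false (by omega)]; norm_num⟩
      refine ⟨?_, Or.inr (Or.inl ⟨this, by omega⟩)⟩
      unfold lev
      rw [ind_true (by omega), ind_false (by omega)]
      omega
    · have := lv (dg X x + 1) ⟨x, by
        unfold lev; rw [ind_false (by omega), ind_true (by omega)]; norm_num⟩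
      refine ⟨?_, Or.inr (Or.inr ⟨by omega, by omega⟩)⟩
      unfold lev
      rw [ind_false (by omega), ind_true (by omega)]
      omega
  have hf : (fun x => ad X v x - ad Y v x) = lev X Y (d + 1) := funext (fun x => (hD x).1)
  have hS : ∑ y, ad X v y * (ad X v y - ad Y v y) = lvs X Y v (d + 1) := by
    unfold lvs
    exact Finset.sum_congr rfl (fun y _ => by rw [(hD y).1])
  rw [hf, hS]
  -- nonzero
  have hact : ∃ y, lev X Y (d + 1) y ≠ 0 := by
    by_contra hno
    push Not at hno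
    apply hne
    refine (graph_ext hs (fun y => ?_)).symm
    have := (hD y).1
    rw [hno y] at this
    omega
  obtain ⟨-, -, hpos, -, -⟩ := hF.active hX hY hs hact
  refine ⟨hF.lev_v hX hY hs _, hpos, ?_, ?_, hF.lev_sum hX hY _⟩
  · intro x
    rw [hF.act hX hY hs (d + 1) x]
    have e1 : q (d + 1) (dg X x) - q (d + 1) (dg Y x)
        = (q (d + 1) (d + 1) - q (d + 1) d) * lev X Y (d + 1) x := by
      rw [← (hD x).1, ← hF.dgx hX hY hs x]
      rcases (hD x).2 with h | ⟨h, h'⟩ | ⟨h, h'⟩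
      · rw [h]; ring
      · rw [h, h']; ring
      · rw [h, h']; ring
    have e2 : dg X x - dg Y x = lev X Y (d + 1) x := by
      rw [hF.dgx hX hY hs x]; exact (hD x).1
    rw [e1, e2]
    have e3 : ind (d + 1 ≤ dg X v) = dg X v - d := by
      rcases hv with h | h
      · rw [ind_false (by omega), h]; ring
      · rw [ind_true (by omega), h]; ring
    rw [e3]
    ring
  · intro x
    rcases hF.lev_cases hX hY hs (d + 1) x with e | ⟨e, e1, -, e2⟩ | ⟨e, e1, -, e2⟩
    · exact Or.inl e
    · exact Or.inr (Or.inl ⟨e, e1, e2⟩)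
    · exact Or.inr (Or.inr ⟨e, by omega, e2⟩)

/-- in a family without three consecutive degrees no card has three extensions -/
theorem no_three_E {F : Set (SimpleGraph V)} {R : ℤ → Prop} {q : ℤ → ℤ → ℤ}
    (hF : FamE F R q) (gap : ∀ k, R (k - 1) → R k → ¬ R (k + 1))
    {X X1 X2 : SimpleGraph V} (hX : X ∈ F) (hX1 : X1 ∈ F) (hX2 : X2 ∈ F)
    (n1 : X1 ≠ X) (n2 : X2 ≠ X) (n12 : X2 ≠ X1) {w : V}
    (so1 : Same X X1 w) (so2 : Same X X2 w) : False := by
  -- an active level
  have hex : ∃ l, ∃ y, lev X X1 l y ≠ 0 := by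
    by_contra hno
    push Not at hno
    apply n1
    refine (graph_ext so1 (fun y => ?_)).symm
    have h1 := hF.dgx hX hX1 so1 y
    rcases hF.tri hX hX1 so1 y with h | ⟨h, -⟩ | ⟨h, -⟩
    · omega
    · exfalso
      have := hno (dg X y) y
      unfold lev at this
      rw [ind_true (le_refl _), ind_false (by omega)] at this
      norm_num at this
    · exfalso
      have := hno (dg X y + 1) y
      unfold lev at this
      rw [ind_false (by omega), ind_true (by omega)] at this
      norm_num at this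
  obtain ⟨l, hl⟩ := hex
  have c1 := hF.stepA gap hX hX1 so1 hl
  obtain ⟨-, -, -, r1, r2⟩ := hF.active hX hX1 so1 hl
  exact no_three_run (famR_of_famE hF gap (d := l - 1) r2 (by rw [sub_add_cancel]; exact r1))
    hX hX1 hX2 n1 n2 n12 (by omega) so1 so2

end Pool.Agent.Helper373_CM
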