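import Pool.Agent.Helper373_CM.Tri

set_option autoImplicit false
set_option linter.unusedSectionVars false
set_option linter.unnecessarySeqFocus false

namespace Pool.Agent.Helper373_CM

open Finset

variable {V : Type*} [Fintype V] [DecidableEq V]

theorem sum_ind_mul (G : SimpleGraph V) (i c : ℤ) (f : V → ℤ) (h : ∀ x, dg G x = i → f x = c) :
    ∑ x, ind (dg G x = i) * f x = cls G i * c := by
  unfold cls
  rw [Finset.sum_mul]
  refine Finset.sum_congr rfl (fun x _ => ?_)
  by_cases hx : dg G x = i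
  · rw [h x hx]
  · rw [ind_false hx]; ring

theorem cls_pos (G : SimpleGraph V) (a : V) : 0 < cls G (dg G a) := by
  unfold cls
  have h1 : ind (dg G a = dg G a) ≤ ∑ y, ind (dg G y = dg G a) :=
    Finset.single_le_sum (f := fun y => ind (dg G y = dg G a)) (fun y _ => ind_nonneg _) (mem_univ a)
  rw [ind_true rfl] at h1
  omega

theorem alg_step (x0 y0 xk yk xw yw q0k qk0 qkw qwk φk φw ta tb tc : ℤ)
    (E1 : x0 * q0k = xk * qk0) (E1' : y0 * (q0k - φk) = yk * qk0)
    (E2 : xk * qkw = xw * qwk) (E2' : yk * (qkw - φw) = yw * (qwk - φk))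
    (T1 : xw * tc = x0 * ta) (T2 : xk * tb = x0 * ta)
    (T1' : yw * tc = y0 * (ta - q0k * qkw + (q0k - φk) * (qkw - φw)))
    (T2' : yk * (tb - qk0 * φw) = y0 * (ta - q0k * qkw + (q0k - φk) * (qkw - φw)))
    (hx0 : 0 < x0) (hy0 : 0 < y0) (hxk : 0 < xk) (hxw : 0 < xw) (hyw : 0 < yw) : φk = 0 := by
  have i' : x0 * ta * (yw * xk - yk * xw) + xw * xk * yk * qk0 * φw = 0 := by
    linear_combination (xw * xk) * T1' - (xw * xk) * T2' - (yw * xk) * T1 + (yk * xw) * T2
  have ii' : ta * (yk * x0 - y0 * xk) + xk * y0 * φk * qkw = 0 := by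
    linear_combination xk * T2' - yk * T2 + (xk * φw) * (-1 : ℤ) * E1'
  have g1 : (yk * x0 - y0 * xk) * qk0 = -(x0 * y0 * φk) := by
    linear_combination (-x0) * E1' + y0 * E1
  have g2 : (yw * xk - yk * xw) * qkw = -(xw * yk * φw) + xw * yw * φk := by
    linear_combination yw * E2 - xw * E2'
  have fin : x0 * xk * y0 * xw * yw * (φk * φk) = 0 := by
    linear_combination (-(yk * x0 - y0 * xk)) * i' + (x0 * (yw * xk - yk * xw)) * ii'
      + (xw * xk * yk * φw) * g1 - (x0 * xk * y0 * φk) * g2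
  have hp : 0 < x0 * xk * y0 * xw * yw := by positivity
  have : φk * φk = 0 := by
    rcases mul_eq_zero.mp fin with h | h
    · exact absurd h hp.ne'
    · exact h
  exact mul_self_eq_zero.mp this

section main

variable {G H : SimpleGraph V}

/-- Cards with equally many edges are isomorphic. -/
def Dist (G : SimpleGraph V) : Prop := ∀ u v, dg G u = dg G v → CI G G u v

theorem sg_top (G : SimpleGraph V) (Δ : ℤ) (h : ∀ x, dg G x ≤ Δ) : sg G (Δ + 1) = 0 := by
  unfold sg
  refine Finset.sum_eq_zero (fun x _ => ?_)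
  have := h x
  exact max_eq_right (by omega)

theorem sg_bot (G : SimpleGraph V) (δ : ℤ) (h : ∀ x, δ ≤ dg G x) :
    sg G (δ + 1) = tot G - (Fintype.card V : ℤ) * δ := by
  unfold sg tot
  have : ∀ x, max (dg G x - (δ + 1) + 1) 0 = dg G x - δ := by
    intro x
    have := h x
    rw [max_eq_left (by omega)]; ring
  rw [Finset.sum_congr rfl (fun x _ => this x), Finset.sum_sub_distrib]
  simp

theorem clg_bot (G : SimpleGraph V) (k : ℤ) (h : ∀ x, k ≤ dg G x) :
    clg G k = (Fintype.card V : ℤ) := by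
  unfold clg
  rw [Finset.sum_congr rfl (fun x _ => ind_true (h x))]
  simp

theorem step (hdist : Dist G) (hdistH : Dist H)
    (δ κ Δ : ℤ) (hGδ : ∀ x, δ ≤ dg G x) (hHδ : ∀ x, δ ≤ dg H x)
    (hGΔ : ∀ x, dg G x ≤ Δ) (hHΔ : ∀ x, dg H x ≤ Δ) (h1 : δ < κ) (h2 : κ < Δ)
    {a b c a' b' c' : V} (ha : CI G H a a') (hb : CI G H b b') (hc : CI G H c c')
    (da : dg G a = δ) (da' : dg H a' = δ) (db : dg G b = κ) (db' : dg H b' = κ)
    (dc : dg G c = Δ) (dc' : dg H c' = Δ) (hs : sg G κ = sg H κ) :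
    clg G κ = clg H κ := by
  -- constancy of `nb` and `nbg` on classes
  have cG : ∀ (k i : ℤ) (r : V), dg G r = i → ∀ x, dg G x = i → nb G k x = nb G k r := by
    intro k i r hr x hx
    have := nb_shift (hdist x r (hx.trans hr.symm)) (hx.trans hr.symm) k
    linarith
  have cH : ∀ (k i : ℤ) (r : V), dg H r = i → ∀ x, dg H x = i → nb H k x = nb H k r := by
    intro k i r hr x hx
    have := nb_shift (hdistH x r (hx.trans hr.symm)) (hx.trans hr.symm) k
    linarith
  have cgG : ∀ (k i : ℤ) (r : V), dg G r = i → ∀ x, dg G x = i → nbg G k x = nbg G k r := by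
    intro k i r hr x hx
    have := nbg_shift (hdist x r (hx.trans hr.symm)) (hx.trans hr.symm) k
    linarith
  have cgH : ∀ (k i : ℤ) (r : V), dg H r = i → ∀ x, dg H x = i → nbg H k x = nbg H k r := by
    intro k i r hr x hx
    have := nbg_shift (hdistH x r (hx.trans hr.symm)) (hx.trans hr.symm) k
    linarith
  have eda : dg G a = dg H a' := da.trans da'.symm
  have edb : dg G b = dg H b' := db.trans db'.symm
  have edc : dg G c = dg H c' := dc.trans dc'.symm
  -- shifts
  have φ0 : clg G δ = clg H δ := by rw [clg_bot G δ hGδ, clg_bot H δ hHδ]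
  have s_a_k := nb_shift ha eda κ
  have s_a_w := nb_shift ha eda Δ
  have s_b_0 := nb_shift hb edb δ
  have s_b_w := nb_shift hb edb Δ
  have s_c_0 := nb_shift hc edc δ
  have s_c_k := nb_shift hc edc κ
  have g_a := nbg_shift ha eda κ
  have g_aw := nbg_shift ha eda Δ
  have g_c := nbg_shift hc edc κ
  have topG := sg_top G Δ hGΔ
  have topH := sg_top H Δ hHΔ
  have sΔG := sg_sub G Δ
  have sΔH := sg_sub H Δ
  -- class of maximum degree
  have clsΔG : cls G Δ = clg G Δ := by
    rw [cls_eq]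
    have : clg G (Δ + 1) = 0 := by
      unfold clg
      exact Finset.sum_eq_zero (fun x _ => ind_false (by have := hGΔ x; omega))
    rw [this, sub_zero]
  have clsΔH : cls H Δ = clg H Δ := by
    rw [cls_eq]
    have : clg H (Δ + 1) = 0 := by
      unfold clg
      exact Finset.sum_eq_zero (fun x _ => ind_false (by have := hHΔ x; omega))
    rw [this, sub_zero]
  -- edges between classes
  have E1 : cls G δ * nb G κ a = cls G κ * nb G δ b := by
    rw [← sum_ind_mul G δ (nb G κ a) (nb G κ) (cG κ δ a da),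
      ← sum_ind_mul G κ (nb G δ b) (nb G δ) (cG δ κ b db)]
    exact cross_count G δ κ
  have E1' : cls H δ * nb H κ a' = cls H κ * nb H δ b' := by
    rw [← sum_ind_mul H δ (nb H κ a') (nb H κ) (cH κ δ a' da'),
      ← sum_ind_mul H κ (nb H δ b') (nb H δ) (cH δ κ b' db')]
    exact cross_count H δ κ
  have E2 : cls G κ * nb G Δ b = cls G Δ * nb G κ c := by
    rw [← sum_ind_mul G κ (nb G Δ b) (nb G Δ) (cG Δ κ b db),
      ← sum_ind_mul G Δ (nb G κ c) (nb G κ) (cG κ Δ c dc)]
    exact cross_count G κ Δ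
  have E2' : cls H κ * nb H Δ b' = cls H Δ * nb H κ c' := by
    rw [← sum_ind_mul H κ (nb H Δ b') (nb H Δ) (cH Δ κ b' db'),
      ← sum_ind_mul H Δ (nb H κ c') (nb H κ) (cH κ Δ c' dc')]
    exact cross_count H κ Δ
  -- triangles: constancy
  have tcG : ∀ x, dg G x = Δ → tri G δ κ x = tri G δ κ c := by
    intro x hx
    have e := invA (hdist x c (hx.trans dc.symm)) (hx.trans dc.symm) δ κ hGδ hGδ
      (nbg G κ a) (nbg G κ a) (cgG κ δ a da) (cgG κ δ a da)
    rw [cG δ Δ c dc x hx] at e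
    linarith
  have tcH : ∀ x, dg H x = Δ → tri H δ κ x = tri H δ κ c' := by
    intro x hx
    have e := invA (hdistH x c' (hx.trans dc'.symm)) (hx.trans dc'.symm) δ κ hHδ hHδ
      (nbg H κ a') (nbg H κ a') (cgH κ δ a' da') (cgH κ δ a' da')
    rw [cH δ Δ c' dc' x hx] at e
    linarith
  have tbG : ∀ x, dg G x = κ → tri G δ Δ x = tri G δ Δ b := by
    intro x hx
    have e := invA (hdist x b (hx.trans db.symm)) (hx.trans db.symm) δ Δ hGδ hGδ
      (nbg G Δ a) (nbg G Δ a) (cgG Δ δ a da) (cgG Δ δ a da)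
    rw [cG δ κ b db x hx] at e
    linarith
  have tbH : ∀ x, dg H x = κ → tri H δ Δ x = tri H δ Δ b' := by
    intro x hx
    have e := invA (hdistH x b' (hx.trans db'.symm)) (hx.trans db'.symm) δ Δ hHδ hHδ
      (nbg H Δ a') (nbg H Δ a') (cgH Δ δ a' da') (cgH Δ δ a' da')
    rw [cH δ κ b' db' x hx] at e
    linarith
  have taG : ∀ x, dg G x = δ → tri G Δ κ x = tri G Δ κ a := by
    intro x hx
    have e := invB (hdist x a (hx.trans da.symm)) (hx.trans da.symm) Δ κ hGΔ hGΔ
      (by omega) (nbg G κ c) (nbg G κ c) (nb G Δ b) (nb G Δ b)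
      (cgG κ Δ c dc) (cgG κ Δ c dc) (cG Δ κ b db) (cG Δ κ b db)
    rw [cG Δ δ a da x hx, cG κ δ a da x hx] at e
    linarith
  have taH : ∀ x, dg H x = δ → tri H Δ κ x = tri H Δ κ a' := by
    intro x hx
    have e := invB (hdistH x a' (hx.trans da'.symm)) (hx.trans da'.symm) Δ κ hHΔ hHΔ
      (by omega) (nbg H κ c') (nbg H κ c') (nb H Δ b') (nb H Δ b')
      (cgH κ Δ c' dc') (cgH κ Δ c' dc') (cH Δ κ b' db') (cH Δ κ b' db')
    rw [cH Δ δ a' da' x hx, cH κ δ a' da' x hx] at e
    linarith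
  -- triangles: double counting
  have T1 : cls G Δ * tri G δ κ c = cls G δ * tri G Δ κ a := by
    rw [← sum_ind_mul G Δ (tri G δ κ c) (tri G δ κ) tcG,
      ← sum_ind_mul G δ (tri G Δ κ a) (tri G Δ κ) taG]
    exact tri_rot G Δ δ κ
  have T1' : cls H Δ * tri H δ κ c' = cls H δ * tri H Δ κ a' := by
    rw [← sum_ind_mul H Δ (tri H δ κ c') (tri H δ κ) tcH,
      ← sum_ind_mul H δ (tri H Δ κ a') (tri H Δ κ) taH]
    exact tri_rot H Δ δ κ
  have T2 : cls G κ * tri G δ Δ b = cls G δ * tri G Δ κ a := by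
    rw [← sum_ind_mul G κ (tri G δ Δ b) (tri G δ Δ) tbG,
      ← sum_ind_mul G δ (tri G Δ κ a) (tri G Δ κ) taG, tri_rot G κ δ Δ]
    exact Finset.sum_congr rfl (fun x _ => by rw [tri_swap])
  have T2' : cls H κ * tri H δ Δ b' = cls H δ * tri H Δ κ a' := by
    rw [← sum_ind_mul H κ (tri H δ Δ b') (tri H δ Δ) tbH,
      ← sum_ind_mul H δ (tri H Δ κ a') (tri H Δ κ) taH, tri_rot H κ δ Δ]
    exact Finset.sum_congr rfl (fun x _ => by rw [tri_swap])
  -- comparison between `G` and `H`
  have A := invA hc edc δ κ hGδ hHδ (nbg G κ a) (nbg H κ a') (cgG κ δ a da) (cgH κ δ a' da')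
  have C := invA hb edb δ Δ hGδ hHδ (nbg G Δ a) (nbg H Δ a') (cgG Δ δ a da) (cgH Δ δ a' da')
  have B := invB ha eda Δ κ hGΔ hHΔ (by omega) (nbg G κ c) (nbg H κ c') (nb G Δ b) (nb H Δ b')
    (cgG κ Δ c dc) (cgH κ Δ c' dc') (cG Δ κ b db) (cH Δ κ b' db')
  have hQ : nbg G κ a = nbg H κ a' := by linarith
  have hR : nbg G κ c = nbg H κ c' := by linarith
  have hq0 : nb G δ c = nb H δ c' := by linarith
  have hq0' : nb G δ b = nb H δ b' := by linarith
  have hQ2 : nbg G Δ a - nbg H Δ a' = clg G Δ - clg H Δ := by linarith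
  have A' : tri G δ κ c = tri H δ κ c' := by
    rw [hQ, hq0] at A; linarith
  have C' : tri H δ Δ b' = tri G δ Δ b - nb G δ b * (clg G Δ - clg H Δ) := by
    rw [← hq0'] at C
    linear_combination C - (nb G δ b) * hQ2
  have hclsw : cls G Δ - cls H Δ = clg G Δ - clg H Δ := by rw [clsΔG, clsΔH]
  have e1 : nb H κ a' = nb G κ a - (clg G κ - clg H κ) := by linarith
  have e2 : nb H Δ a' = nb G Δ a - (clg G Δ - clg H Δ) := by linarith
  have e3 : nb H Δ b' = nb G Δ b - (clg G Δ - clg H Δ) := by linarith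
  have e4 : nb H κ c' = nb G κ c - (clg G κ - clg H κ) := by linarith
  have B' : tri H Δ κ a' = tri G Δ κ a - nb G κ a * nb G Δ b
      + (nb G κ a - (clg G κ - clg H κ)) * (nb G Δ b - (clg G Δ - clg H Δ)) := by
    rw [← hR, e1, e2, e3] at B
    linear_combination -B + (nbg G κ c) * hclsw
  rw [← A', B'] at T1'
  rw [C', B'] at T2'
  rw [e1, ← hq0'] at E1'
  rw [e3, e4] at E2'
  have key := alg_step (cls G δ) (cls H δ) (cls G κ) (cls H κ) (cls G Δ) (cls H Δ)
    (nb G κ a) (nb G δ b) (nb G Δ b) (nb G κ c) (clg G κ - clg H κ) (clg G Δ - clg H Δ)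
    (tri G Δ κ a) (tri G δ Δ b) (tri G δ κ c) E1 E1' E2 E2' T1 T2 T1' T2'
    (da ▸ cls_pos G a) (da' ▸ cls_pos H a') (db ▸ cls_pos G b) (dc ▸ cls_pos G c)
    (dc' ▸ cls_pos H c')
  linarith

theorem clg_eq_of_dist [Nonempty V] (hGH : ∀ v, ∃ w, CI G H v w) (hHG : ∀ w, ∃ v, CI G H v w)
    (htot : tot G = tot H) (hdist : Dist G) (k : ℤ) : clg G k = clg H k := by
  have dd : ∀ v w, CI G H v w → dg G v = dg H w := by
    intro v w h
    have := tot_card h
    linarith
  have hdistH : Dist H := by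
    intro u v huv
    obtain ⟨u0, hu0⟩ := hHG u
    obtain ⟨v0, hv0⟩ := hHG v
    have h3 := hdist u0 v0 (by rw [dd _ _ hu0, dd _ _ hv0, huv])
    exact (hu0.symm.trans h3).trans hv0
  obtain ⟨a, -, ha⟩ := Finset.exists_min_image (univ : Finset V) (dg G) univ_nonempty
  obtain ⟨c, -, hc⟩ := Finset.exists_max_image (univ : Finset V) (dg G) univ_nonempty
  have hGδ : ∀ x, dg G a ≤ dg G x := fun x => ha x (mem_univ x)
  have hGΔ : ∀ x, dg G x ≤ dg G c := fun x => hc x (mem_univ x)
  have hHδ : ∀ x, dg G a ≤ dg H x := by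
    intro x
    obtain ⟨v, hv⟩ := hHG x
    rw [← dd _ _ hv]; exact hGδ v
  have hHΔ : ∀ x, dg H x ≤ dg G c := by
    intro x
    obtain ⟨v, hv⟩ := hHG x
    rw [← dd _ _ hv]; exact hGΔ v
  have stp : ∀ κ, dg G a < κ → sg G κ = sg H κ → clg G κ = clg H κ := by
    intro κ hκ hs
    rcases lt_trichotomy κ (dg G c) with h | h | h
    · by_cases hex : ∃ b, dg G b = κ
      · obtain ⟨b, hb⟩ := hex
        obtain ⟨a', ha'⟩ := hGH a
        obtain ⟨b', hb'⟩ := hGH b
        obtain ⟨c', hc'⟩ := hGH c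
        exact step hdist hdistH (dg G a) κ (dg G c) hGδ hHδ hGΔ hHΔ hκ h ha' hb' hc' rfl
          (dd _ _ ha').symm hb ((dd _ _ hb').symm.trans hb) rfl (dd _ _ hc').symm hs
      · have hexH : ∀ b, dg H b ≠ κ := by
          intro b hb
          obtain ⟨v, hv⟩ := hHG b
          exact hex ⟨v, (dd _ _ hv).trans hb⟩
        obtain ⟨a', ha'⟩ := hGH a
        have h0 := nb_shift ha' (dd _ _ ha') κ
        have z1 : nb G κ a = 0 := by
          unfold nb
          exact Finset.sum_eq_zero (fun y _ => by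
            rw [ind_false (fun h => hex ⟨y, h⟩)]; ring)
        have z2 : nb H κ a' = 0 := by
          unfold nb
          exact Finset.sum_eq_zero (fun y _ => by
            rw [ind_false (hexH y)]; ring)
        linarith
    · have h1 := sg_sub G κ
      have h2 := sg_sub H κ
      have h3 := sg_top G κ (fun x => h ▸ hGΔ x)
      have h4 := sg_top H κ (fun x => h ▸ hHΔ x)
      linarith
    · have z1 : clg G κ = 0 := by
        unfold clg
        exact Finset.sum_eq_zero (fun y _ => ind_false (by have := hGΔ y; omega))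
      have z2 : clg H κ = 0 := by
        unfold clg
        exact Finset.sum_eq_zero (fun y _ => ind_false (by have := hHΔ y; omega))
      rw [z1, z2]
  have hsg : ∀ i : ℕ, sg G (dg G a + 1 + i) = sg H (dg G a + 1 + i) := by
    intro i
    induction i with
    | zero =>
      have h1 := sg_bot G (dg G a) hGδ
      have h2 := sg_bot H (dg G a) hHδ
      simp only [Nat.cast_zero, add_zero]
      rw [h1, h2, htot]
    | succ i ih =>
      have h0 := stp (dg G a + 1 + i) (by omega) ih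
      have h1 := sg_sub G (dg G a + 1 + i)
      have h2 := sg_sub H (dg G a + 1 + i)
      have h3 : dg G a + 1 + ((i + 1 : ℕ) : ℤ) = dg G a + 1 + i + 1 := by push_cast; ring
      rw [h3]
      linarith
  by_cases hk : k ≤ dg G a
  · rw [clg_bot G k (fun x => hk.trans (hGδ x)), clg_bot H k (fun x => hk.trans (hHδ x))]
  · obtain ⟨i, hi⟩ : ∃ i : ℕ, k = dg G a + 1 + i := ⟨(k - dg G a - 1).toNat, by omega⟩
    rw [hi]
    exact stp _ (by omega) (hsg i)

end main

end Pool.Agent.Helper373_CM
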