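import Pool.Agent.Helper373_CM.Shift

set_option autoImplicit false
set_option linter.unusedSectionVars false
set_option linter.unnecessarySeqFocus false

namespace Pool.Agent.Helper373_CM

open Finset

variable {V : Type*} [Fintype V] [DecidableEq V]

theorem exists_other (h : 2 < Fintype.card V) (a b : V) : ∃ t, t ≠ a ∧ t ≠ b := by
  have h1 : (({a, b} : Finset V)).card < (univ : Finset V).card := by
    have h2 : (({a, b} : Finset V)).card ≤ 2 := Finset.card_le_two
    have h3 : (univ : Finset V).card = Fintype.card V := rfl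
    omega
  obtain ⟨t, -, ht⟩ := Finset.exists_mem_notMem_of_card_lt_card h1
  simp only [mem_insert, mem_singleton, not_or] at ht
  exact ⟨t, ht⟩

theorem tot_not_lt {G H : SimpleGraph V} (hn : 4 ≤ Fintype.card V)
    (hGH : ∀ v, ∃ w, CI G H v w) (hHG : ∀ w, ∃ v, CI G H v w) : ¬ tot G < tot H := by
  intro hlt
  have hne : Nonempty V := by
    rw [← Fintype.card_pos_iff]; omega
  -- every partner has larger degree
  have hs : ∀ v w, CI G H v w → 2 * dg H w - 2 * dg G v = tot H - tot G := by
    intro v w h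
    have := tot_card h
    linarith
  obtain ⟨v0⟩ := id hne
  obtain ⟨w0, h0⟩ := hGH v0
  obtain ⟨s, hsdef⟩ : ∃ s, s = dg H w0 - dg G v0 := ⟨_, rfl⟩
  have hs0 : 0 < s := by have := hs _ _ h0; omega
  have hs' : ∀ v w, CI G H v w → dg H w = dg G v + s := by
    intro v w h
    have := hs _ _ h0
    have := hs _ _ h
    omega
  obtain ⟨u, -, hu⟩ := Finset.exists_max_image (univ : Finset V) (dg H) univ_nonempty
  obtain ⟨z, -, hz⟩ := Finset.exists_min_image (univ : Finset V) (dg G) univ_nonempty
  have hu' : ∀ x, dg G x + s ≤ dg H u := by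
    intro x
    obtain ⟨w, hw⟩ := hGH x
    have := hs' _ _ hw
    have := hu w (mem_univ w)
    omega
  have hz' : ∀ y, dg G z + s ≤ dg H y := by
    intro y
    obtain ⟨v, hv⟩ := hHG y
    have := hs' _ _ hv
    have := hz v (mem_univ v)
    omega
  have hdom : ∀ w, w ≠ u → H.Adj u w ∧ s = 1 := by
    intro w hw
    obtain ⟨v, σ, hσv, hσ⟩ := hHG w
    have hx : σ.symm u ≠ v := by
      intro h
      apply hw
      rw [← hσv, ← h, Equiv.apply_symm_apply]
    have h1 := dg_card hσv hσ hx
    rw [Equiv.apply_symm_apply] at h1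
    have h2 := hu' (σ.symm u)
    have h3 : ad G (σ.symm u) v ≥ 0 := ind_nonneg _
    have h4 : ad H u w ≤ 1 := ind_le_one _
    have h5 : ad H u w = 1 := by omega
    exact ⟨ind_eq_one.mp h5, by omega⟩
  have hiso : ∀ v, v ≠ z → ¬ G.Adj z v := by
    intro v hv
    obtain ⟨w, σ, hσv, hσ⟩ := hGH v
    have h1 := dg_card hσv hσ (x := z) (Ne.symm hv)
    have h2 := hz' (σ z)
    have h3 : ad G z v ≥ 0 := ind_nonneg _
    have h4 : ad H (σ z) w ≤ 1 := ind_le_one _
    have h5 : ad G z v = 0 := by omega
    exact ind_eq_zero.mp h5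
  have hpart : ∀ v w, CI G H v w → v ≠ z → w ≠ u → False := by
    intro v w hvw hv hw
    obtain ⟨σ, hσv, hσ⟩ := hvw
    have hyw : σ z ≠ w := by
      intro h
      exact hv (σ.injective (hσv.trans h.symm))
    by_cases hy : σ z = u
    · obtain ⟨t, ht1, ht2⟩ := exists_other (by omega) u w
      have hx : σ.symm t ≠ v := by
        intro h
        apply ht2
        rw [← hσv, ← h, Equiv.apply_symm_apply]
      have h1 := hσ z (σ.symm t) (Ne.symm hv) hx
      rw [Equiv.apply_symm_apply, hy] at h1
      have h2 := h1.mpr (hdom t ht1).1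
      exact hiso _ (fun h => by
        rw [h] at h2
        exact G.loopless.irrefl z h2) h2
    · have hx : σ.symm u ≠ v := by
        intro h
        apply hw
        rw [← hσv, ← h, Equiv.apply_symm_apply]
      have h1 := hσ z (σ.symm u) (Ne.symm hv) hx
      rw [Equiv.apply_symm_apply] at h1
      have h2 := h1.mpr (hdom _ hy).1.symm
      exact hiso _ (fun h => by
        rw [h] at h2
        exact G.loopless.irrefl z h2) h2
  obtain ⟨w1, hw1, -⟩ := exists_other (by omega : 2 < Fintype.card V) u u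
  obtain ⟨y1, hy1, hy2⟩ := exists_other (by omega : 2 < Fintype.card V) u w1
  have hs1 : s = 1 := (hdom w1 hw1).2
  have dz : dg G z = 0 := by
    unfold dg
    refine Finset.sum_eq_zero (fun y _ => ?_)
    by_cases h : y = z
    · rw [h]; exact ad_self G z
    · exact ind_false (hiso y h)
  have dH : ∀ w, w ≠ u → dg H w = 1 := by
    intro w hw
    obtain ⟨v, hv⟩ := hHG w
    have hvz : v = z := by
      by_contra h
      exact hpart v w hv h hw
    have := hs' _ _ hv
    rw [hvz] at this
    omega
  have du : dg H u = (Fintype.card V : ℤ) - 1 := by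
    have h1 : ∀ y ∈ univ.erase u, ad H u y = 1 :=
      fun y hy => ind_true (hdom y (Finset.ne_of_mem_erase hy)).1
    have h2 : dg H u = ∑ y ∈ univ.erase u, ad H u y := by
      rw [sum_erase_eq, ad_self, sub_zero]; rfl
    rw [h2, Finset.sum_congr rfl h1, Finset.sum_const, Finset.card_erase_of_mem (mem_univ u),
      Finset.card_univ]
    have : 1 ≤ Fintype.card V := by omega
    simp [Nat.cast_sub this]
  have dG : ∀ v, v ≠ z → dg G v = (Fintype.card V : ℤ) - 2 := by
    intro v hv
    obtain ⟨w, hw⟩ := hGH v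
    have hwu : w = u := by
      by_contra h
      exact hpart v w hw hv h
    have := hs' _ _ hw
    rw [hwu] at this
    omega
  obtain ⟨v, hv⟩ := hHG w1
  have hvz : v = z := by
    by_contra h
    exact hpart v w1 hv h hw1
  rw [hvz] at hv
  obtain ⟨σ, hσv, hσ⟩ := hv
  have hx : σ.symm y1 ≠ z := by
    intro h
    apply hy2
    rw [← hσv, ← h, Equiv.apply_symm_apply]
  have h1 := dg_card hσv hσ hx
  rw [Equiv.apply_symm_apply, dG _ hx, dH y1 hy1] at h1
  have h2 : ad G (σ.symm y1) z = 0 := by
    rw [ad_comm]; exact ind_false (hiso _ hx)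
  have h3 : 0 ≤ ad H y1 w1 := ind_nonneg _
  have h4 : (4 : ℤ) ≤ (Fintype.card V : ℤ) := by exact_mod_cast hn
  omega

theorem tot_eq {G H : SimpleGraph V} (hn : 4 ≤ Fintype.card V)
    (hGH : ∀ v, ∃ w, CI G H v w) (hHG : ∀ w, ∃ v, CI G H v w) : tot G = tot H := by
  have h1 := tot_not_lt hn hGH hHG
  have h2 := tot_not_lt (G := H) (H := G) hn
    (fun v => by obtain ⟨w, hw⟩ := hHG v; exact ⟨w, hw.symm⟩)
    (fun v => by obtain ⟨w, hw⟩ := hGH v; exact ⟨w, hw.symm⟩)
  omega

theorem dg_eq_of_ci {G H : SimpleGraph V} (htot : tot G = tot H) {v w : V} (h : CI G H v w) :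
    dg G v = dg H w := by
  have := tot_card h
  omega

end Pool.Agent.Helper373_CM
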