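import Pool.Agent.Helper373_CM.Bideg
import Pool.Agent.Helper373_CM.DE
import Pool.Agent.Helper373_CM.Edges

set_option autoImplicit false
set_option linter.unusedSectionVars false
set_option linter.unnecessarySeqFocus false
set_option linter.unusedVariables false

namespace Pool.Agent.Helper373_CM

open Finset

variable {V : Type*} [Fintype V] [DecidableEq V]

/-! ### complements -/

theorem ad_compl (X : SimpleGraph V) (x y : V) : ad Xᶜ x y = 1 - ad X x y - ind (x = y) := by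
  by_cases h : x = y
  · rw [h, ad_self, ad_self, ind_true rfl]; ring
  · rw [ind_false h]
    by_cases h' : X.Adj x y
    · rw [show ad X x y = 1 from ind_true h',
        show ad Xᶜ x y = 0 from ind_false (by rw [SimpleGraph.compl_adj]; tauto)]; ring
    · rw [show ad X x y = 0 from ind_false h',
        show ad Xᶜ x y = 1 from ind_true (by rw [SimpleGraph.compl_adj]; tauto)]; ring

theorem sum_ind_eq (x : V) : ∑ y, ind (x = y) = 1 := by
  have := sum_mul_ind_eq (fun _ => (1 : ℤ)) x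
  simp only [one_mul] at this
  rw [← this]
  exact Finset.sum_congr rfl (fun y _ => ind_congr eq_comm)

theorem dg_compl (X : SimpleGraph V) (x : V) : dg Xᶜ x = (Fintype.card V : ℤ) - 1 - dg X x := by
  unfold dg
  simp only [ad_compl]
  rw [Finset.sum_sub_distrib, Finset.sum_sub_distrib, sum_ind_eq]
  simp
  ring

theorem tot_compl (X : SimpleGraph V) :
    tot Xᶜ = (Fintype.card V : ℤ) * ((Fintype.card V : ℤ) - 1) - tot X := by
  unfold tot
  simp only [dg_compl]
  rw [Finset.sum_sub_distrib]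
  simp
  ring

theorem Same.compl {X Y : SimpleGraph V} {v : V} (h : Same X Y v) : Same Xᶜ Yᶜ v := by
  intro x y hx hy
  rw [SimpleGraph.compl_adj, SimpleGraph.compl_adj, h x y hx hy]

theorem fam_compl {F : Set (SimpleGraph V)} {d a c : ℤ} (hF : Fam F d a c) {X0 : SimpleGraph V}
    (h0 : X0 ∈ F) :
    Fam ((fun X => Xᶜ) '' F) ((Fintype.card V : ℤ) - 2 - d) ((Fintype.card V : ℤ) - 2 - a)
      ((Fintype.card V : ℤ) * ((Fintype.card V : ℤ) - 1) - tot X0 - ((Fintype.card V : ℤ) - 1) + c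
        + (a - (Fintype.card V : ℤ) + 2) * ((Fintype.card V : ℤ) - 1)) := by
  refine ⟨?_, ?_, ?_, ?_⟩
  · rintro _ ⟨X, hX, rfl⟩ x
    simp only
    rw [dg_compl]
    rcases hF.deg X hX x with h | h <;> rw [h]
    · right; ring
    · left; ring
  · rintro _ ⟨X, hX, rfl⟩ x
    simp only
    simp only [dg_compl, ad_compl]
    have e1 : ∑ y, (1 - ad X x y - ind (x = y)) * ((Fintype.card V : ℤ) - 1 - dg X y)
        = ∑ y, ((Fintype.card V : ℤ) - 1 - dg X y)
          - ((Fintype.card V : ℤ) - 1) * ∑ y, ad X x y + ∑ y, ad X x y * dg X y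
          - ∑ y, ((Fintype.card V : ℤ) - 1 - dg X y) * ind (y = x) := by
      rw [Finset.mul_sum, ← Finset.sum_sub_distrib, ← Finset.sum_add_distrib,
        ← Finset.sum_sub_distrib]
      refine Finset.sum_congr rfl (fun y _ => ?_)
      rw [ind_congr (eq_comm : x = y ↔ y = x)]
      ring
    rw [e1, hF.walk X hX x, sum_mul_ind_eq, Finset.sum_sub_distrib]
    have e2 : ∑ y, dg X y = tot X0 := hF.tots X hX X0 h0
    have e3 : ∑ y, ad X x y = dg X x := rfl
    rw [e2, e3]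
    simp
    ring
  · rintro _ ⟨X, hX, rfl⟩ v
    obtain ⟨Y, hY, hne, hs⟩ := hF.part X hX v
    exact ⟨Yᶜ, ⟨Y, hY, rfl⟩, fun h => hne (compl_injective h), hs.compl⟩
  · rintro _ ⟨X, hX, rfl⟩ _ ⟨Y, hY, rfl⟩
    simp only
    rw [tot_compl, tot_compl, hF.tots X hX Y hY]

theorem no_three {F : Set (SimpleGraph V)} {d a c : ℤ} (hF : Fam F d a c)
    {X X1 X2 : SimpleGraph V} (hX : X ∈ F) (hX1 : X1 ∈ F) (hX2 : X2 ∈ F)
    (n1 : X1 ≠ X) (n2 : X2 ≠ X) (n12 : X2 ≠ X1) {w : V}
    (so1 : Same X X1 w) (so2 : Same X X2 w) : False := by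
  rcases hF.deg X hX w with h | h
  · refine no_three_B (fam_compl hF hX) ⟨X, hX, rfl⟩ ⟨X1, hX1, rfl⟩ ⟨X2, hX2, rfl⟩
      (fun h => n1 (compl_injective h)) (fun h => n2 (compl_injective h))
      (fun h => n12 (compl_injective h)) (w := w) ?_ so1.compl so2.compl
    simp only
    rw [dg_compl, h]; ring
  · exact no_three_B hF hX hX1 hX2 n1 n2 n12 h so1 so2

/-! ### labelled copies -/

/-- `X` is a labelled copy of `G` -/
def IsoTo (X G : SimpleGraph V) : Prop :=
  ∃ σ : Equiv.Perm V, ∀ x y, X.Adj x y ↔ G.Adj (σ x) (σ y)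

theorem IsoTo.refl (G : SimpleGraph V) : IsoTo G G := ⟨Equiv.refl V, fun _ _ => Iff.rfl⟩

theorem IsoTo.symm {X G : SimpleGraph V} (h : IsoTo X G) : IsoTo G X := by
  obtain ⟨σ, hσ⟩ := h
  refine ⟨σ.symm, fun x y => ?_⟩
  rw [hσ, Equiv.apply_symm_apply, Equiv.apply_symm_apply]

theorem IsoTo.trans {X Y Z : SimpleGraph V} (h : IsoTo X Y) (h' : IsoTo Y Z) : IsoTo X Z := by
  obtain ⟨σ, hσ⟩ := h
  obtain ⟨τ, hτ⟩ := h'
  exact ⟨σ.trans τ, fun x y => by rw [hσ, hτ]; rfl⟩

theorem IsoTo.ci {X G : SimpleGraph V} (h : IsoTo X G) : ∃ σ : Equiv.Perm V,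
    ∀ v, CI X G v (σ v) := by
  obtain ⟨σ, hσ⟩ := h
  exact ⟨σ, fun v => ⟨σ, rfl, fun x y _ _ => hσ x y⟩⟩

/-- extend a common card: if `X - v ≅ H - w` there is a labelled copy of `H` agreeing with `X`
outside `v`. -/
theorem extend {X H : SimpleGraph V} {v w : V} (h : CI X H v w) :
    ∃ Y, IsoTo Y H ∧ Same X Y v := by
  obtain ⟨σ, -, hσ⟩ := h
  refine ⟨H.comap σ, ⟨σ, fun x y => Iff.rfl⟩, ?_⟩
  intro x y hx hy
  exact hσ x y hx hy

/-- number of vertices of `X` whose card is isomorphic to `G - v` -/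
noncomputable def cnt (X G : SimpleGraph V) (v : V) : ℤ := ∑ u, ind (CI X G u v)

theorem cnt_iso {X Y G : SimpleGraph V} (h : IsoTo X Y) (v : V) : cnt X G v = cnt Y G v := by
  obtain ⟨σ, hσ⟩ := h.ci
  unfold cnt
  rw [← Equiv.sum_comp σ (fun u => ind (CI Y G u v))]
  refine Finset.sum_congr rfl (fun u _ => ind_congr ?_)
  exact ⟨fun h => (hσ u).symm.trans h, fun h => (hσ u).trans h⟩

/-- **Counting principle.** If every card of a labelled copy of `G` extends uniquely to a labelled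
copy of `H` and conversely then the multiplicities agree. -/
theorem cnt_eq_of_unique [Nonempty V] {G H : SimpleGraph V}
    (hGH : ∀ v, ∃ w, CI G H v w) (hHG : ∀ w, ∃ v, CI G H v w)
    (huH : ∀ X Y Z v, IsoTo X G → IsoTo Y H → IsoTo Z H → Same X Y v → Same X Z v → Y = Z)
    (huG : ∀ X Y Z v, IsoTo X H → IsoTo Y G → IsoTo Z G → Same X Y v → Same X Z v → Y = Z)
    (v0 : V) : cnt G G v0 = cnt H G v0 := by
  classical
  let A : Finset (SimpleGraph V) := univ.filter (fun X => IsoTo X G)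
  let B : Finset (SimpleGraph V) := univ.filter (fun X => IsoTo X H)
  have hA : ∀ X, X ∈ A ↔ IsoTo X G := fun X => by simp [A]
  have hB : ∀ X, X ∈ B ↔ IsoTo X H := fun X => by simp [B]
  have exH : ∀ v X, IsoTo X G → ∃ Y, IsoTo Y H ∧ Same X Y v := by
    intro v X hX
    obtain ⟨σ, hσ⟩ := hX.ci
    obtain ⟨w, hw⟩ := hGH (σ v)
    exact extend ((hσ v).trans hw)
  have exG : ∀ v X, IsoTo X H → ∃ Y, IsoTo Y G ∧ Same X Y v := by
    intro v X hX
    obtain ⟨σ, hσ⟩ := hX.ci
    obtain ⟨w, hw⟩ := hHG (σ v)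
    exact extend ((hσ v).trans hw.symm)
  -- for each `v` a bijection
  have bij : ∀ (v : V) (f : SimpleGraph V → ℤ) (g : SimpleGraph V → ℤ),
      (∀ X Y, IsoTo X G → IsoTo Y H → Same X Y v → f X = g Y) →
      ∑ X ∈ A, f X = ∑ Y ∈ B, g Y := by
    intro v f g hfg
    choose! φ hφ1 hφ2 using exH v
    refine Finset.sum_bij (fun X _ => φ X) ?_ ?_ ?_ ?_
    · intro X hX
      exact (hB _).mpr (hφ1 X ((hA X).mp hX))
    · intro X hX Y hY hXY
      have hX' := (hA X).mp hX
      have hY' := (hA Y).mp hY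
      refine huG (φ X) X Y v (hφ1 X hX') hX' hY' (hφ2 X hX').symm ?_
      rw [hXY]
      exact (hφ2 Y hY').symm
    · intro Y hY
      have hY' := (hB Y).mp hY
      obtain ⟨X, hX, hs⟩ := exG v Y hY'
      exact ⟨X, (hA X).mpr hX, huH X (φ X) Y v hX (hφ1 X hX) hY' (hφ2 X hX) hs.symm⟩
    · intro X hX
      have hX' := (hA X).mp hX
      exact hfg X (φ X) hX' (hφ1 X hX') (hφ2 X hX')
  obtain ⟨v1⟩ := ‹Nonempty V›
  have hcard : (A.card : ℤ) = B.card := by
    have := bij v1 (fun _ => 1) (fun _ => 1) (fun _ _ _ _ _ => rfl)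
    simpa using this
  have hpos : 0 < (A.card : ℤ) := by
    have : 0 < A.card := Finset.card_pos.mpr ⟨G, (hA G).mpr (IsoTo.refl G)⟩
    exact_mod_cast this
  have h1 : ∑ X ∈ A, cnt X G v0 = ∑ Y ∈ B, cnt Y G v0 := by
    unfold cnt
    rw [Finset.sum_comm, Finset.sum_comm (s := B)]
    refine Finset.sum_congr rfl (fun u _ => ?_)
    refine bij u _ _ ?_
    intro X Y hX hY hs
    exact ind_congr ⟨fun h => hs.symm.ci.trans h, fun h => hs.ci.trans h⟩
  have h2 : ∑ X ∈ A, cnt X G v0 = (A.card : ℤ) * cnt G G v0 := by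
    rw [Finset.sum_congr rfl (fun X hX => cnt_iso ((hA X).mp hX) v0)]
    simp
  have h3 : ∑ Y ∈ B, cnt Y G v0 = (B.card : ℤ) * cnt H G v0 := by
    rw [Finset.sum_congr rfl (fun X hX => cnt_iso ((hB X).mp hX) v0)]
    simp
  rw [h2, h3, ← hcard] at h1
  exact mul_left_cancel₀ hpos.ne' h1

/-! ### graphs with two consecutive degrees -/

theorem dg_iso {X G : SimpleGraph V} {σ : Equiv.Perm V} (h : ∀ x y, X.Adj x y ↔ G.Adj (σ x) (σ y))
    (x : V) : dg X x = dg G (σ x) := by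
  unfold dg
  rw [← Equiv.sum_comp σ (fun y => ad G (σ x) y)]
  exact Finset.sum_congr rfl (fun y _ => ind_congr (h x y))

theorem tot_iso {X G : SimpleGraph V} (h : IsoTo X G) : tot X = tot G := by
  obtain ⟨σ, hσ⟩ := h
  unfold tot
  rw [← Equiv.sum_comp σ (fun y => dg G y)]
  exact Finset.sum_congr rfl (fun y _ => dg_iso hσ y)

theorem walk_iso {X G : SimpleGraph V} {σ : Equiv.Perm V}
    (h : ∀ x y, X.Adj x y ↔ G.Adj (σ x) (σ y)) (x : V) :
    ∑ y, ad X x y * dg X y = ∑ y, ad G (σ x) y * dg G y := by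
  rw [← Equiv.sum_comp σ (fun y => ad G (σ x) y * dg G y)]
  refine Finset.sum_congr rfl (fun y _ => ?_)
  rw [dg_iso h y, show ad X x y = ad G (σ x) (σ y) from ind_congr (h x y)]

theorem walk_eq (G : SimpleGraph V) (d : ℤ) (hd : ∀ x, dg G x = d ∨ dg G x = d + 1) (x : V) :
    ∑ y, ad G x y * dg G y = (d + 1) * dg G x - nb G d x := by
  have h1 : ∀ y, dg G y = (d + 1) - ind (dg G y = d) := by
    intro y
    rcases hd y with h | h
    · rw [ind_true h, h]; ring
    · rw [ind_false (by omega), h]; ring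
  have h2 : ∑ y, ad G x y * dg G y = ∑ y, (ad G x y * (d + 1) - ad G x y * ind (dg G y = d)) := by
    refine Finset.sum_congr rfl (fun y _ => ?_)
    rw [← mul_sub, ← h1 y]
  rw [h2, Finset.sum_sub_distrib, ← Finset.sum_mul]
  unfold nb dg
  ring

theorem cnt_eq_consecutive [Nonempty V] {G H : SimpleGraph V}
    (hGH : ∀ v, ∃ w, CI G H v w) (hHG : ∀ w, ∃ v, CI G H v w) (htot : tot G = tot H)
    (d : ℤ) (hd : ∀ x, dg G x = d ∨ dg G x = d + 1)
    (heq : ∀ u v, dg G u = dg G v → nb G d u = nb G d v) (v0 : V) :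
    cnt G G v0 = cnt H G v0 := by
  by_cases hiso : IsoTo G H
  · exact cnt_iso hiso v0
  have dd : ∀ v w, CI G H v w → dg G v = dg H w := fun v w h => dg_eq_of_ci htot h
  have hdH : ∀ x, dg H x = d ∨ dg H x = d + 1 := by
    intro x
    obtain ⟨v, hv⟩ := hHG x
    rw [← dd _ _ hv]; exact hd v
  -- affine relation
  obtain ⟨α, β, hα⟩ : ∃ α β : ℤ, ∀ x, nb G d x = α * dg G x + β := by
    by_cases h1 : ∃ x, dg G x = d
    · by_cases h2 : ∃ x, dg G x = d + 1
      · obtain ⟨x0, hx0⟩ := h1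
        obtain ⟨x1, hx1⟩ := h2
        refine ⟨nb G d x1 - nb G d x0, nb G d x0 - (nb G d x1 - nb G d x0) * d, fun x => ?_⟩
        rcases hd x with h | h
        · rw [heq x x0 (h.trans hx0.symm), h]; ring
        · rw [heq x x1 (h.trans hx1.symm), h]; ring
      · obtain ⟨x0, hx0⟩ := h1
        refine ⟨0, nb G d x0, fun x => ?_⟩
        rcases hd x with h | h
        · rw [heq x x0 (h.trans hx0.symm)]; ring
        · exact absurd ⟨x, h⟩ h2
    · obtain ⟨x0⟩ := ‹Nonempty V›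
      have hall : ∀ x, dg G x = d + 1 := by
        intro x
        rcases hd x with h | h
        · exact absurd ⟨x, h⟩ h1
        · exact h
      refine ⟨0, nb G d x0, fun x => ?_⟩
      rw [heq x x0 ((hall x).trans (hall x0).symm)]; ring
  have hαH : ∀ x, nb H d x = α * dg H x + β := by
    intro x
    obtain ⟨v, hv⟩ := hHG x
    have h1 := nb_shift hv (dd _ _ hv) d
    have h2 : clg G d = clg H d := by
      rw [clg_bot G d (fun y => by rcases hd y with h | h <;> omega),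
        clg_bot H d (fun y => by rcases hdH y with h | h <;> omega)]
    rw [← dd _ _ hv, ← hα v]
    linarith
  let F : Set (SimpleGraph V) := {X | IsoTo X G ∨ IsoTo X H}
  have hF : Fam F d (d + 1 - α) (-β) := by
    refine ⟨?_, ?_, ?_, ?_⟩
    · rintro X (⟨σ, hσ⟩ | ⟨σ, hσ⟩) x
      · rw [dg_iso hσ]; exact hd _
      · rw [dg_iso hσ]; exact hdH _
    · rintro X (⟨σ, hσ⟩ | ⟨σ, hσ⟩) x
      · rw [walk_iso hσ, walk_eq G d hd, hα, dg_iso hσ]; ring
      · rw [walk_iso hσ, walk_eq H d hdH, hαH, dg_iso hσ]; ring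
    · rintro X (hX | hX) v
      · obtain ⟨σ, hσ⟩ := hX.ci
        obtain ⟨w, hw⟩ := hGH (σ v)
        obtain ⟨Y, hY, hs⟩ := extend ((hσ v).trans hw)
        refine ⟨Y, Or.inr hY, ?_, hs⟩
        intro h
        exact hiso (hX.symm.trans (h ▸ hY))
      · obtain ⟨σ, hσ⟩ := hX.ci
        obtain ⟨w, hw⟩ := hHG (σ v)
        obtain ⟨Y, hY, hs⟩ := extend ((hσ v).trans hw.symm)
        refine ⟨Y, Or.inl hY, ?_, hs⟩
        intro h
        exact hiso (hY.symm.trans (h ▸ hX))
    · have key : ∀ X ∈ F, tot X = tot G := by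
        rintro X (hX | hX)
        · exact tot_iso hX
        · rw [tot_iso hX, htot]
      intro X hX Y hY
      rw [key X hX, key Y hY]
  refine cnt_eq_of_unique hGH hHG ?_ ?_ v0
  · intro X Y Z v hX hY hZ h1 h2
    by_contra hne
    refine no_three hF (X := X) (X1 := Y) (X2 := Z) (Or.inl hX) (Or.inr hY) (Or.inr hZ) ?_ ?_
      (Ne.symm hne) h1 h2
    · intro h; exact hiso (hX.symm.trans (h ▸ hY))
    · intro h; exact hiso (hX.symm.trans (h ▸ hZ))
  · intro X Y Z v hX hY hZ h1 h2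
    by_contra hne
    refine no_three hF (X := X) (X1 := Y) (X2 := Z) (Or.inr hX) (Or.inl hY) (Or.inl hZ) ?_ ?_
      (Ne.symm hne) h1 h2
    · intro h; exact hiso (hY.symm.trans (h ▸ hX))
    · intro h; exact hiso (hZ.symm.trans (h ▸ hX))

end Pool.Agent.Helper373_CM
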