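import Pool.Agent.Helper373_CM.OneRep

set_option autoImplicit false
set_option linter.unusedSectionVars false
set_option linter.unnecessarySeqFocus false
set_option linter.unusedVariables false

namespace Pool.Agent.Helper373_CM

open Finset

variable {V : Type*} [Fintype V] [DecidableEq V]

/-- number of ordered pairs of adjacent vertices with degrees at least `m` and at least `l` -/
noncomputable def Eg (G : SimpleGraph V) (m l : ℤ) : ℤ := ∑ x, ind (m ≤ dg G x) * nbg G l x

/-- number of ordered pairs of adjacent vertices with degrees `j` and `k` -/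
noncomputable def Ec (G : SimpleGraph V) (j k : ℤ) : ℤ := ∑ x, ind (dg G x = j) * nb G k x

theorem Ec_symm (G : SimpleGraph V) (j k : ℤ) : Ec G j k = Ec G k j := cross_count G j k

/-- the pairing under an isomorphism of cards -/
theorem pair_lvl {G H : SimpleGraph V} {σ : Equiv.Perm V} {v w : V} (hv : σ v = w)
    (hσ : ∀ x y, x ≠ v → y ≠ v → (G.Adj x y ↔ H.Adj (σ x) (σ y))) (hd : dg G v = dg H w)
    (l : ℤ) :
    ∑ x ∈ univ.erase v, (ind (l ≤ dg H (σ x)) * nbg G l x
        - ind (l ≤ dg G x) * nbg H l (σ x))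
      = ind (l ≤ dg G v) * (sg G (l + 1) - sg H (l + 1)) := by
  have hsh := nbg_shift ⟨σ, hv, hσ⟩ hd (l + 1)
  have hdc : ∀ x, x ≠ v → dg G x - ind (G.Adj x v) = dg H (σ x) - ind (H.Adj (σ x) w) :=
    fun x hx => dg_card hv hσ hx
  have i1 : ∀ x, ∑ y ∈ univ.erase v, ad G x y * ind (l ≤ dg G y)
      = nbg G l x - ad G x v * ind (l ≤ dg G v) := fun x => sum_erase_eq v _
  have i2 : ∀ x, x ≠ v → ∑ y ∈ univ.erase v, ad G x y * ind (l ≤ dg H (σ y))
      = nbg H l (σ x) - ad H (σ x) w * ind (l ≤ dg G v) := by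
    intro x hx
    rw [hd]
    have e : ∑ y ∈ univ.erase w, ad H (σ x) y * ind (l ≤ dg H y)
      = nbg H l (σ x) - ad H (σ x) w * ind (l ≤ dg H w) := sum_erase_eq w _
    rw [← e]
    refine sum_card σ hv _ (fun y => ad H (σ x) y * ind (l ≤ dg H y)) (fun y hy => ?_)
    rw [show ad G x y = ad H (σ x) (σ y) from ind_congr (hσ x y hx hy)]
  have as1 : ∑ x ∈ univ.erase v, ind (l ≤ dg H (σ x)) *
        (∑ y ∈ univ.erase v, ad G x y * ind (l ≤ dg G y))
      = ∑ x ∈ univ.erase v, ind (l ≤ dg G x) *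
        (∑ y ∈ univ.erase v, ad G x y * ind (l ≤ dg H (σ y))) := by
    simp only [Finset.mul_sum]
    rw [Finset.sum_comm]
    refine Finset.sum_congr rfl (fun x _ => Finset.sum_congr rfl (fun y _ => ?_))
    rw [ad_comm G y x]
    ring
  have as2 : ∑ x ∈ univ.erase v, (ind (l ≤ dg H (σ x)) * nbg G l x
        - ind (l ≤ dg G x) * nbg H l (σ x))
      = ind (l ≤ dg G v) * ∑ x ∈ univ.erase v, (ind (l ≤ dg H (σ x)) * ad G x v
        - ind (l ≤ dg G x) * ad H (σ x) w) := by
    have e1 : ∑ x ∈ univ.erase v, ind (l ≤ dg H (σ x)) *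
        (∑ y ∈ univ.erase v, ad G x y * ind (l ≤ dg G y))
        = ∑ x ∈ univ.erase v, ind (l ≤ dg H (σ x)) * nbg G l x
          - ind (l ≤ dg G v) * ∑ x ∈ univ.erase v, ind (l ≤ dg H (σ x)) * ad G x v := by
      rw [Finset.mul_sum, ← Finset.sum_sub_distrib]
      refine Finset.sum_congr rfl (fun x _ => ?_)
      rw [i1]; ring
    have e2 : ∑ x ∈ univ.erase v, ind (l ≤ dg G x) *
        (∑ y ∈ univ.erase v, ad G x y * ind (l ≤ dg H (σ y)))
        = ∑ x ∈ univ.erase v, ind (l ≤ dg G x) * nbg H l (σ x)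
          - ind (l ≤ dg G v) * ∑ x ∈ univ.erase v, ind (l ≤ dg G x) * ad H (σ x) w := by
      rw [Finset.mul_sum, ← Finset.sum_sub_distrib]
      refine Finset.sum_congr rfl (fun x hx => ?_)
      rw [i2 x (Finset.ne_of_mem_erase hx)]; ring
    rw [e1, e2] at as1
    rw [Finset.sum_sub_distrib, Finset.sum_sub_distrib]
    linear_combination as1
  have r1 : ∑ x ∈ univ.erase v, (ind (l ≤ dg H (σ x)) * ad G x v
        - ind (l ≤ dg G x) * ad H (σ x) w) = sg G (l + 1) - sg H (l + 1) := by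
    rw [← hsh]
    have e1 : ∑ x ∈ univ.erase v, (ind (l ≤ dg H (σ x)) * ad G x v
        - ind (l ≤ dg G x) * ad H (σ x) w)
        = ∑ x ∈ univ.erase v, ad G x v * ind (l + 1 ≤ dg G x)
          - ∑ x ∈ univ.erase v, ad H (σ x) w * ind (l + 1 ≤ dg H (σ x)) := by
      rw [← Finset.sum_sub_distrib]
      exact Finset.sum_congr rfl (fun x hx => pt_nbr (hdc x (Finset.ne_of_mem_erase hx)))
    have e2 : ∑ x ∈ univ.erase v, ad H (σ x) w * ind (l + 1 ≤ dg H (σ x))
        = ∑ x ∈ univ.erase w, ad H x w * ind (l + 1 ≤ dg H x) :=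
      sum_card σ hv _ (fun x => ad H x w * ind (l + 1 ≤ dg H x)) (fun x _ => rfl)
    rw [e1, e2, sum_erase_eq, sum_erase_eq, ad_self, ad_self]
    unfold nbg
    rw [Finset.sum_congr rfl (fun x _ => by rw [ad_comm G x v] :
        ∀ x ∈ univ, ad G x v * ind (l + 1 ≤ dg G x) = ad G v x * ind (l + 1 ≤ dg G x)),
      Finset.sum_congr rfl (fun x _ => by rw [ad_comm H x w] :
        ∀ x ∈ univ, ad H x w * ind (l + 1 ≤ dg H x) = ad H w x * ind (l + 1 ≤ dg H x))]
    ring
  rw [as2, r1]

/-- the consequence when `nbg` is constant on the two degrees next to the level -/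
theorem psi_const {G H : SimpleGraph V} {v w : V} (h : CI G H v w) (hd : dg G v = dg H w)
    (l C : ℤ)
    (h1 : ∀ x y, dg G x = l → dg H y = l - 1 → nbg G l x + nbg H l y = C)
    (h2 : ∀ x y, dg G x = l - 1 → dg H y = l → nbg G l x + nbg H l y = C) :
    Eg G l l - Eg H l l - (clg G l - clg H l) * C
      = ind (l ≤ dg G v) * ((sg G l - sg H l) + (sg G (l + 1) - sg H (l + 1))) := by
  have hsh := nbg_shift h hd l
  obtain ⟨σ, hv, hσ⟩ := h
  have hp := pair_lvl hv hσ hd l
  have hdc : ∀ x, x ≠ v → dg G x - ind (G.Adj x v) = dg H (σ x) - ind (H.Adj (σ x) w) :=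
    fun x hx => dg_card hv hσ hx
  have e1 : ∀ x ∈ univ.erase v, (ind (l ≤ dg H (σ x)) * nbg G l x
        - ind (l ≤ dg G x) * nbg H l (σ x))
      = (ind (l ≤ dg G x) * nbg G l x - ind (l ≤ dg H (σ x)) * nbg H l (σ x))
        - (ind (l ≤ dg G x) - ind (l ≤ dg H (σ x))) * C := by
    intro x hx
    have h3 := hdc x (Finset.ne_of_mem_erase hx)
    have h4 := ind_nonneg (G.Adj x v)
    have h5 := ind_le_one (G.Adj x v)
    have h6 := ind_nonneg (H.Adj (σ x) w)
    have h7 := ind_le_one (H.Adj (σ x) w)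
    by_cases hx1 : l ≤ dg G x
    · by_cases hx2 : l ≤ dg H (σ x)
      · rw [ind_true hx1, ind_true hx2]; ring
      · rw [ind_true hx1, ind_false hx2, ← h1 x (σ x) (by omega) (by omega)]; ring
    · by_cases hx2 : l ≤ dg H (σ x)
      · rw [ind_false hx1, ind_true hx2, ← h2 x (σ x) (by omega) (by omega)]; ring
      · rw [ind_false hx1, ind_false hx2]; ring
  rw [Finset.sum_congr rfl e1, Finset.sum_sub_distrib, Finset.sum_sub_distrib,
    ← Finset.sum_mul, Finset.sum_sub_distrib] at hp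
  have e2 : ∑ x ∈ univ.erase v, ind (l ≤ dg H (σ x)) * nbg H l (σ x)
      = ∑ x ∈ univ.erase w, ind (l ≤ dg H x) * nbg H l x :=
    sum_card σ hv _ (fun x => ind (l ≤ dg H x) * nbg H l x) (fun x _ => rfl)
  have e3 : ∑ x ∈ univ.erase v, ind (l ≤ dg H (σ x)) = ∑ x ∈ univ.erase w, ind (l ≤ dg H x) :=
    sum_card σ hv _ (fun x => ind (l ≤ dg H x)) (fun x _ => rfl)
  rw [e2, e3, sum_erase_eq, sum_erase_eq, sum_erase_eq, sum_erase_eq, ← hd] at hp
  unfold Eg clg
  linear_combination hp + ind (l ≤ dg G v) * hsh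

section main

variable {G H : SimpleGraph V}

theorem psi_step2 [Nonempty V] (hGH : ∀ v, ∃ w, CI G H v w) (hHG : ∀ w, ∃ v, CI G H v w)
    (htot : tot G = tot H) (l C : ℤ)
    (h1 : ∀ x y, dg G x = l → dg H y = l - 1 → nbg G l x + nbg H l y = C)
    (h2 : ∀ x y, dg G x = l - 1 → dg H y = l → nbg G l x + nbg H l y = C) :
    (sg G l - sg H l) + (sg G (l + 1) - sg H (l + 1)) = 0 := by
  have dd : ∀ v w, CI G H v w → dg G v = dg H w := fun v w h => dg_eq_of_ci htot h
  have tr : ∀ (P : ℤ → Prop), (∀ x, P (dg G x)) → ∀ y, P (dg H y) := by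
    intro P hP y
    obtain ⟨v, hv⟩ := hHG y
    rw [← dd _ _ hv]; exact hP v
  by_cases c1 : ∃ x, dg G x < l
  · by_cases c2 : ∃ x, l ≤ dg G x
    · obtain ⟨x1, hx1⟩ := c1
      obtain ⟨x2, hx2⟩ := c2
      obtain ⟨y1, hy1⟩ := hGH x1
      obtain ⟨y2, hy2⟩ := hGH x2
      have p1 := psi_const hy1 (dd _ _ hy1) l C h1 h2
      have p2 := psi_const hy2 (dd _ _ hy2) l C h1 h2
      rw [ind_false (by omega)] at p1
      rw [ind_true hx2] at p2
      linarith
    · push Not at c2
      rw [sg_high G l c2, sg_high H l (tr (fun k => k < l) c2),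
        sg_high G (l + 1) (fun x => by have := c2 x; omega),
        sg_high H (l + 1) (fun x => by have := tr (fun k => k < l) c2 x; omega)]
      ring
  · push Not at c1
    rw [sg_low G l (fun x => by have := c1 x; omega),
      sg_low H l (fun x => by have := tr (fun k => l ≤ k) c1 x; omega),
      sg_low G (l + 1) (fun x => by have := c1 x; omega),
      sg_low H (l + 1) (fun x => by have := tr (fun k => l ≤ k) c1 x; omega), htot]
    ring

/-- a level next to which one of the two degrees does not occur -/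
def Gap (G : SimpleGraph V) (l : ℤ) : Prop := (∀ x, dg G x ≠ l) ∨ (∀ x, dg G x ≠ l - 1)

theorem gap_eq (hHG : ∀ w, ∃ v, CI G H v w) (htot : tot G = tot H) {l : ℤ} (hg : Gap G l)
    {σ : Equiv.Perm V} {v w : V} (hv : σ v = w)
    (hσ : ∀ x y, x ≠ v → y ≠ v → (G.Adj x y ↔ H.Adj (σ x) (σ y))) {x : V} (hx : x ≠ v) :
    ind (l ≤ dg G x) = ind (l ≤ dg H (σ x)) := by
  have dd : ∀ v w, CI G H v w → dg G v = dg H w := fun v w h => dg_eq_of_ci htot h
  have h3 : dg G x - ind (G.Adj x v) = dg H (σ x) - ind (H.Adj (σ x) w) := dg_card hv hσ hx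
  have h4 := ind_nonneg (G.Adj x v)
  have h5 := ind_le_one (G.Adj x v)
  have h6 := ind_nonneg (H.Adj (σ x) w)
  have h7 := ind_le_one (H.Adj (σ x) w)
  obtain ⟨u, hu⟩ := hHG (σ x)
  have h8 := dd _ _ hu
  apply ind_congr
  rcases hg with g | g
  · have := g x
    have := g u
    omega
  · have := g x
    have := g u
    omega

theorem psi_gap [Nonempty V] (hGH : ∀ v, ∃ w, CI G H v w) (hHG : ∀ w, ∃ v, CI G H v w)
    (htot : tot G = tot H) {l : ℤ} (hg : Gap G l) :
    sg G l = sg H l ∧ sg G (l + 1) = sg H (l + 1) := by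
  have dd : ∀ v w, CI G H v w → dg G v = dg H w := fun v w h => dg_eq_of_ci htot h
  have hH : ∀ y, ∃ x, dg G x = dg H y := by
    intro y
    obtain ⟨v, hv⟩ := hHG y
    exact ⟨v, dd _ _ hv⟩
  have h1 : ∀ x y, dg G x = l → dg H y = l - 1 → nbg G l x + nbg H l y = 0 := by
    intro x y hx hy
    exfalso
    rcases hg with g | g
    · exact g x hx
    · obtain ⟨z, hz⟩ := hH y
      exact g z (hz.trans hy)
  have h2 : ∀ x y, dg G x = l - 1 → dg H y = l → nbg G l x + nbg H l y = 0 := by
    intro x y hx hy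
    exfalso
    rcases hg with g | g
    · obtain ⟨z, hz⟩ := hH y
      exact g z (hz.trans hy)
    · exact g x hx
  have s1 := psi_step2 hGH hHG htot l 0 h1 h2
  obtain ⟨v⟩ := ‹Nonempty V›
  obtain ⟨w, σ, hv, hσ⟩ := hGH v
  have hd := dd v w ⟨σ, hv, hσ⟩
  have e3 : ∑ x ∈ univ.erase v, ind (l ≤ dg G x) = ∑ x ∈ univ.erase w, ind (l ≤ dg H x) :=
    sum_card σ hv _ (fun x => ind (l ≤ dg H x)) (fun x hx => gap_eq hHG htot hg hv hσ hx)
  rw [sum_erase_eq, sum_erase_eq, ← hd] at e3
  have s2 := sg_sub G l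
  have s3 := sg_sub H l
  have s4 : clg G l = clg H l := by
    unfold clg
    linarith
  constructor <;> linarith

/-- edges between sets of vertices separated by gaps -/
theorem Eg_eq_of_gap [Nonempty V] (hGH : ∀ v, ∃ w, CI G H v w) (hHG : ∀ w, ∃ v, CI G H v w)
    (htot : tot G = tot H) {m l : ℤ} (hm : Gap G m) (hl : Gap G l) : Eg G m l = Eg H m l := by
  have dd : ∀ v w, CI G H v w → dg G v = dg H w := fun v w h => dg_eq_of_ci htot h
  have pm := (psi_gap hGH hHG htot hm).1
  have pl := (psi_gap hGH hHG htot hl).1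
  obtain ⟨v⟩ := ‹Nonempty V›
  obtain ⟨w, hw⟩ := hGH v
  have hd := dd v w hw
  have sm := nbg_shift hw hd m
  have sl := nbg_shift hw hd l
  obtain ⟨σ, hv, hσ⟩ := hw
  have key := sum_card2 σ hv (fun x y => ad G x y * ind (m ≤ dg G x) * ind (l ≤ dg G y))
    (fun x y => ad H x y * ind (m ≤ dg H x) * ind (l ≤ dg H y)) (fun x y hx hy => by
      rw [gap_eq hHG htot hm hv hσ hx, gap_eq hHG htot hl hv hσ hy,
        show ad G x y = ad H (σ x) (σ y) from ind_congr (hσ x y hx hy)])
  have e : ∀ (K : SimpleGraph V) (v : V),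
      ∑ x ∈ univ.erase v, ∑ y ∈ univ.erase v, ad K x y * ind (m ≤ dg K x) * ind (l ≤ dg K y)
        = Eg K m l - ind (m ≤ dg K v) * nbg K l v - ind (l ≤ dg K v) * nbg K m v := by
    intro K v
    have e1 : ∀ x, ∑ y ∈ univ.erase v, ad K x y * ind (m ≤ dg K x) * ind (l ≤ dg K y)
        = ind (m ≤ dg K x) * nbg K l x - ind (l ≤ dg K v) * (ad K v x * ind (m ≤ dg K x)) := by
      intro x
      rw [sum_erase_eq]
      unfold nbg
      rw [Finset.mul_sum, ad_comm K x v]
      have : ∑ y, ad K x y * ind (m ≤ dg K x) * ind (l ≤ dg K y)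
          = ∑ y, ind (m ≤ dg K x) * (ad K x y * ind (l ≤ dg K y)) :=
        Finset.sum_congr rfl (fun y _ => by ring)
      rw [this]
      ring
    rw [Finset.sum_congr rfl (fun x _ => e1 x), sum_erase_eq, Finset.sum_sub_distrib,
      ← Finset.mul_sum, ad_self]
    unfold Eg nbg
    ring
  rw [e, e, ← hd] at key
  have z1 : nbg G l v = nbg H l w := by linarith
  have z2 : nbg G m v = nbg H m w := by linarith
  rw [z1, z2] at key
  linarith

/-- local version of `no_pos_T` -/
theorem no_pos_T2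
    (hGH : ∀ v, ∃ w, CI G H v w) (hHG : ∀ w, ∃ v, CI G H v w) (htot : tot G = tot H) (c : ℤ)
    (hG1 : ∀ x y, dg G x = c - 1 → dg G y = c - 1 → nb G (c + 1) x = nb G (c + 1) y)
    (hG2 : ∀ x y, dg G x = c + 1 → dg G y = c + 1 → nb G (c - 1) x = nb G (c - 1) y)
    (hH1 : ∀ x y, dg H x = c - 1 → dg H y = c - 1 → nb H (c + 1) x = nb H (c + 1) y)
    (hH2 : ∀ x y, dg H x = c + 1 → dg H y = c + 1 → nb H (c - 1) x = nb H (c - 1) y)
    (e1 : sg G (c - 1) = sg H (c - 1)) (e2 : sg G c = sg H c) (e3 : sg G (c + 2) = sg H (c + 2))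
    (e4 : sg G (c + 3) = sg H (c + 3)) : ¬ sg H (c + 1) < sg G (c + 1) := by
  intro hT
  have dd : ∀ v w, CI G H v w → dg G v = dg H w := fun v w h => dg_eq_of_ci htot h
  have s1 := sg_sub G (c - 1)
  have s1' := sg_sub H (c - 1)
  have s2 := sg_sub G c
  have s2' := sg_sub H c
  have s3 := sg_sub G (c + 1)
  have s3' := sg_sub H (c + 1)
  have s4 := sg_sub G (c + 2)
  have s4' := sg_sub H (c + 2)
  rw [sub_add_cancel] at s1 s1'
  rw [show c + 1 + 1 = c + 2 by ring] at s3 s3'
  rw [show c + 2 + 1 = c + 3 by ring] at s4 s4'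
  have c1 := cls_eq G (c - 1)
  have c1' := cls_eq H (c - 1)
  have c2 := cls_eq G (c + 1)
  have c2' := cls_eq H (c + 1)
  rw [sub_add_cancel] at c1 c1'
  rw [show c + 1 + 1 = c + 2 by ring] at c2 c2'
  obtain ⟨T, hTd⟩ : ∃ T, T = sg G (c + 1) - sg H (c + 1) := ⟨_, rfl⟩
  have hTpos : 0 < T := by omega
  have d1 : cls G (c - 1) = cls H (c - 1) + T := by omega
  have d2 : cls G (c + 1) = cls H (c + 1) + T := by omega
  obtain ⟨x, hx⟩ := exists_of_cls_pos (G := G) (k := c - 1)
    (by have := cls_nonneg H (c - 1); omega)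
  obtain ⟨y, hy⟩ := exists_of_cls_pos (G := G) (k := c + 1)
    (by have := cls_nonneg H (c + 1); omega)
  obtain ⟨x', hx'⟩ := hGH x
  obtain ⟨y', hy'⟩ := hGH y
  have dx' : dg H x' = c - 1 := by rw [← dd _ _ hx', hx]
  have dy' : dg H y' = c + 1 := by rw [← dd _ _ hy', hy]
  have n1 := nb_shift hx' (dd _ _ hx') (c + 1)
  have n2 := nb_shift hy' (dd _ _ hy') (c - 1)
  have E1 : cls G (c - 1) * nb G (c + 1) x = cls G (c + 1) * nb G (c - 1) y := by
    rw [← sum_ind_mul G (c - 1) (nb G (c + 1) x) (nb G (c + 1)) (fun z hz => hG1 z x hz hx),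
      ← sum_ind_mul G (c + 1) (nb G (c - 1) y) (nb G (c - 1)) (fun z hz => hG2 z y hz hy)]
    exact cross_count G (c - 1) (c + 1)
  have E2 : cls H (c - 1) * nb H (c + 1) x' = cls H (c + 1) * nb H (c - 1) y' := by
    rw [← sum_ind_mul H (c - 1) (nb H (c + 1) x') (nb H (c + 1)) (fun z hz => hH1 z x' hz dx'),
      ← sum_ind_mul H (c + 1) (nb H (c - 1) y') (nb H (c - 1)) (fun z hz => hH2 z y' hz dy')]
    exact cross_count H (c - 1) (c + 1)
  have q1 : nb H (c + 1) x' = nb G (c + 1) x - T := by omega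
  have q2 : nb H (c - 1) y' = nb G (c - 1) y := by omega
  have p1 := nb_nonneg H (c + 1) x'
  have p2 := nb_le_cls G (c - 1) y
  have p3 : 0 < cls H (c + 1) := by rw [← dy']; exact cls_pos H y'
  have p4 : 0 < cls G (c - 1) := by rw [← hx]; exact cls_pos G x
  rw [q1, q2] at E2
  have hc1 : cls H (c - 1) = cls G (c - 1) - T := by omega
  have hc2 : cls H (c + 1) = cls G (c + 1) - T := by omega
  rw [hc1, hc2] at E2
  have k1 : T * (nb G (c - 1) y - nb G (c + 1) x - cls G (c - 1) + T) = 0 := by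
    linear_combination E2 - E1
  have k2 : nb G (c - 1) y - nb G (c + 1) x - cls G (c - 1) + T = 0 := by
    rcases mul_eq_zero.mp k1 with h | h
    · omega
    · exact h
  have k3 : nb G (c + 1) x = T := by omega
  have k4 : nb G (c - 1) y = cls G (c - 1) := by omega
  rw [k3, k4] at E1
  have k5 : cls G (c - 1) * (cls G (c + 1) - T) = 0 := by linear_combination -E1
  rcases mul_eq_zero.mp k5 with h | h
  · omega
  · omega

/-- vertices of degree `k` have equal numbers of neighbours of every degree -/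
def Uni (G : SimpleGraph V) (k : ℤ) : Prop :=
  ∀ x y, dg G x = k → dg G y = k → ∀ j, nb G j x = nb G j y

theorem nbg_of_uni (G : SimpleGraph V) {k : ℤ} (h : Uni G k) {x y : V} (hx : dg G x = k)
    (hy : dg G y = k) (l : ℤ) : nbg G l x = nbg G l y := by
  classical
  -- `nbg` is a finite sum of values of `nb`
  have key : ∀ z : V, nbg G l z
      = ∑ d ∈ (univ : Finset V).image (dg G), ind (l ≤ d) * nb G d z := by
    intro z
    unfold nbg nb
    simp only [Finset.mul_sum]
    rw [Finset.sum_comm]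
    refine Finset.sum_congr rfl (fun y _ => ?_)
    rw [Finset.sum_eq_single (dg G y)]
    · rw [ind_true rfl]; ring
    · intro b _ hb
      rw [ind_false (show ¬ dg G y = b from fun h => hb h.symm)]; ring
    · intro h
      exact absurd (Finset.mem_image_of_mem _ (mem_univ y)) h
  rw [key, key]
  exact Finset.sum_congr rfl (fun d _ => by rw [h x y hx hy d])

/-- the degree sequence is determined: any two different nonuniform degrees are separated by an
integer which is not a degree, or form an isolated pair of consecutive degrees -/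
theorem sg_eq_runs [Nonempty V] (hGH : ∀ v, ∃ w, CI G H v w) (hHG : ∀ w, ∃ v, CI G H v w)
    (htot : tot G = tot H)
    (hNU : ∀ j k, j < k → ¬ Uni G j → ¬ Uni G k →
      (∃ g, j < g ∧ g < k ∧ ∀ x, dg G x ≠ g) ∨
      (k = j + 1 ∧ (∀ x, dg G x ≠ j - 1) ∧ (∀ x, dg G x ≠ k + 1))) (l : ℤ) :
    sg G l = sg H l := by
  have dd : ∀ v w, CI G H v w → dg G v = dg H w := fun v w h => dg_eq_of_ci htot h
  by_contra hl
  -- greatest value with a difference
  obtain ⟨u, hu, humax⟩ : ∃ u, sg G u ≠ sg H u ∧ ∀ z, sg G z ≠ sg H z → z ≤ u := by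
    refine Int.exists_greatest_of_bdd (P := fun z => sg G z ≠ sg H z) ?_ ⟨l, hl⟩
    obtain ⟨t, -, ht⟩ := Finset.exists_max_image (univ : Finset V) (dg G) univ_nonempty
    refine ⟨dg G t, fun z hz => ?_⟩
    by_contra hlt
    apply hz
    rw [sg_high G z (fun x => by have := ht x (mem_univ x); omega),
      sg_high H z (fun y => by
        obtain ⟨v, hv⟩ := hHG y
        have := ht v (mem_univ v)
        rw [← dd _ _ hv]; omega)]
  have above : ∀ z, u < z → sg G z = sg H z := by
    intro z hz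
    by_contra hne
    have := humax z hne
    omega
  obtain ⟨s, hs, hsmin⟩ : ∃ s, (s ≤ u ∧ ∀ i, s ≤ i → i ≤ u → sg G i ≠ sg H i) ∧
      ∀ z, (z ≤ u ∧ ∀ i, z ≤ i → i ≤ u → sg G i ≠ sg H i) → s ≤ z := by
    refine Int.exists_least_of_bdd
      (P := fun z => z ≤ u ∧ ∀ i, z ≤ i → i ≤ u → sg G i ≠ sg H i) ?_
      ⟨u, le_refl _, fun i h1 h2 => by rw [show i = u by omega]; exact hu⟩
    obtain ⟨b, -, hb⟩ := Finset.exists_min_image (univ : Finset V) (dg G) univ_nonempty
    refine ⟨dg G b, fun z hz => ?_⟩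
    by_contra hlt
    apply hz.2 z (le_refl _) hz.1
    rw [sg_low G z (fun x => by have := hb x (mem_univ x); omega),
      sg_low H z (fun y => by
        obtain ⟨v, hv⟩ := hHG y
        have := hb v (mem_univ v)
        rw [← dd _ _ hv]; omega), htot]
  obtain ⟨hsu, hsall⟩ := hs
  have below : sg G (s - 1) = sg H (s - 1) := by
    by_contra hne
    have := hsmin (s - 1) ⟨by omega, fun i h1 h2 => by
      by_cases h3 : i = s - 1
      · rw [h3]; exact hne
      · exact hsall i (by omega) h2⟩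
    omega
  -- all degrees between `s - 2` and `u` occur
  have occ : ∀ i, s - 2 ≤ i → i ≤ u → ∃ x, dg G x = i := by
    intro i h1 h2
    by_contra hno
    push Not at hno
    by_cases h3 : s ≤ i
    · exact hsall i h3 h2 (psi_gap hGH hHG htot (Or.inl hno)).1
    · by_cases h4 : i = s - 1
      · have := (psi_gap hGH hHG htot (l := i) (Or.inl hno)).2
        rw [h4, sub_add_cancel] at this
        exact hsall s (le_refl _) hsu this
      · have h5 : i = s - 2 := by omega
        have hno' : ∀ x, dg G x ≠ (s - 1) - 1 := by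
          intro x
          rw [show s - 1 - 1 = s - 2 by ring, ← h5]
          exact hno x
        have := (psi_gap hGH hHG htot (l := s - 1) (Or.inr hno')).2
        rw [sub_add_cancel] at this
        exact hsall s (le_refl _) hsu this
  -- uniform degrees
  have stp : ∀ i, Uni G (i - 1) → Uni G i →
      (sg G i - sg H i) + (sg G (i + 1) - sg H (i + 1)) = 0 := by
    intro i u1 u2
    by_cases o1 : ∃ x, dg G x = i
    · by_cases o2 : ∃ x, dg G x = i - 1
      · obtain ⟨x1, hx1⟩ := o1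
        obtain ⟨x2, hx2⟩ := o2
        refine psi_step2 hGH hHG htot i (nbg G i x1 + nbg G i x2 - (sg G i - sg H i)) ?_ ?_
        · intro x y hx hy
          obtain ⟨v, hv⟩ := hHG y
          have h1 := nbg_shift hv (dd _ _ hv) i
          rw [nbg_of_uni G u1 ((dd _ _ hv).trans hy) hx2] at h1
          rw [nbg_of_uni G u2 hx hx1]
          linarith
        · intro x y hx hy
          obtain ⟨v, hv⟩ := hHG y
          have h1 := nbg_shift hv (dd _ _ hv) i
          rw [nbg_of_uni G u2 ((dd _ _ hv).trans hy) hx1] at h1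
          rw [nbg_of_uni G u1 hx hx2]
          linarith
      · push Not at o2
        have := psi_gap hGH hHG htot (l := i) (Or.inr o2)
        rw [this.1, this.2]; ring
    · push Not at o1
      have := psi_gap hGH hHG htot (l := i) (Or.inl o1)
      rw [this.1, this.2]; ring
  -- a nonuniform degree at the top
  obtain ⟨c2, hc2, hc2n⟩ : ∃ c, (c = u - 1 ∨ c = u) ∧ ¬ Uni G c := by
    by_contra hno
    push Not at hno
    have h1 := stp u (hno _ (Or.inl rfl)) (hno _ (Or.inr rfl))
    rw [above (u + 1) (by omega)] at h1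
    exact hu (by linarith)
  obtain ⟨c1, hc1, hc1n⟩ : ∃ c, (c = s - 2 ∨ c = s - 1) ∧ ¬ Uni G c := by
    by_contra hno
    push Not at hno
    have h1 := stp (s - 1) (hno _ (Or.inl (by ring))) (hno _ (Or.inr rfl))
    rw [sub_add_cancel, below] at h1
    exact hsall s (le_refl _) hsu (by linarith)
  have hcc : c1 = c2 := by
    by_contra hne
    rcases hNU c1 c2 (by omega) hc1n hc2n with ⟨g, g1, g2, g3⟩ | ⟨g1, g2, g3⟩
    · obtain ⟨x, hx⟩ := occ g (by omega) (by omega)
      exact g3 x hx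
    · by_cases h1 : c1 = s - 2
      · obtain ⟨x, hx⟩ := occ (c2 + 1) (by omega) (by omega)
        exact g3 x hx
      · obtain ⟨x, hx⟩ := occ (c1 - 1) (by omega) (by omega)
        exact g2 x hx
  have hcu : c1 = u - 1 := by omega
  have hsu' : s = u := by omega
  obtain ⟨c, hc⟩ : ∃ c, c = c1 := ⟨_, rfl⟩
  have occm : ∃ x, dg G x = c - 1 := occ (c - 1) (by omega) (by omega)
  have occp : ∃ x, dg G x = c + 1 := occ (c + 1) (by omega) (by omega)
  have occc : ∃ x, dg G x = c := occ c (by omega) (by omega)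
  have nu : ¬ Uni G c := by rw [hc]; exact hc1n
  have um : Uni G (c - 1) := by
    by_contra hno
    rcases hNU (c - 1) c (by omega) hno nu with ⟨g, g1, g2, g3⟩ | ⟨g1, g2, g3⟩
    · omega
    · obtain ⟨x, hx⟩ := occp
      exact g3 x hx
  have up : Uni G (c + 1) := by
    by_contra hno
    rcases hNU c (c + 1) (by omega) nu hno with ⟨g, g1, g2, g3⟩ | ⟨g1, g2, g3⟩
    · omega
    · obtain ⟨x, hx⟩ := occm
      exact g2 x hx
  have umm : Uni G (c - 2) := by
    by_contra hno
    rcases hNU (c - 2) c (by omega) hno nu with ⟨g, g1, g2, g3⟩ | ⟨g1, g2, g3⟩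
    · obtain ⟨x, hx⟩ := occm
      exact g3 x (by omega)
    · omega
  have f2 : sg G c = sg H c := by rw [show c = s - 1 by omega]; exact below
  have f3 : sg G (c + 2) = sg H (c + 2) := above _ (by omega)
  have f4 : sg G (c + 3) = sg H (c + 3) := above _ (by omega)
  have f1 : sg G (c - 1) = sg H (c - 1) := by
    have h1 := stp (c - 1) (by rw [show c - 1 - 1 = c - 2 by ring]; exact umm) um
    rw [sub_add_cancel, f2] at h1
    linarith
  have tH : ∀ k, Uni G k → ∀ x y, dg H x = k → dg H y = k → ∀ j, nb H j x = nb H j y := by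
    intro k hk x y hx hy j
    obtain ⟨v, hv⟩ := hHG x
    obtain ⟨w, hw⟩ := hHG y
    have h1 := nb_shift hv (dd _ _ hv) j
    have h2 := nb_shift hw (dd _ _ hw) j
    have h3 := hk v w ((dd _ _ hv).trans hx) ((dd _ _ hw).trans hy) j
    linarith
  have a1 := no_pos_T2 hGH hHG htot c (fun x y hx hy => um x y hx hy _)
    (fun x y hx hy => up x y hx hy _) (fun x y hx hy => tH _ um x y hx hy _)
    (fun x y hx hy => tH _ up x y hx hy _) f1 f2 f3 f4
  have a2 := no_pos_T2 (G := H) (H := G)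
    (fun v => by obtain ⟨w, hw⟩ := hHG v; exact ⟨w, hw.symm⟩)
    (fun v => by obtain ⟨w, hw⟩ := hGH v; exact ⟨w, hw.symm⟩) htot.symm c
    (fun x y hx hy => tH _ um x y hx hy _)
    (fun x y hx hy => tH _ up x y hx hy _) (fun x y hx hy => um x y hx hy _)
    (fun x y hx hy => up x y hx hy _) f1.symm f2.symm f3.symm f4.symm
  apply hu
  rw [show u = c + 1 by omega]
  omega

end main

end Pool.Agent.Helper373_CM
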