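import Pool.Agent.Helper373_CM.Equi

set_option autoImplicit false
set_option linter.unusedSectionVars false
set_option linter.unnecessarySeqFocus false
set_option linter.unusedVariables false

namespace Pool.Agent.Helper373_CM

open Finset

variable {V : Type*} [Fintype V] [DecidableEq V]

theorem cls_nonneg (G : SimpleGraph V) (k : ℤ) : 0 ≤ cls G k :=
  Finset.sum_nonneg (fun y _ => ind_nonneg _)

theorem exists_of_cls_pos {G : SimpleGraph V} {k : ℤ} (h : 0 < cls G k) : ∃ x, dg G x = k := by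
  by_contra hc
  push Not at hc
  have : cls G k = 0 := Finset.sum_eq_zero (fun x _ => ind_false (hc x))
  omega

theorem nb_nonneg (G : SimpleGraph V) (k : ℤ) (x : V) : 0 ≤ nb G k x :=
  Finset.sum_nonneg (fun y _ => mul_nonneg (ind_nonneg _) (ind_nonneg _))

theorem nb_le_cls (G : SimpleGraph V) (k : ℤ) (x : V) : nb G k x ≤ cls G k := by
  unfold nb cls
  refine Finset.sum_le_sum (fun y _ => ?_)
  have h1 : ad G x y ≤ 1 := ind_le_one _
  have h2 : 0 ≤ ind (dg G y = k) := ind_nonneg _
  nlinarith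

/-- a function which is constant on the degree classes satisfying `P` -/
theorem exists_fun (G : SimpleGraph V) (P : ℤ → Prop) (f : V → ℤ)
    (h : ∀ x y, dg G x = dg G y → P (dg G x) → f x = f y) :
    ∃ a : ℤ → ℤ, ∀ x, P (dg G x) → f x = a (dg G x) := by
  classical
  refine ⟨fun k => if h : ∃ x, dg G x = k then f h.choose else 0, fun x hx => ?_⟩
  have h' : ∃ y, dg G y = dg G x := ⟨x, rfl⟩
  simp only
  rw [dif_pos h']
  exact h x _ h'.choose_spec.symm hx

/-- the function `sg` is determined except for one value -/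
theorem sg_eq_away [Nonempty V] {G H : SimpleGraph V}
    (hGH : ∀ v, ∃ w, CI G H v w) (hHG : ∀ w, ∃ v, CI G H v w) (htot : tot G = tot H)
    (c : ℤ) (hdist : ∀ u v, dg G u = dg G v → dg G u ≠ c → CI G G u v) (j : ℤ) (hj : j ≠ c + 1) :
    sg G j = sg H j := by
  have dd : ∀ v w, CI G H v w → dg G v = dg H w := fun v w h => dg_eq_of_ci htot h
  have hcon : ∀ l x y, dg G x = dg G y → dg G x ≠ c → nbg G l x = nbg G l y := by
    intro l x y hxy hx
    have := nbg_shift (hdist x y hxy hx) hxy l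
    linarith
  obtain ⟨t, -, ht⟩ := Finset.exists_max_image (univ : Finset V) (dg G) univ_nonempty
  obtain ⟨b, -, hb⟩ := Finset.exists_min_image (univ : Finset V) (dg G) univ_nonempty
  have hGt : ∀ x, dg G x ≤ dg G t := fun x => ht x (mem_univ x)
  have hGb : ∀ x, dg G b ≤ dg G x := fun x => hb x (mem_univ x)
  have tr : ∀ (P : ℤ → Prop), (∀ x, P (dg G x)) → ∀ y, P (dg H y) := by
    intro P hP y
    obtain ⟨v, hv⟩ := hHG y
    rw [← dd _ _ hv]; exact hP v
  have high : ∀ l, (∀ x, dg G x < l) → sg G l = sg H l := by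
    intro l hl
    rw [sg_high G l hl, sg_high H l (tr (fun k => k < l) hl)]
  have low : ∀ l, (∀ x, l - 1 ≤ dg G x) → sg G l = sg H l := by
    intro l hl
    rw [sg_low G l hl, sg_low H l (tr (fun k => l - 1 ≤ k) hl), htot]
  have key1 : ∀ i : ℕ, c + 2 ≤ dg G t + 1 - i → sg G (dg G t + 1 - i) = sg H (dg G t + 1 - i) := by
    intro i
    induction i with
    | zero =>
      intro _
      exact high _ (fun x => by have := hGt x; push_cast; omega)
    | succ i ih =>
      intro hi
      have ih' := ih (by push_cast at hi; omega)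
      by_cases h1 : ∃ x, dg G x < dg G t + 1 - ((i + 1 : ℕ) : ℤ)
      · obtain ⟨a, ha⟩ := exists_fun G (fun k => dg G t + 1 - ((i + 1 : ℕ) : ℤ) - 1 ≤ k)
          (nbg G (dg G t + 1 - ((i + 1 : ℕ) : ℤ)))
          (fun x y hxy hx => hcon _ x y hxy (by omega))
        have := psi_step hGH hHG htot (dg G t + 1 - ((i + 1 : ℕ) : ℤ)) a
          (fun x hx => ha x hx) h1 ⟨t, by push_cast; omega⟩
        rw [show dg G t + 1 - ((i + 1 : ℕ) : ℤ) + 1 = dg G t + 1 - (i : ℤ) by push_cast; ring,
          ih'] at this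
        linarith
      · push Not at h1
        exact low _ (fun x => by have := h1 x; omega)
  have key2 : ∀ i : ℕ, dg G b + 1 + i ≤ c → sg G (dg G b + 1 + i) = sg H (dg G b + 1 + i) := by
    intro i
    induction i with
    | zero =>
      intro _
      exact low _ (fun x => by have := hGb x; push_cast; omega)
    | succ i ih =>
      intro hi
      have ih' := ih (by push_cast at hi; omega)
      by_cases h1 : ∃ x, dg G b + 1 + (i : ℤ) ≤ dg G x
      · obtain ⟨a, ha⟩ := exists_fun G (fun k => k ≤ dg G b + 1 + (i : ℤ))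
          (nbg G (dg G b + 1 + (i : ℤ)))
          (fun x y hxy hx => hcon _ x y hxy (by push_cast at hi; omega))
        have := psi_step_dual hGH hHG htot (dg G b + 1 + (i : ℤ)) a
          (fun x hx => ha x hx) ⟨b, by omega⟩ h1
        rw [ih'] at this
        rw [show dg G b + 1 + ((i + 1 : ℕ) : ℤ) = dg G b + 1 + (i : ℤ) + 1 by push_cast; ring]
        linarith
      · push Not at h1
        exact high _ (fun x => by have := h1 x; push_cast; omega)
  rcases lt_or_gt_of_ne hj with h | h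
  · by_cases hb' : dg G b + 1 ≤ j
    · obtain ⟨i, hi⟩ : ∃ i : ℕ, j = dg G b + 1 + i := ⟨(j - dg G b - 1).toNat, by omega⟩
      rw [hi]; exact key2 i (by omega)
    · exact low j (fun x => by have := hGb x; omega)
  · by_cases ht' : j ≤ dg G t + 1
    · obtain ⟨i, hi⟩ : ∃ i : ℕ, j = dg G t + 1 - i := ⟨(dg G t + 1 - j).toNat, by omega⟩
      rw [hi]; exact key1 i (by omega)
    · exact high j (fun x => by have := hGt x; omega)

theorem no_pos_T {G H : SimpleGraph V}
    (hGH : ∀ v, ∃ w, CI G H v w) (hHG : ∀ w, ∃ v, CI G H v w) (htot : tot G = tot H) (c : ℤ)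
    (hG : ∀ u v, dg G u = dg G v → dg G u ≠ c → CI G G u v)
    (hH : ∀ u v, dg H u = dg H v → dg H u ≠ c → CI H H u v)
    (hsg : ∀ j, j ≠ c + 1 → sg G j = sg H j) : ¬ sg H (c + 1) < sg G (c + 1) := by
  intro hT
  have dd : ∀ v w, CI G H v w → dg G v = dg H w := fun v w h => dg_eq_of_ci htot h
  have s1 := sg_sub G (c - 1)
  have s1' := sg_sub H (c - 1)
  have s2 := sg_sub G c
  have s2' := sg_sub H c
  have s3 := sg_sub G (c + 1)
  have s3' := sg_sub H (c + 1)
  have s4 := sg_sub G (c + 2)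
  have s4' := sg_sub H (c + 2)
  have e1 := hsg (c - 1) (by omega)
  have e2 := hsg c (by omega)
  have e3 := hsg (c + 2) (by omega)
  have e4 := hsg (c + 3) (by omega)
  rw [sub_add_cancel] at s1 s1'
  rw [show c + 1 + 1 = c + 2 by ring] at s3 s3'
  rw [show c + 2 + 1 = c + 3 by ring] at s4 s4'
  have c1 := cls_eq G (c - 1)
  have c1' := cls_eq H (c - 1)
  have c2 := cls_eq G (c + 1)
  have c2' := cls_eq H (c + 1)
  rw [sub_add_cancel] at c1 c1'
  rw [show c + 1 + 1 = c + 2 by ring] at c2 c2'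
  obtain ⟨T, hTd⟩ : ∃ T, T = sg G (c + 1) - sg H (c + 1) := ⟨_, rfl⟩
  have hTpos : 0 < T := by omega
  have d1 : cls G (c - 1) = cls H (c - 1) + T := by omega
  have d2 : cls G (c + 1) = cls H (c + 1) + T := by omega
  obtain ⟨x, hx⟩ := exists_of_cls_pos (G := G) (k := c - 1)
    (by have := cls_nonneg H (c - 1); omega)
  obtain ⟨y, hy⟩ := exists_of_cls_pos (G := G) (k := c + 1)
    (by have := cls_nonneg H (c + 1); omega)
  obtain ⟨x', hx'⟩ := hGH x
  obtain ⟨y', hy'⟩ := hGH y
  have dx' : dg H x' = c - 1 := by rw [← dd _ _ hx', hx]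
  have dy' : dg H y' = c + 1 := by rw [← dd _ _ hy', hy]
  have n1 := nb_shift hx' (dd _ _ hx') (c + 1)
  have n2 := nb_shift hy' (dd _ _ hy') (c - 1)
  have conG : ∀ k u v, dg G u = dg G v → dg G u ≠ c → nb G k u = nb G k v := by
    intro k u v huv hu
    have := nb_shift (hG u v huv hu) huv k
    linarith
  have conH : ∀ k u v, dg H u = dg H v → dg H u ≠ c → nb H k u = nb H k v := by
    intro k u v huv hu
    have := nb_shift (hH u v huv hu) huv k
    linarith
  have E1 : cls G (c - 1) * nb G (c + 1) x = cls G (c + 1) * nb G (c - 1) y := by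
    rw [← sum_ind_mul G (c - 1) (nb G (c + 1) x) (nb G (c + 1))
        (fun z hz => conG _ z x (hz.trans hx.symm) (by omega)),
      ← sum_ind_mul G (c + 1) (nb G (c - 1) y) (nb G (c - 1))
        (fun z hz => conG _ z y (hz.trans hy.symm) (by omega))]
    exact cross_count G (c - 1) (c + 1)
  have E2 : cls H (c - 1) * nb H (c + 1) x' = cls H (c + 1) * nb H (c - 1) y' := by
    rw [← sum_ind_mul H (c - 1) (nb H (c + 1) x') (nb H (c + 1))
        (fun z hz => conH _ z x' (hz.trans dx'.symm) (by omega)),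
      ← sum_ind_mul H (c + 1) (nb H (c - 1) y') (nb H (c - 1))
        (fun z hz => conH _ z y' (hz.trans dy'.symm) (by omega))]
    exact cross_count H (c - 1) (c + 1)
  have q1 : nb H (c + 1) x' = nb G (c + 1) x - T := by omega
  have q2 : nb H (c - 1) y' = nb G (c - 1) y := by omega
  have p1 := nb_nonneg H (c + 1) x'
  have p2 := nb_le_cls G (c - 1) y
  have p3 : 0 < cls H (c + 1) := by rw [← dy']; exact cls_pos H y'
  have p4 : 0 < cls G (c - 1) := by rw [← hx]; exact cls_pos G x
  rw [q1, q2] at E2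
  have hc1 : cls H (c - 1) = cls G (c - 1) - T := by omega
  have hc2 : cls H (c + 1) = cls G (c + 1) - T := by omega
  rw [hc1, hc2] at E2
  have k1 : T * (nb G (c - 1) y - nb G (c + 1) x - cls G (c - 1) + T) = 0 := by
    linear_combination E2 - E1
  have k2 : nb G (c - 1) y - nb G (c + 1) x - cls G (c - 1) + T = 0 := by
    rcases mul_eq_zero.mp k1 with h | h
    · omega
    · exact h
  have k3 : nb G (c + 1) x = T := by omega
  have k4 : nb G (c - 1) y = cls G (c - 1) := by omega
  rw [k3, k4] at E1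
  have k5 : cls G (c - 1) * (cls G (c + 1) - T) = 0 := by linear_combination -E1
  rcases mul_eq_zero.mp k5 with h | h
  · omega
  · omega

theorem sg_eq_one_repeated [Nonempty V] {G H : SimpleGraph V}
    (hGH : ∀ v, ∃ w, CI G H v w) (hHG : ∀ w, ∃ v, CI G H v w) (htot : tot G = tot H)
    (c : ℤ) (hG : ∀ u v, dg G u = dg G v → dg G u ≠ c → CI G G u v) (j : ℤ) :
    sg G j = sg H j := by
  have dd : ∀ v w, CI G H v w → dg G v = dg H w := fun v w h => dg_eq_of_ci htot h
  have hH : ∀ u v, dg H u = dg H v → dg H u ≠ c → CI H H u v := by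
    intro u v huv hu
    obtain ⟨u0, hu0⟩ := hHG u
    obtain ⟨v0, hv0⟩ := hHG v
    have h3 := hG u0 v0 (by rw [dd _ _ hu0, dd _ _ hv0, huv]) (by rw [dd _ _ hu0]; exact hu)
    exact (hu0.symm.trans h3).trans hv0
  have aw := sg_eq_away hGH hHG htot c hG
  by_cases hj : j = c + 1
  · rw [hj]
    have a1 := no_pos_T hGH hHG htot c hG hH aw
    have a2 := no_pos_T (G := H) (H := G)
      (fun v => by obtain ⟨w, hw⟩ := hHG v; exact ⟨w, hw.symm⟩)
      (fun v => by obtain ⟨w, hw⟩ := hGH v; exact ⟨w, hw.symm⟩)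
      htot.symm c hH hG (fun j hj => (aw j hj).symm)
    omega
  · exact aw j hj

/-- weighting by the ratio of the multiplicities -/
theorem transfer {G H : SimpleGraph V} (hHG : ∀ w, ∃ v, CI G H v w) (f g : V → ℚ)
    (h : ∀ w u, CI H G w u → g w = f u) :
    ∑ w, g w = ∑ u, ((cnt H G u : ℚ) / (cnt G G u : ℚ)) * f u := by
  have h1 : ∀ u, ((cnt H G u : ℚ) / (cnt G G u : ℚ)) * f u
      = ∑ w, ((ind (CI H G w u) : ℤ) : ℚ) * (g w / (cnt G G u : ℚ)) := by
    intro u
    unfold cnt
    push_cast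
    rw [Finset.sum_div, Finset.sum_mul]
    refine Finset.sum_congr rfl (fun w _ => ?_)
    by_cases hw : CI H G w u
    · rw [ind_true hw, h w u hw]; push_cast; ring
    · rw [ind_false hw]; push_cast; ring
  rw [Finset.sum_congr rfl (fun u _ => h1 u), Finset.sum_comm]
  refine Finset.sum_congr rfl (fun w _ => ?_)
  obtain ⟨u0, hu0⟩ := hHG w
  have hpos : (0 : ℤ) < cnt G G u0 := by
    unfold cnt
    have h2 : ind (CI G G u0 u0) ≤ ∑ y, ind (CI G G y u0) :=
      Finset.single_le_sum (f := fun y => ind (CI G G y u0)) (fun y _ => ind_nonneg _) (mem_univ u0)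
    rw [ind_true (CI.refl G u0)] at h2
    omega
  have h3 : ∀ u, ((ind (CI H G w u) : ℤ) : ℚ) * (g w / (cnt G G u : ℚ))
      = ((ind (CI G G u u0) : ℤ) : ℚ) * (g w / (cnt G G u0 : ℚ)) := by
    intro u
    by_cases hu : CI G G u u0
    · have hw : CI H G w u := hu0.symm.trans hu.symm
      have hc : cnt G G u = cnt G G u0 := by
        unfold cnt
        exact Finset.sum_congr rfl (fun x _ => ind_congr
          ⟨fun h => h.trans hu, fun h => h.trans hu.symm⟩)
      rw [ind_true hu, ind_true hw, hc]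
    · have hw : ¬ CI H G w u := fun h' => hu (h'.symm.trans hu0.symm)
      rw [ind_false hu, ind_false hw]; push_cast; ring
  rw [Finset.sum_congr rfl (fun u _ => h3 u), ← Finset.sum_mul]
  have h4 : ∑ u, ((ind (CI G G u u0) : ℤ) : ℚ) = (cnt G G u0 : ℚ) := by
    unfold cnt; push_cast; rfl
  rw [h4]
  have h5 : (cnt G G u0 : ℚ) ≠ 0 := by exact_mod_cast hpos.ne'
  field_simp

theorem card_deg_count (G : SimpleGraph V) (u : V) (k : ℤ) :
    ∑ x ∈ univ.erase u, ind (dg G x - ad G x u = k)
      = cls G k - nb G k u + nb G (k + 1) u - ind (dg G u = k) := by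
  rw [sum_erase_eq, ad_self, sub_zero]
  have h1 : ∀ x, ind (dg G x - ad G x u = k)
      = ind (dg G x = k) - ad G u x * ind (dg G x = k) + ad G u x * ind (dg G x = k + 1) := by
    intro x
    rw [ad_comm G x u]
    rcases ind_eq_one_or_zero (G.Adj u x) with h | h
    · rw [show ad G u x = 1 from h, ind_congr (show dg G x - 1 = k ↔ dg G x = k + 1 by omega)]
      ring
    · rw [show ad G u x = 0 from h, sub_zero]; ring
  rw [Finset.sum_congr rfl (fun x _ => h1 x), Finset.sum_add_distrib, Finset.sum_sub_distrib]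
  rfl

theorem cnt_eq_of_one_repeated [Nonempty V] {G H : SimpleGraph V}
    (hGH : ∀ v, ∃ w, CI G H v w) (hHG : ∀ w, ∃ v, CI G H v w) (htot : tot G = tot H)
    (c : ℤ) (hdist : ∀ u v, dg G u = dg G v → dg G u ≠ c → CI G G u v)
    (haff : ∀ a : V → ℚ, (∀ u v, CI G G u v → a u = a v) → (∀ u, dg G u ≠ c → a u = 0) →
      ∑ u, a u = 0 →
      (∀ k : ℤ, ∑ u, a u * ((∑ x ∈ univ.erase u, ind (dg G x - ad G x u = k) : ℤ) : ℚ) = 0) →
      ∀ u, a u = 0) (v0 : V) : cnt G G v0 = cnt H G v0 := by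
  have dd : ∀ v w, CI G H v w → dg G v = dg H w := fun v w h => dg_eq_of_ci htot h
  have hsg := sg_eq_one_repeated hGH hHG htot c hdist
  have hclg : ∀ l, clg G l = clg H l := by
    intro l
    rw [← sg_sub, ← sg_sub, hsg, hsg]
  have hcls : ∀ l, cls G l = cls H l := by
    intro l
    rw [cls_eq, cls_eq, hclg, hclg]
  have hnb : ∀ w u, CI H G w u → ∀ k, nb H k w = nb G k u := by
    intro w u h k
    have := nb_shift h (dd _ _ h.symm).symm k
    rw [hclg] at this
    linarith
  -- classes with one type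
  have hother : ∀ u, dg G u ≠ c → cnt G G u = cnt H G u := by
    intro u hu
    have h1 : ∀ x, CI G G x u ↔ dg G x = dg G u := fun x =>
      ⟨fun h => by have := tot_card h; omega, fun h => hdist x u h (by omega)⟩
    have h2 : ∀ x, CI H G x u ↔ dg H x = dg G u := by
      intro x
      constructor
      · intro h
        exact (dd _ _ h.symm).symm
      · intro h
        obtain ⟨v, hv⟩ := hHG x
        have h3 := dd _ _ hv
        exact hv.symm.trans (hdist v u (h3.trans h) (by omega))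
    unfold cnt
    rw [Finset.sum_congr rfl (fun x _ => ind_congr (h1 x)),
      Finset.sum_congr rfl (fun x _ => ind_congr (h2 x))]
    exact hcls (dg G u)
  have hpos : ∀ u, (cnt G G u : ℚ) ≠ 0 := by
    intro u
    have h0 : (0 : ℤ) < cnt G G u := by
      unfold cnt
      have h2 : ind (CI G G u u) ≤ ∑ y, ind (CI G G y u) :=
        Finset.single_le_sum (f := fun y => ind (CI G G y u)) (fun y _ => ind_nonneg _)
          (mem_univ u)
      rw [ind_true (CI.refl G u)] at h2
      omega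
    exact_mod_cast h0.ne'
  let a : V → ℚ := fun u => ((ind (dg G u = c) : ℤ) : ℚ) * (1 - (cnt H G u : ℚ) / (cnt G G u : ℚ))
  have hadef : ∀ u, a u = ((ind (dg G u = c) : ℤ) : ℚ)
      * (1 - (cnt H G u : ℚ) / (cnt G G u : ℚ)) := fun u => rfl
  have ha0 : ∀ u, dg G u ≠ c → a u = 0 := by
    intro u hu
    rw [hadef, ind_false hu]; push_cast; ring
  have hainv : ∀ u v, CI G G u v → a u = a v := by
    intro u v h
    have h1 : dg G u = dg G v := by have := tot_card h; omega
    have h2 : cnt G G u = cnt G G v := by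
      unfold cnt
      exact Finset.sum_congr rfl (fun x _ => ind_congr
        ⟨fun h' => h'.trans h, fun h' => h'.trans h.symm⟩)
    have h3 : cnt H G u = cnt H G v := by
      unfold cnt
      exact Finset.sum_congr rfl (fun x _ => ind_congr
        ⟨fun h' => h'.trans h, fun h' => h'.trans h.symm⟩)
    rw [hadef, hadef, h1, h2, h3]
  have hasum : ∑ u, a u = 0 := by
    have t1 := transfer hHG (fun u => ((ind (dg G u = c) : ℤ) : ℚ))
      (fun w => ((ind (dg H w = c) : ℤ) : ℚ)) (fun w u h => by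
        rw [dd _ _ h.symm])
    have t2 : ∑ u, a u = ∑ u, ((ind (dg G u = c) : ℤ) : ℚ)
        - ∑ u, ((cnt H G u : ℚ) / (cnt G G u : ℚ)) * ((ind (dg G u = c) : ℤ) : ℚ) := by
      rw [← Finset.sum_sub_distrib]
      exact Finset.sum_congr rfl (fun u _ => by rw [hadef]; ring)
    rw [t2, ← t1]
    have t3 : ((cls G c : ℤ) : ℚ) = ((cls H c : ℤ) : ℚ) := by rw [hcls c]
    unfold cls at t3
    push_cast at t3
    linarith
  have hanb : ∀ k, ∑ u, a u * (nb G k u : ℚ) = 0 := by
    intro k
    have t1 := transfer hHG (fun u => ((ind (dg G u = c) : ℤ) : ℚ) * (nb G k u : ℚ))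
      (fun w => ((ind (dg H w = c) : ℤ) : ℚ) * (nb H k w : ℚ)) (fun w u h => by
        rw [dd _ _ h.symm, hnb w u h k])
    have t1' := transfer hHG (fun u => (1 - ((ind (dg G u = c) : ℤ) : ℚ)) * (nb G k u : ℚ))
      (fun w => (1 - ((ind (dg H w = c) : ℤ) : ℚ)) * (nb H k w : ℚ)) (fun w u h => by
        rw [dd _ _ h.symm, hnb w u h k])
    have t4 : ∑ u, ((cnt H G u : ℚ) / (cnt G G u : ℚ))
          * ((1 - ((ind (dg G u = c) : ℤ) : ℚ)) * (nb G k u : ℚ))
        = ∑ u, (1 - ((ind (dg G u = c) : ℤ) : ℚ)) * (nb G k u : ℚ) := by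
      refine Finset.sum_congr rfl (fun u _ => ?_)
      by_cases hu : dg G u = c
      · rw [ind_true hu]; push_cast; ring
      · rw [ind_false hu, ← hother u hu, div_self (hpos u)]; push_cast; ring
    rw [t4] at t1'
    have t2 : ∑ u, a u * (nb G k u : ℚ) = ∑ u, ((ind (dg G u = c) : ℤ) : ℚ) * (nb G k u : ℚ)
        - ∑ u, ((cnt H G u : ℚ) / (cnt G G u : ℚ))
          * (((ind (dg G u = c) : ℤ) : ℚ) * (nb G k u : ℚ)) := by
      rw [← Finset.sum_sub_distrib]
      exact Finset.sum_congr rfl (fun u _ => by rw [hadef]; ring)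
    rw [t2, ← t1]
    have s1 : ∑ u, ((nb G k u : ℤ) : ℚ) = ∑ w, ((nb H k w : ℤ) : ℚ) := by
      have e1 := sum_nb G k
      have e2 := sum_nb H k
      rw [hcls k, ← e2] at e1
      exact_mod_cast e1
    have s2 : ∑ u, (1 - ((ind (dg G u = c) : ℤ) : ℚ)) * (nb G k u : ℚ)
        = ∑ u, ((nb G k u : ℤ) : ℚ) - ∑ u, ((ind (dg G u = c) : ℤ) : ℚ) * (nb G k u : ℚ) := by
      rw [← Finset.sum_sub_distrib]
      exact Finset.sum_congr rfl (fun u _ => by ring)
    have s3 : ∑ u, (1 - ((ind (dg H u = c) : ℤ) : ℚ)) * (nb H k u : ℚ)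
        = ∑ u, ((nb H k u : ℤ) : ℚ) - ∑ u, ((ind (dg H u = c) : ℤ) : ℚ) * (nb H k u : ℚ) := by
      rw [← Finset.sum_sub_distrib]
      exact Finset.sum_congr rfl (fun u _ => by ring)
    rw [s2, s3] at t1'
    linarith
  have hacard : ∀ k : ℤ, ∑ u, a u * ((∑ x ∈ univ.erase u, ind (dg G x - ad G x u = k) : ℤ) : ℚ)
      = 0 := by
    intro k
    have h1 : ∀ u, a u * ((∑ x ∈ univ.erase u, ind (dg G x - ad G x u = k) : ℤ) : ℚ)
        = a u * ((cls G k : ℚ) - ((ind (c = k) : ℤ) : ℚ)) - a u * (nb G k u : ℚ)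
          + a u * (nb G (k + 1) u : ℚ) := by
      intro u
      rw [card_deg_count]
      by_cases hu : dg G u = c
      · rw [hu]; push_cast; ring
      · rw [ha0 u hu]; ring
    rw [Finset.sum_congr rfl (fun u _ => h1 u), Finset.sum_add_distrib, Finset.sum_sub_distrib,
      ← Finset.sum_mul, hasum, hanb, hanb]
    ring
  have hfin := haff a hainv ha0 hasum hacard
  by_cases hv : dg G v0 = c
  · have h1 := hfin v0
    rw [hadef, ind_true hv] at h1
    push_cast at h1
    rw [one_mul] at h1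
    have h2 : (cnt H G v0 : ℚ) / (cnt G G v0 : ℚ) = 1 := by linarith
    rw [div_eq_one_iff_eq (hpos v0)] at h2
    exact_mod_cast h2.symm
  · exact hother v0 hv

end Pool.Agent.Helper373_CM
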