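import Pool.Agent.Helper373_CM.Wrap2
import Pool.Agent.Helper373_CM.OneRep

set_option autoImplicit false
set_option linter.unusedSectionVars false
set_option linter.unusedVariables false

namespace Pool.Agent.Helper373_CM

open Finset

variable {V : Type*} [Fintype V] [DecidableEq V]

theorem sum_compl_eq (u : V) (f : V → ℤ) :
    ∑ x : ({u}ᶜ : Set V), f x = ∑ x ∈ univ.erase u, f x := by
  classical
  refine (Finset.sum_subtype (univ.erase u) (fun x => ?_) f).symm
  simp

theorem card_dg (G : SimpleGraph V) (u : V) (x : ({u}ᶜ : Set V)) :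
    ((((G.induce ({u}ᶜ : Set V)).neighborSet x).ncard : ℕ) : ℤ) = dg G x - ad G x u := by
  classical
  have h1 : ((((G.induce ({u}ᶜ : Set V)).neighborSet x).ncard : ℕ) : ℤ)
      = ∑ y : ({u}ᶜ : Set V), ind ((G.induce ({u}ᶜ : Set V)).Adj x y) :=
    ncard_ind (fun y => (G.induce ({u}ᶜ : Set V)).Adj x y)
  rw [h1]
  have h2 : ∑ y : ({u}ᶜ : Set V), ind ((G.induce ({u}ᶜ : Set V)).Adj x y)
      = ∑ y : ({u}ᶜ : Set V), ad G x y := rfl
  rw [h2, sum_compl_eq u (fun y => ad G x y), sum_erase_eq]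
  rfl

/-- number of vertices of degree `k` in a card -/
theorem card_deg_ncard (G : SimpleGraph V) (u : V) (k : ℕ) :
    ((Set.ncard {x : ({u}ᶜ : Set V) |
      ((G.induce ({u}ᶜ : Set V)).neighborSet x).ncard = k} : ℕ) : ℤ)
      = ∑ x ∈ univ.erase u, ind (dg G x - ad G x u = (k : ℤ)) := by
  classical
  rw [ncard_ind, ← sum_compl_eq u (fun x => ind (dg G x - ad G x u = (k : ℤ)))]
  refine Finset.sum_congr rfl (fun x _ => ind_congr ?_)
  rw [← card_dg G u x]
  exact_mod_cast Iff.rfl

end Pool.Agent.Helper373_CM
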