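import Pool.Agent.Helper373_CM.DegSeq
import Pool.Agent.Helper373_CM.Wrap3

set_option autoImplicit false
set_option linter.unusedSectionVars false
set_option linter.unnecessarySeqFocus false
set_option linter.unusedVariables false

namespace Pool.Agent.Helper373_CM

open Finset

variable {V : Type*} [Fintype V] [DecidableEq V]

theorem sum_dg_fun {G H : SimpleGraph V} (hcls : ∀ k, cls G k = cls H k) (γ : ℤ → ℤ) :
    ∑ x, γ (dg G x) = ∑ x, γ (dg H x) := by
  have key : ∀ K : SimpleGraph V, ∑ x, γ (dg K x)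
      = ∑ k ∈ Finset.range (Fintype.card V + 1), γ (k : ℤ) * cls K (k : ℤ) := by
    intro K
    unfold cls
    simp only [Finset.mul_sum]
    rw [Finset.sum_comm]
    exact Finset.sum_congr rfl (fun x _ => (sum_range_ind (Fintype.card V) (dg K x)
      (dg_nonneg K x) (dg_le_card K x) γ).symm)
  rw [key, key]
  exact Finset.sum_congr rfl (fun k _ => by rw [hcls])

/-- sums over the vertices with degrees in a set of uniform degrees -/
theorem uni_sum {G H : SimpleGraph V} (hHG : ∀ w, ∃ v, CI G H v w) (htot : tot G = tot H)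
    (hcls : ∀ k, cls G k = cls H k) (P : ℤ → Prop) (f g : V → ℤ)
    (hf : ∀ x y, dg G x = dg G y → P (dg G x) → f x = f y)
    (hfg : ∀ v w, CI G H v w → f v = g w) :
    ∑ x, ind (P (dg G x)) * f x = ∑ x, ind (P (dg H x)) * g x := by
  obtain ⟨a, ha⟩ := exists_fun G P f hf
  have h1 : ∀ x, ind (P (dg G x)) * f x = ind (P (dg G x)) * a (dg G x) := by
    intro x
    by_cases hP : P (dg G x)
    · rw [ha x hP]
    · rw [ind_false hP]; ring
  have h2 : ∀ y, ind (P (dg H y)) * g y = ind (P (dg H y)) * a (dg H y) := by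
    intro y
    by_cases hP : P (dg H y)
    · obtain ⟨v, hv⟩ := hHG y
      have hd := dg_eq_of_ci htot hv
      rw [← hfg v y hv, ha v (by rw [hd]; exact hP), hd]
    · rw [ind_false hP]; ring
  rw [Finset.sum_congr rfl (fun x _ => h1 x), Finset.sum_congr rfl (fun x _ => h2 x)]
  exact sum_dg_fun hcls (fun k => ind (P k) * a k)

theorem exists_of_not_uni {G : SimpleGraph V} {k : ℤ} (h : ¬ Uni G k) : ∃ x, dg G x = k := by
  by_contra hno
  push Not at hno
  exact h (fun x y hx _ => absurd hx (hno x))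

/-- an interval around a nonuniform degree, bounded by gaps, without other nonuniform degrees -/
theorem isolate {G : SimpleGraph V}
    (hNU : ∀ j k, j < k → ¬ Uni G j → ¬ Uni G k → ∃ g, j < g ∧ g < k ∧ ∀ x, dg G x ≠ g)
    {j : ℤ} (hj : ¬ Uni G j) :
    ∃ a b, a ≤ j ∧ j < b ∧ Gap G a ∧ Gap G b ∧ ∀ k, a ≤ k → k < b → k ≠ j → Uni G k := by
  obtain ⟨a, ⟨ha1, ha2⟩, ha3⟩ := Int.exists_least_of_bdd
    (P := fun z => z ≤ j ∧ ∀ i, z ≤ i → i ≤ j → ∃ x, dg G x = i)
    ⟨0, fun z hz => by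
      obtain ⟨x, hx⟩ := hz.2 z (le_refl _) hz.1
      rw [← hx]; exact dg_nonneg G x⟩
    ⟨j, le_refl _, fun i h1 h2 => by
      rw [show i = j by omega]; exact exists_of_not_uni hj⟩
  obtain ⟨b, ⟨hb1, hb2⟩, hb3⟩ := Int.exists_least_of_bdd
    (P := fun z => j < z ∧ ∀ x, dg G x ≠ z) ⟨j, fun z hz => hz.1.le⟩
    ⟨(Fintype.card V : ℤ) + 1, by
      obtain ⟨x, hx⟩ := exists_of_not_uni hj
      have := dg_le_card G x
      omega, fun x => by have := dg_le_card G x; omega⟩
  have hocc : ∀ i, a ≤ i → i < b → ∃ x, dg G x = i := by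
    intro i h1 h2
    by_cases h3 : i ≤ j
    · exact ha2 i h1 h3
    · by_contra hno
      push Not at hno
      have := hb3 i ⟨by omega, hno⟩
      omega
  refine ⟨a, b, ha1, hb1, Or.inr ?_, Or.inl hb2, ?_⟩
  · intro x hx
    have := ha3 (a - 1) ⟨by omega, fun i h1 h2 => by
      by_cases h3 : i = a - 1
      · exact ⟨x, by rw [h3]; exact hx⟩
      · exact ha2 i (by omega) h2⟩
    omega
  · intro k h1 h2 h3
    by_contra hk
    rcases lt_or_gt_of_ne h3 with h4 | h4
    · obtain ⟨g, g1, g2, g3⟩ := hNU k j h4 hk hj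
      obtain ⟨x, hx⟩ := hocc g (by omega) (by omega)
      exact g3 x hx
    · obtain ⟨g, g1, g2, g3⟩ := hNU j k h4 hj hk
      obtain ⟨x, hx⟩ := hocc g (by omega) (by omega)
      exact g3 x hx

theorem box_eq (K : SimpleGraph V) {m1 m2 l1 l2 j k : ℤ} (hm1 : m1 ≤ j) (hm2 : j < m2)
    (hl1 : l1 ≤ k) (hl2 : k < l2) :
    Eg K m1 l1 - Eg K m2 l1 - Eg K m1 l2 + Eg K m2 l2
      = Ec K j k
        + ∑ x, ind (m1 ≤ dg K x ∧ dg K x < m2 ∧ dg K x ≠ j) * (nbg K l1 x - nbg K l2 x)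
        + ∑ x, ind (l1 ≤ dg K x ∧ dg K x < l2 ∧ dg K x ≠ k) * nb K j x := by
  have h0 : ∀ a b c d : ℤ, a ≤ c → c < b → ind (a ≤ d) - ind (b ≤ d)
      = ind (d = c) + ind (a ≤ d ∧ d < b ∧ d ≠ c) := by
    intro a b c d h1 h2
    by_cases h3 : a ≤ d
    · by_cases h4 : b ≤ d
      · rw [ind_true h3, ind_true h4, ind_false (by omega : ¬ d = c),
          ind_false (by omega : ¬ (a ≤ d ∧ d < b ∧ d ≠ c))]; ring
      · by_cases h5 : d = c
        · rw [ind_true h3, ind_false h4, ind_true h5,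
            ind_false (by omega : ¬ (a ≤ d ∧ d < b ∧ d ≠ c))]; ring
        · rw [ind_true h3, ind_false h4, ind_false h5,
            ind_true (by omega : (a ≤ d ∧ d < b ∧ d ≠ c))]; ring
    · rw [ind_false h3, ind_false (by omega : ¬ b ≤ d), ind_false (by omega : ¬ d = c),
        ind_false (by omega : ¬ (a ≤ d ∧ d < b ∧ d ≠ c))]; ring
  have h1 : Eg K m1 l1 - Eg K m2 l1 - Eg K m1 l2 + Eg K m2 l2
      = ∑ x, (ind (m1 ≤ dg K x) - ind (m2 ≤ dg K x)) * (nbg K l1 x - nbg K l2 x) := by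
    unfold Eg
    rw [← Finset.sum_sub_distrib, ← Finset.sum_sub_distrib, ← Finset.sum_add_distrib]
    exact Finset.sum_congr rfl (fun x _ => by ring)
  have h2 : ∀ x, nbg K l1 x - nbg K l2 x
      = nb K k x + ∑ y, ad K x y * ind (l1 ≤ dg K y ∧ dg K y < l2 ∧ dg K y ≠ k) := by
    intro x
    unfold nbg nb
    rw [← Finset.sum_sub_distrib, ← Finset.sum_add_distrib]
    refine Finset.sum_congr rfl (fun y _ => ?_)
    rw [← mul_sub, ← mul_add, h0 l1 l2 k (dg K y) hl1 hl2]
  have h3 : ∑ x, (ind (m1 ≤ dg K x) - ind (m2 ≤ dg K x)) * (nbg K l1 x - nbg K l2 x)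
      = ∑ x, ind (dg K x = j) * (nbg K l1 x - nbg K l2 x)
        + ∑ x, ind (m1 ≤ dg K x ∧ dg K x < m2 ∧ dg K x ≠ j) * (nbg K l1 x - nbg K l2 x) := by
    rw [← Finset.sum_add_distrib]
    refine Finset.sum_congr rfl (fun x _ => ?_)
    rw [← add_mul, h0 m1 m2 j (dg K x) hm1 hm2]
  have h4 : ∑ x, ind (dg K x = j) * (nbg K l1 x - nbg K l2 x)
      = Ec K j k + ∑ x, ind (l1 ≤ dg K x ∧ dg K x < l2 ∧ dg K x ≠ k) * nb K j x := by
    have e1 : ∑ x, ind (dg K x = j) * (nbg K l1 x - nbg K l2 x)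
        = ∑ x, ind (dg K x = j) * nb K k x
          + ∑ x, ind (dg K x = j) *
            ∑ y, ad K x y * ind (l1 ≤ dg K y ∧ dg K y < l2 ∧ dg K y ≠ k) := by
      rw [← Finset.sum_add_distrib]
      exact Finset.sum_congr rfl (fun x _ => by rw [h2 x]; ring)
    rw [e1]
    congr 1
    unfold nb
    simp only [Finset.mul_sum]
    rw [Finset.sum_comm]
    refine Finset.sum_congr rfl (fun x _ => Finset.sum_congr rfl (fun y _ => ?_))
    rw [ad_comm K y x]
    ring
  rw [h1, h3, h4]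
  ring

/-- the numbers of edges between degree classes are determined -/
theorem Ec_eq [Nonempty V] {G H : SimpleGraph V}
    (hGH : ∀ v, ∃ w, CI G H v w) (hHG : ∀ w, ∃ v, CI G H v w) (htot : tot G = tot H)
    (hNU : ∀ j k, j < k → ¬ Uni G j → ¬ Uni G k → ∃ g, j < g ∧ g < k ∧ ∀ x, dg G x ≠ g)
    (hsg : ∀ l, sg G l = sg H l) (j k : ℤ) : Ec G j k = Ec H j k := by
  have dd : ∀ v w, CI G H v w → dg G v = dg H w := fun v w h => dg_eq_of_ci htot h
  have hclg : ∀ l, clg G l = clg H l := by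
    intro l
    rw [← sg_sub, ← sg_sub, hsg, hsg]
  have hcls : ∀ l, cls G l = cls H l := by
    intro l
    rw [cls_eq, cls_eq, hclg, hclg]
  have hnb : ∀ v w, CI G H v w → ∀ i, nb G i v = nb H i w := by
    intro v w h i
    have := nb_shift h (dd _ _ h) i
    rw [hclg] at this
    linarith
  have hnbg : ∀ v w, CI G H v w → ∀ i, nbg G i v = nbg H i w := by
    intro v w h i
    have := nbg_shift h (dd _ _ h) i
    rw [hsg] at this
    linarith
  have hun : ∀ j k, Uni G j → Ec G j k = Ec H j k := by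
    intro j k hj
    exact uni_sum hHG htot hcls (fun i => i = j) (nb G k) (nb H k)
      (fun x y hxy hx => hj x y hx (by rw [← hxy]; exact hx) k) (fun v w h => hnb v w h k)
  by_cases hj : Uni G j
  · exact hun j k hj
  · by_cases hk : Uni G k
    · rw [Ec_symm, Ec_symm H]; exact hun k j hk
    · obtain ⟨m1, m2, hm1, hm2, gm1, gm2, um⟩ := isolate hNU hj
      obtain ⟨l1, l2, hl1, hl2, gl1, gl2, ul⟩ := isolate hNU hk
      have bG := box_eq G hm1 hm2 hl1 hl2
      have bH := box_eq H hm1 hm2 hl1 hl2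
      rw [Eg_eq_of_gap hGH hHG htot gm1 gl1, Eg_eq_of_gap hGH hHG htot gm2 gl1,
        Eg_eq_of_gap hGH hHG htot gm1 gl2, Eg_eq_of_gap hGH hHG htot gm2 gl2] at bG
      have s1 := uni_sum hHG htot hcls (fun i => m1 ≤ i ∧ i < m2 ∧ i ≠ j)
        (fun x => nbg G l1 x - nbg G l2 x) (fun x => nbg H l1 x - nbg H l2 x)
        (fun x y hxy hx => by
          have hu := um (dg G x) hx.1 hx.2.1 hx.2.2
          have h1 := nbg_of_uni G hu rfl hxy.symm l1
          have h2 := nbg_of_uni G hu rfl hxy.symm l2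
          rw [h1, h2])
        (fun v w h => by rw [hnbg v w h, hnbg v w h])
      have s2 := uni_sum hHG htot hcls (fun i => l1 ≤ i ∧ i < l2 ∧ i ≠ k) (nb G j) (nb H j)
        (fun x y hxy hx => ul (dg G x) hx.1 hx.2.1 hx.2.2 x y rfl hxy.symm j)
        (fun v w h => hnb v w h j)
      linarith

/-- multiplicities when the degree sequence and the numbers of edges between degree classes are
determined -/
theorem cnt_eq_of_affine [Nonempty V] {G H : SimpleGraph V}
    (hGH : ∀ v, ∃ w, CI G H v w) (hHG : ∀ w, ∃ v, CI G H v w) (htot : tot G = tot H)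
    (hsg : ∀ l, sg G l = sg H l) (v0 : V) (hEc : ∀ k, Ec G (dg G v0) k = Ec H (dg G v0) k)
    (haff : ∀ a : V → ℚ, (∀ u v, CI G G u v → a u = a v) → (∀ u, dg G u ≠ dg G v0 → a u = 0) →
      ∑ u, a u = 0 →
      (∀ k : ℤ, ∑ u, a u * ((∑ x ∈ univ.erase u, ind (dg G x - ad G x u = k) : ℤ) : ℚ) = 0) →
      a v0 = 0) : cnt G G v0 = cnt H G v0 := by
  have dd : ∀ v w, CI G H v w → dg G v = dg H w := fun v w h => dg_eq_of_ci htot h
  obtain ⟨c, hc⟩ : ∃ c, c = dg G v0 := ⟨_, rfl⟩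
  rw [← hc] at haff hEc
  have hclg : ∀ l, clg G l = clg H l := by
    intro l
    rw [← sg_sub, ← sg_sub, hsg, hsg]
  have hcls : ∀ l, cls G l = cls H l := by
    intro l
    rw [cls_eq, cls_eq, hclg, hclg]
  have hnb : ∀ w u, CI H G w u → ∀ k, nb H k w = nb G k u := by
    intro w u h k
    have := nb_shift h (dd _ _ h.symm).symm k
    rw [hclg] at this
    linarith
  have hpos : ∀ u, (cnt G G u : ℚ) ≠ 0 := by
    intro u
    have h0 : (0 : ℤ) < cnt G G u := by
      unfold cnt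
      have h2 : ind (CI G G u u) ≤ ∑ y, ind (CI G G y u) :=
        Finset.single_le_sum (f := fun y => ind (CI G G y u)) (fun y _ => ind_nonneg _)
          (mem_univ u)
      rw [ind_true (CI.refl G u)] at h2
      omega
    exact_mod_cast h0.ne'
  let a : V → ℚ := fun u => ((ind (dg G u = c) : ℤ) : ℚ) * (1 - (cnt H G u : ℚ) / (cnt G G u : ℚ))
  have hadef : ∀ u, a u = ((ind (dg G u = c) : ℤ) : ℚ)
      * (1 - (cnt H G u : ℚ) / (cnt G G u : ℚ)) := fun u => rfl
  have ha0 : ∀ u, dg G u ≠ c → a u = 0 := by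
    intro u hu
    rw [hadef, ind_false hu]; push_cast; ring
  have hainv : ∀ u v, CI G G u v → a u = a v := by
    intro u v h
    have h1 : dg G u = dg G v := by have := tot_card h; omega
    have h2 : cnt G G u = cnt G G v := by
      unfold cnt
      exact Finset.sum_congr rfl (fun x _ => ind_congr
        ⟨fun h' => h'.trans h, fun h' => h'.trans h.symm⟩)
    have h3 : cnt H G u = cnt H G v := by
      unfold cnt
      exact Finset.sum_congr rfl (fun x _ => ind_congr
        ⟨fun h' => h'.trans h, fun h' => h'.trans h.symm⟩)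
    rw [hadef, hadef, h1, h2, h3]
  have hasum : ∑ u, a u = 0 := by
    have t1 := transfer hHG (fun u => ((ind (dg G u = c) : ℤ) : ℚ))
      (fun w => ((ind (dg H w = c) : ℤ) : ℚ)) (fun w u h => by
        rw [dd _ _ h.symm])
    have t2 : ∑ u, a u = ∑ u, ((ind (dg G u = c) : ℤ) : ℚ)
        - ∑ u, ((cnt H G u : ℚ) / (cnt G G u : ℚ)) * ((ind (dg G u = c) : ℤ) : ℚ) := by
      rw [← Finset.sum_sub_distrib]
      exact Finset.sum_congr rfl (fun u _ => by rw [hadef]; ring)
    rw [t2, ← t1]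
    have t3 : ((cls G c : ℤ) : ℚ) = ((cls H c : ℤ) : ℚ) := by rw [hcls c]
    unfold cls at t3
    push_cast at t3
    linarith
  have hanb : ∀ k, ∑ u, a u * (nb G k u : ℚ) = 0 := by
    intro k
    have t1 := transfer hHG (fun u => ((ind (dg G u = c) : ℤ) : ℚ) * (nb G k u : ℚ))
      (fun w => ((ind (dg H w = c) : ℤ) : ℚ) * (nb H k w : ℚ)) (fun w u h => by
        rw [dd _ _ h.symm, hnb w u h k])
    have t2 : ∑ u, a u * (nb G k u : ℚ) = ∑ u, ((ind (dg G u = c) : ℤ) : ℚ) * (nb G k u : ℚ)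
        - ∑ u, ((cnt H G u : ℚ) / (cnt G G u : ℚ))
          * (((ind (dg G u = c) : ℤ) : ℚ) * (nb G k u : ℚ)) := by
      rw [← Finset.sum_sub_distrib]
      exact Finset.sum_congr rfl (fun u _ => by rw [hadef]; ring)
    rw [t2, ← t1]
    have t3 : ((Ec G c k : ℤ) : ℚ) = ((Ec H c k : ℤ) : ℚ) := by rw [hEc k]
    unfold Ec at t3
    push_cast at t3
    linarith
  have hacard : ∀ k : ℤ, ∑ u, a u * ((∑ x ∈ univ.erase u, ind (dg G x - ad G x u = k) : ℤ) : ℚ)
      = 0 := by
    intro k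
    have h1 : ∀ u, a u * ((∑ x ∈ univ.erase u, ind (dg G x - ad G x u = k) : ℤ) : ℚ)
        = a u * ((cls G k : ℚ) - ((ind (c = k) : ℤ) : ℚ)) - a u * (nb G k u : ℚ)
          + a u * (nb G (k + 1) u : ℚ) := by
      intro u
      rw [card_deg_count]
      by_cases hu : dg G u = c
      · rw [hu]; push_cast; ring
      · rw [ha0 u hu]; ring
    rw [Finset.sum_congr rfl (fun u _ => h1 u), Finset.sum_add_distrib, Finset.sum_sub_distrib,
      ← Finset.sum_mul, hasum, hanb, hanb]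
    ring
  have h1 := haff a hainv ha0 hasum hacard
  rw [hadef, ind_true hc.symm] at h1
  push_cast at h1
  rw [one_mul] at h1
  have h2 : (cnt H G v0 : ℚ) / (cnt G G v0 : ℚ) = 1 := by linarith
  rw [div_eq_one_iff_eq (hpos v0)] at h2
  exact_mod_cast h2.symm

theorem cnt_eq_of_runs [Nonempty V] {G H : SimpleGraph V}
    (hGH : ∀ v, ∃ w, CI G H v w) (hHG : ∀ w, ∃ v, CI G H v w) (htot : tot G = tot H)
    (hNU : ∀ j k, j < k → ¬ Uni G j → ¬ Uni G k → ∃ g, j < g ∧ g < k ∧ ∀ x, dg G x ≠ g)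
    (v0 : V)
    (haff : ∀ a : V → ℚ, (∀ u v, CI G G u v → a u = a v) → (∀ u, dg G u ≠ dg G v0 → a u = 0) →
      ∑ u, a u = 0 →
      (∀ k : ℤ, ∑ u, a u * ((∑ x ∈ univ.erase u, ind (dg G x - ad G x u = k) : ℤ) : ℚ) = 0) →
      a v0 = 0) : cnt G G v0 = cnt H G v0 := by
  have hsg := sg_eq_runs hGH hHG htot (fun j k h1 h2 h3 => Or.inl (hNU j k h1 h2 h3))
  exact cnt_eq_of_affine hGH hHG htot hsg v0
    (fun k => Ec_eq hGH hHG htot hNU hsg _ k) haff

/-- translation: numbers of neighbours of each degree -/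
theorem uni_iff_ncard (G : SimpleGraph V) (k : ℤ) :
    (∀ x y, dg G x = k → dg G y = k → ∀ j : ℕ,
      Set.ncard {z : V | G.Adj x z ∧ (G.neighborSet z).ncard = j}
        = Set.ncard {z : V | G.Adj y z ∧ (G.neighborSet z).ncard = j}) → Uni G k := by
  intro h x y hx hy j
  by_cases hj : 0 ≤ j
  · obtain ⟨m, hm⟩ : ∃ m : ℕ, j = m := ⟨j.toNat, by omega⟩
    rw [hm, ← nb_ncard, ← nb_ncard, h x y hx hy m]
  · have z : ∀ u, nb G j u = 0 := by
      intro u
      unfold nb
      exact Finset.sum_eq_zero (fun z _ => by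
        rw [ind_false (show ¬ dg G z = j by have := dg_nonneg G z; omega)]; ring)
    rw [z, z]

theorem exists_of_not_uni' {G : SimpleGraph V} {k : ℤ} (h : ¬ Uni G k) :
    ∃ x y, dg G x = k ∧ dg G y = k ∧ ∃ j : ℕ,
      Set.ncard {z : V | G.Adj x z ∧ (G.neighborSet z).ncard = j}
        ≠ Set.ncard {z : V | G.Adj y z ∧ (G.neighborSet z).ncard = j} := by
  by_contra hno
  push Not at hno
  exact h (uni_iff_ncard G k (fun x y hx hy j => hno x y hx hy j))

end Pool.Agent.Helper373_CM
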