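import Pool.Agent.Helper373_CM.DegSeq2

set_option autoImplicit false
set_option linter.unusedSectionVars false
set_option linter.unusedVariables false

namespace Pool.Agent.Helper373_CM

open Finset

variable {V : Type*} [Fintype V] [DecidableEq V]

/-- the number of cards with `e` edges -/
theorem edge_count [Nonempty V] {G H : SimpleGraph V}
    (hGH : ∀ v, ∃ w, CI G H v w) (hHG : ∀ w, ∃ v, CI G H v w) (htot : tot G = tot H)
    (hNU : ∀ j k, j < k → ¬ Uni G j → ¬ Uni G k →
      (∃ g, j < g ∧ g < k ∧ ∀ x, dg G x ≠ g) ∨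
      (k = j + 1 ∧ (∀ x, dg G x ≠ j - 1) ∧ (∀ x, dg G x ≠ k + 1))) (e : ℕ) :
    Set.ncard {v : V | (G.induce ({v}ᶜ : Set V)).edgeSet.ncard = e}
      = Set.ncard {v : V | (H.induce ({v}ᶜ : Set V)).edgeSet.ncard = e} := by
  have hsg := sg_eq_runs hGH hHG htot hNU
  have hclg : ∀ l, clg G l = clg H l := by
    intro l
    rw [← sg_sub, ← sg_sub, hsg, hsg]
  have hcls : ∀ l, cls G l = cls H l := by
    intro l
    rw [cls_eq, cls_eq, hclg, hclg]
  have key : ∀ K : SimpleGraph V, tot K = tot G →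
      ((Set.ncard {v : V | (K.induce ({v}ᶜ : Set V)).edgeSet.ncard = e} : ℕ) : ℤ)
        = ∑ x, ind (tot G - 2 * dg K x = 2 * (e : ℤ)) := by
    intro K hK
    rw [ncard_ind]
    refine Finset.sum_congr rfl (fun x _ => ind_congr ?_)
    have h1 := card_edges K x
    rw [hK] at h1
    omega
  have h1 := sum_dg_fun hcls (fun k => ind (tot G - 2 * k = 2 * (e : ℤ)))
  rw [← key G rfl, ← key H htot.symm] at h1
  exact_mod_cast h1

end Pool.Agent.Helper373_CM
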