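import Pool.Agent.Helper373_CM.BidegR

set_option autoImplicit false
set_option linter.unusedSectionVars false
set_option linter.unnecessarySeqFocus false
set_option linter.unusedVariables false

namespace Pool.Agent.Helper373_CM

open Finset

variable {V : Type*} [Fintype V] [DecidableEq V]

theorem nbg_iso {X G : SimpleGraph V} {σ : Equiv.Perm V}
    (h : ∀ x y, X.Adj x y ↔ G.Adj (σ x) (σ y)) (l : ℤ) (x : V) : nbg X l x = nbg G l (σ x) := by
  unfold nbg
  rw [← Equiv.sum_comp σ (fun y => ad G (σ x) y * ind (l ≤ dg G y))]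
  refine Finset.sum_congr rfl (fun y _ => ?_)
  rw [dg_iso h y, show ad X x y = ad G (σ x) (σ y) from ind_congr (h x y)]

theorem clg_iso {X G : SimpleGraph V} {σ : Equiv.Perm V}
    (h : ∀ x y, X.Adj x y ↔ G.Adj (σ x) (σ y)) (l : ℤ) : clg X l = clg G l := by
  unfold clg
  rw [← Equiv.sum_comp σ (fun y => ind (l ≤ dg G y))]
  exact Finset.sum_congr rfl (fun y _ => by rw [dg_iso h y])

/-- in the equitable case the function `sg` is determined by the set of cards -/
theorem sg_eq_of_equitable [Nonempty V] {G H : SimpleGraph V}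
    (hGH : ∀ v, ∃ w, CI G H v w) (hHG : ∀ w, ∃ v, CI G H v w) (htot : tot G = tot H)
    (q : ℤ → ℤ → ℤ) (hq : ∀ x l, nbg G l x = q l (dg G x)) (l : ℤ) : sg G l = sg H l := by
  have dd : ∀ v w, CI G H v w → dg G v = dg H w := fun v w h => dg_eq_of_ci htot h
  obtain ⟨c, -, hc⟩ := Finset.exists_max_image (univ : Finset V) (dg G) univ_nonempty
  have hGΔ : ∀ x, dg G x ≤ dg G c := fun x => hc x (mem_univ x)
  have hHΔ : ∀ x, dg H x ≤ dg G c := by
    intro x
    obtain ⟨v, hv⟩ := hHG x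
    rw [← dd _ _ hv]; exact hGΔ v
  have key : ∀ i : ℕ, sg G (dg G c + 1 - i) = sg H (dg G c + 1 - i) := by
    intro i
    induction i with
    | zero =>
      rw [sg_high G _ (fun x => by have := hGΔ x; push_cast; omega),
        sg_high H _ (fun x => by have := hHΔ x; push_cast; omega)]
    | succ i ih =>
      by_cases h1 : ∃ x, dg G x < dg G c + 1 - ((i + 1 : ℕ) : ℤ)
      · have := psi_step hGH hHG htot (dg G c + 1 - ((i + 1 : ℕ) : ℤ))
          (q (dg G c + 1 - ((i + 1 : ℕ) : ℤ))) (fun x _ => hq x _) h1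
          ⟨c, by push_cast; omega⟩
        rw [show dg G c + 1 - ((i + 1 : ℕ) : ℤ) + 1 = dg G c + 1 - (i : ℤ) by push_cast; ring,
          ih] at this
        linarith
      · push Not at h1
        rw [sg_low G _ (fun x => by have := h1 x; omega), sg_low H _ (fun x => by
          obtain ⟨v, hv⟩ := hHG x
          rw [← dd _ _ hv]
          have := h1 v; omega), htot]
  rcases le_or_gt l (dg G c + 1) with h | h
  · obtain ⟨i, hi⟩ : ∃ i : ℕ, l = dg G c + 1 - i := ⟨(dg G c + 1 - l).toNat, by omega⟩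
    rw [hi]; exact key i
  · rw [sg_high G _ (fun x => by have := hGΔ x; omega),
      sg_high H _ (fun x => by have := hHΔ x; omega)]

theorem cnt_eq_of_equitable [Nonempty V] {G H : SimpleGraph V}
    (hGH : ∀ v, ∃ w, CI G H v w) (hHG : ∀ w, ∃ v, CI G H v w) (htot : tot G = tot H)
    (heq : ∀ u v, dg G u = dg G v → ∀ l, nbg G l u = nbg G l v)
    (hgap : ∀ x y z, dg G y = dg G x + 1 → dg G z ≠ dg G x + 2) (v0 : V) :
    cnt G G v0 = cnt H G v0 := by
  classical
  by_cases hiso : IsoTo G H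
  · exact cnt_iso hiso v0
  have dd : ∀ v w, CI G H v w → dg G v = dg H w := fun v w h => dg_eq_of_ci htot h
  -- the parameters
  obtain ⟨q, hq⟩ : ∃ q : ℤ → ℤ → ℤ, ∀ x l, nbg G l x = q l (dg G x) := by
    refine ⟨fun l k => if h : ∃ x, dg G x = k then nbg G l h.choose else 0, fun x l => ?_⟩
    have h : ∃ y, dg G y = dg G x := ⟨x, rfl⟩
    simp only
    rw [dif_pos h]
    exact heq x _ h.choose_spec.symm l
  have hsg := sg_eq_of_equitable hGH hHG htot q hq
  have hqH : ∀ y l, nbg H l y = q l (dg H y) := by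
    intro y l
    obtain ⟨v, hv⟩ := hHG y
    have h1 := nbg_shift hv (dd _ _ hv) l
    rw [hsg l, hq, dd _ _ hv] at h1
    linarith
  have hclg : ∀ l, clg G l = clg H l := by
    intro l
    rw [← sg_sub, ← sg_sub, hsg, hsg]
  let F : Set (SimpleGraph V) := {X | IsoTo X G ∨ IsoTo X H}
  let R : ℤ → Prop := fun k => ∃ x, dg G x = k
  have hF : FamE F R q := by
    refine ⟨?_, ?_, ?_, ?_, ?_⟩
    · rintro X (⟨σ, hσ⟩ | ⟨σ, hσ⟩) x
      · exact ⟨σ x, (dg_iso hσ x).symm⟩
      · obtain ⟨v, hv⟩ := hHG (σ x)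
        exact ⟨v, by rw [dg_iso hσ x, dd _ _ hv]⟩
    · rintro X (⟨σ, hσ⟩ | ⟨σ, hσ⟩) x l
      · rw [nbg_iso hσ, hq, dg_iso hσ]
      · rw [nbg_iso hσ, hqH, dg_iso hσ]
    · rintro X (hX | hX) v
      · obtain ⟨σ, hσ⟩ := hX.ci
        obtain ⟨w, hw⟩ := hGH (σ v)
        obtain ⟨Y, hY, hs⟩ := extend ((hσ v).trans hw)
        refine ⟨Y, Or.inr hY, ?_, hs⟩
        intro h
        exact hiso (hX.symm.trans (h ▸ hY))
      · obtain ⟨σ, hσ⟩ := hX.ci
        obtain ⟨w, hw⟩ := hHG (σ v)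
        obtain ⟨Y, hY, hs⟩ := extend ((hσ v).trans hw.symm)
        refine ⟨Y, Or.inl hY, ?_, hs⟩
        intro h
        exact hiso (hY.symm.trans (h ▸ hX))
    · have key : ∀ X ∈ F, tot X = tot G := by
        rintro X (hX | hX)
        · exact tot_iso hX
        · rw [tot_iso hX, htot]
      intro X hX Y hY
      rw [key X hX, key Y hY]
    · have key : ∀ X ∈ F, ∀ l, clg X l = clg G l := by
        rintro X (⟨σ, hσ⟩ | ⟨σ, hσ⟩) l
        · exact clg_iso hσ l
        · rw [clg_iso hσ l, hclg]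
      intro X hX Y hY l
      rw [key X hX, key Y hY]
  have gap : ∀ k, R (k - 1) → R k → ¬ R (k + 1) := by
    rintro k ⟨x, hx⟩ ⟨y, hy⟩ ⟨z, hz⟩
    exact hgap x y z (by omega) (by omega)
  refine cnt_eq_of_unique hGH hHG ?_ ?_ v0
  · intro X Y Z v hX hY hZ h1 h2
    by_contra hne
    refine no_three_E hF gap (X := X) (X1 := Y) (X2 := Z) (Or.inl hX) (Or.inr hY) (Or.inr hZ)
      ?_ ?_ (Ne.symm hne) h1 h2
    · intro h; exact hiso (hX.symm.trans (h ▸ hY))
    · intro h; exact hiso (hX.symm.trans (h ▸ hZ))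
  · intro X Y Z v hX hY hZ h1 h2
    by_contra hne
    refine no_three_E hF gap (X := X) (X1 := Y) (X2 := Z) (Or.inr hX) (Or.inl hY) (Or.inl hZ)
      ?_ ?_ (Ne.symm hne) h1 h2
    · intro h; exact hiso (hY.symm.trans (h ▸ hX))
    · intro h; exact hiso (hZ.symm.trans (h ▸ hX))

end Pool.Agent.Helper373_CM
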