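import Pool.Agent.Helper373_CM.Level2
import Pool.Agent.Helper373_CM.DegSeq3

set_option autoImplicit false
set_option linter.unusedSectionVars false
set_option linter.unnecessarySeqFocus false
set_option linter.unusedVariables false

namespace Pool.Agent.Helper373_CM

open Finset

variable {V : Type*} [Fintype V] [DecidableEq V]

/-- without three consecutive degrees the degree sequence is determined -/
theorem sg_eq_no_three [Nonempty V] {G H : SimpleGraph V}
    (hGH : ∀ v, ∃ w, CI G H v w) (hHG : ∀ w, ∃ v, CI G H v w) (htot : tot G = tot H)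
    (hgap : ∀ x y z, dg G y = dg G x + 1 → dg G z ≠ dg G x + 2) (l : ℤ) : sg G l = sg H l := by
  refine sg_eq_runs hGH hHG htot (fun j k hjk hj hk => ?_) l
  obtain ⟨x, hx⟩ := exists_of_not_uni hj
  obtain ⟨y, hy⟩ := exists_of_not_uni hk
  by_cases h1 : ∃ z, dg G z = j + 1
  · obtain ⟨z, hz⟩ := h1
    by_cases h2 : k = j + 1
    · refine Or.inr ⟨h2, fun t ht => hgap t x z (by omega) (by omega), fun t ht =>
        hgap x z t (by omega) (by omega)⟩
    · have h3 : k ≠ j + 2 := fun h => hgap x z y (by omega) (by omega)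
      exact Or.inl ⟨j + 2, by omega, by omega, fun t ht => hgap x z t (by omega) (by omega)⟩
  · push Not at h1
    have h3 : k ≠ j + 1 := fun h => h1 y (by omega)
    exact Or.inl ⟨j + 1, by omega, by omega, h1⟩

theorem cnt_eq_of_equitable2 [Nonempty V] {G H : SimpleGraph V}
    (hGH : ∀ v, ∃ w, CI G H v w) (hHG : ∀ w, ∃ v, CI G H v w) (htot : tot G = tot H)
    (heq : ∀ u v, dg G u = dg G v →
      ((∃ x, dg G x = dg G u - 1) ∨ (∃ x, dg G x = dg G u + 1)) → ∀ l, nbg G l u = nbg G l v)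
    (hgap : ∀ x y z, dg G y = dg G x + 1 → dg G z ≠ dg G x + 2) (v0 : V) :
    cnt G G v0 = cnt H G v0 := by
  classical
  by_cases hiso : IsoTo G H
  · exact cnt_iso hiso v0
  have dd : ∀ v w, CI G H v w → dg G v = dg H w := fun v w h => dg_eq_of_ci htot h
  let R : ℤ → Prop := fun k => ∃ x, dg G x = k
  have hsg := sg_eq_no_three hGH hHG htot hgap
  -- the parameters
  obtain ⟨q, hq⟩ : ∃ q : ℤ → ℤ → ℤ, ∀ x l, (R (dg G x - 1) ∨ R (dg G x + 1)) →
      nbg G l x = q l (dg G x) := by
    refine ⟨fun l k => if h : ∃ x, dg G x = k then nbg G l h.choose else 0, fun x l hx => ?_⟩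
    have h : ∃ y, dg G y = dg G x := ⟨x, rfl⟩
    simp only
    rw [dif_pos h]
    exact heq x _ h.choose_spec.symm hx l
  have hqH : ∀ y l, (R (dg H y - 1) ∨ R (dg H y + 1)) → nbg H l y = q l (dg H y) := by
    intro y l hy
    obtain ⟨v, hv⟩ := hHG y
    have h1 := nbg_shift hv (dd _ _ hv) l
    rw [hsg l, hq v l (by rw [dd _ _ hv]; exact hy), dd _ _ hv] at h1
    linarith
  have hclg : ∀ l, clg G l = clg H l := by
    intro l
    rw [← sg_sub, ← sg_sub, hsg, hsg]
  let F : Set (SimpleGraph V) := {X | IsoTo X G ∨ IsoTo X H}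
  have hF : FamW F R q := by
    refine ⟨?_, ?_, ?_, ?_, ?_⟩
    · rintro X (⟨σ, hσ⟩ | ⟨σ, hσ⟩) x
      · exact ⟨σ x, (dg_iso hσ x).symm⟩
      · obtain ⟨v, hv⟩ := hHG (σ x)
        exact ⟨v, by rw [dg_iso hσ x, dd _ _ hv]⟩
    · rintro X (⟨σ, hσ⟩ | ⟨σ, hσ⟩) x l hx
      · rw [dg_iso hσ] at hx
        rw [nbg_iso hσ, hq _ _ hx, dg_iso hσ]
      · rw [dg_iso hσ] at hx
        rw [nbg_iso hσ, hqH _ _ hx, dg_iso hσ]
    · rintro X (hX | hX) v
      · obtain ⟨σ, hσ⟩ := hX.ci
        obtain ⟨w, hw⟩ := hGH (σ v)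
        obtain ⟨Y, hY, hs⟩ := extend ((hσ v).trans hw)
        refine ⟨Y, Or.inr hY, ?_, hs⟩
        intro h
        exact hiso (hX.symm.trans (h ▸ hY))
      · obtain ⟨σ, hσ⟩ := hX.ci
        obtain ⟨w, hw⟩ := hHG (σ v)
        obtain ⟨Y, hY, hs⟩ := extend ((hσ v).trans hw.symm)
        refine ⟨Y, Or.inl hY, ?_, hs⟩
        intro h
        exact hiso (hY.symm.trans (h ▸ hX))
    · have key : ∀ X ∈ F, tot X = tot G := by
        rintro X (hX | hX)
        · exact tot_iso hX
        · rw [tot_iso hX, htot]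
      intro X hX Y hY
      rw [key X hX, key Y hY]
    · have key : ∀ X ∈ F, ∀ l, clg X l = clg G l := by
        rintro X (⟨σ, hσ⟩ | ⟨σ, hσ⟩) l
        · exact clg_iso hσ l
        · rw [clg_iso hσ l, hclg]
      intro X hX Y hY l
      rw [key X hX, key Y hY]
  have gap : ∀ k, R (k - 1) → R k → ¬ R (k + 1) := by
    rintro k ⟨x, hx⟩ ⟨y, hy⟩ ⟨z, hz⟩
    exact hgap x y z (by omega) (by omega)
  -- no isolated degrees
  have hni : ∀ x, R (dg G x - 1) ∨ R (dg G x + 1) := by
    intro v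
    by_contra hno
    push Not at hno
    have hG : G ∈ F := Or.inl (IsoTo.refl G)
    obtain ⟨Y, hY, hYG, hs⟩ := hF.part G hG v
    have hex : ∃ l, ∃ y, lev G Y l y ≠ 0 := by
      by_contra hno'
      push Not at hno'
      apply hYG
      refine (graph_ext hs (fun y => ?_)).symm
      have h1 := hF.dgx hG hY hs y
      rcases hF.tri hG hY hs y with h | ⟨h, -⟩ | ⟨h, -⟩
      · omega
      · exfalso
        have := hno' (dg G y) y
        unfold lev at this
        rw [ind_true (le_refl _), ind_false (by omega)] at this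
        norm_num at this
      · exfalso
        have := hno' (dg G y + 1) y
        unfold lev at this
        rw [ind_false (by omega), ind_true (by omega)] at this
        norm_num at this
    obtain ⟨l, hl⟩ := hex
    obtain ⟨-, -, -, r1, r2⟩ := hF.active hG hY hs hl
    rcases hF.stepA gap hG hY hs hl with h | h
    · exact hno.1 (by rw [h]; exact r2)
    · exact hno.2 (by rw [h, sub_add_cancel]; exact r1)
  have hRn : ∀ k, R k → (R (k - 1) ∨ R (k + 1)) := by
    rintro k ⟨x, hx⟩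
    have := hni x
    rw [hx] at this
    exact this
  have hE : FamE F R q :=
    ⟨hF.deg, fun X hX x l => hF.nbr X hX x l (hRn _ (hF.deg X hX x)), hF.part, hF.tots, hF.clgs⟩
  refine cnt_eq_of_unique hGH hHG ?_ ?_ v0
  · intro X Y Z v hX hY hZ h1 h2
    by_contra hne
    refine no_three_E hE gap (X := X) (X1 := Y) (X2 := Z) (Or.inl hX) (Or.inr hY) (Or.inr hZ)
      ?_ ?_ (Ne.symm hne) h1 h2
    · intro h; exact hiso (hX.symm.trans (h ▸ hY))
    · intro h; exact hiso (hX.symm.trans (h ▸ hZ))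
  · intro X Y Z v hX hY hZ h1 h2
    by_contra hne
    refine no_three_E hE gap (X := X) (X1 := Y) (X2 := Z) (Or.inr hX) (Or.inl hY) (Or.inl hZ)
      ?_ ?_ (Ne.symm hne) h1 h2
    · intro h; exact hiso (hY.symm.trans (h ▸ hX))
    · intro h; exact hiso (hZ.symm.trans (h ▸ hX))

end Pool.Agent.Helper373_CM
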