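import Pool.Agent.Helper373_CM.PairShift

set_option autoImplicit false
set_option linter.unusedSectionVars false
set_option linter.unnecessarySeqFocus false
set_option linter.unusedVariables false

namespace Pool.Agent.Helper373_CM

open Finset

variable {V : Type*} [Fintype V] [DecidableEq V]

/-- A family of labelled graphs with equitable degree partitions with common parameters, such that
every card extends in a second way. The set `R` contains the degrees. -/
structure FamE (F : Set (SimpleGraph V)) (R : ℤ → Prop) (q : ℤ → ℤ → ℤ) : Prop where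
  deg : ∀ X ∈ F, ∀ x, R (dg X x)
  nbr : ∀ X ∈ F, ∀ x l, nbg X l x = q l (dg X x)
  part : ∀ X ∈ F, ∀ v, ∃ Y ∈ F, Y ≠ X ∧ Same X Y v
  tots : ∀ X ∈ F, ∀ Y ∈ F, tot X = tot Y
  clgs : ∀ X ∈ F, ∀ Y ∈ F, ∀ l, clg X l = clg Y l

/-- level `l` of the difference of `X` and `Y` -/
noncomputable def lev (X Y : SimpleGraph V) (l : ℤ) (x : V) : ℤ :=
  ind (l ≤ dg X x) - ind (l ≤ dg Y x)

/-- number of neighbours of `v` in the positive part of level `l` -/
noncomputable def lvs (X Y : SimpleGraph V) (v : V) (l : ℤ) : ℤ := ∑ y, ad X v y * lev X Y l y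

section pairs

variable {F : Set (SimpleGraph V)} {R : ℤ → Prop} {q : ℤ → ℤ → ℤ}

theorem FamE.dgv (hF : FamE F R q) {X Y : SimpleGraph V} (hX : X ∈ F) (hY : Y ∈ F) {v : V}
    (hs : Same X Y v) : dg X v = dg Y v := by
  have h1 := tot_card hs.ci
  have h2 := hF.tots X hX Y hY
  omega

theorem FamE.dgx (hF : FamE F R q) {X Y : SimpleGraph V} (hX : X ∈ F) (hY : Y ∈ F) {v : V}
    (hs : Same X Y v) (x : V) : dg X x - dg Y x = ad X v x - ad Y v x := by
  by_cases hx : x = v
  · rw [hx, ad_self, ad_self, hF.dgv hX hY hs]; ring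
  · have := hs.dg hx
    rw [ad_comm X x v, ad_comm Y x v] at this
    linarith

/-- the three possibilities for a vertex -/
theorem FamE.tri (hF : FamE F R q) {X Y : SimpleGraph V} (hX : X ∈ F) (hY : Y ∈ F) {v : V}
    (hs : Same X Y v) (x : V) : dg X x = dg Y x ∨ (dg X x = dg Y x + 1 ∧ X.Adj v x) ∨
      (dg Y x = dg X x + 1 ∧ ¬ X.Adj v x) := by
  have h := hF.dgx hX hY hs x
  by_cases hA : X.Adj v x
  · rw [show ad X v x = 1 from ind_true hA] at h
    rcases ind_eq_one_or_zero (Y.Adj v x) with e | e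
    · rw [show ad Y v x = 1 from e] at h; left; omega
    · rw [show ad Y v x = 0 from e] at h; right; left; exact ⟨by omega, hA⟩
  · rw [show ad X v x = 0 from ind_false hA] at h
    rcases ind_eq_one_or_zero (Y.Adj v x) with e | e
    · rw [show ad Y v x = 1 from e] at h; right; right; exact ⟨by omega, hA⟩
    · rw [show ad Y v x = 0 from e] at h; left; omega

theorem FamE.lev_cases (hF : FamE F R q) {X Y : SimpleGraph V} (hX : X ∈ F) (hY : Y ∈ F) {v : V}
    (hs : Same X Y v) (l : ℤ) (x : V) : lev X Y l x = 0 ∨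
      (lev X Y l x = 1 ∧ dg X x = l ∧ dg Y x = l - 1 ∧ X.Adj v x) ∨
      (lev X Y l x = -1 ∧ dg X x = l - 1 ∧ dg Y x = l ∧ ¬ X.Adj v x) := by
  unfold lev
  rcases hF.tri hX hY hs x with h | ⟨h, h'⟩ | ⟨h, h'⟩
  · left; rw [h]; ring
  · by_cases hl : dg X x = l
    · right; left
      rw [ind_true (by omega), ind_false (by omega)]
      exact ⟨by norm_num, hl, by omega, h'⟩
    · left
      rw [ind_congr (show l ≤ dg X x ↔ l ≤ dg Y x by omega)]; ring
  · by_cases hl : dg Y x = l
    · right; right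
      rw [ind_false (by omega), ind_true (by omega)]
      exact ⟨by norm_num, by omega, hl, h'⟩
    · left
      rw [ind_congr (show l ≤ dg X x ↔ l ≤ dg Y x by omega)]; ring

theorem FamE.lev_v (hF : FamE F R q) {X Y : SimpleGraph V} (hX : X ∈ F) (hY : Y ∈ F) {v : V}
    (hs : Same X Y v) (l : ℤ) : lev X Y l v = 0 := by
  unfold lev
  rw [hF.dgv hX hY hs]; ring

theorem FamE.lev_sum (hF : FamE F R q) {X Y : SimpleGraph V} (hX : X ∈ F) (hY : Y ∈ F)
    (l : ℤ) : ∑ x, lev X Y l x = 0 := by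
  unfold lev
  rw [Finset.sum_sub_distrib]
  have := hF.clgs X hX Y hY l
  unfold clg at this
  omega

theorem FamE.lvs_eq (hF : FamE F R q) {X Y : SimpleGraph V} (hX : X ∈ F) (hY : Y ∈ F) {v : V}
    (hs : Same X Y v) (l : ℤ) : lvs X Y v l = ∑ x, ind (lev X Y l x = 1) := by
  unfold lvs
  refine Finset.sum_congr rfl (fun y _ => ?_)
  rcases hF.lev_cases hX hY hs l y with e | ⟨e, -, -, e'⟩ | ⟨e, -, -, e'⟩
  · rw [e, ind_false (by norm_num)]; ring
  · rw [e, ind_true rfl, show ad X v y = 1 from ind_true e']; ring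
  · rw [e, ind_false (by norm_num), show ad X v y = 0 from ind_false e']; ring

theorem FamE.active (hF : FamE F R q) {X Y : SimpleGraph V} (hX : X ∈ F) (hY : Y ∈ F) {v : V}
    (hs : Same X Y v) {l : ℤ} (h : ∃ x, lev X Y l x ≠ 0) :
    (∃ x, lev X Y l x = 1) ∧ (∃ x, lev X Y l x = -1) ∧ 0 < lvs X Y v l ∧ R l ∧ R (l - 1) := by
  have h0 := hF.lev_sum hX hY l
  have hcs := hF.lev_cases hX hY hs l
  have hpos : ∃ x, lev X Y l x = 1 := by
    by_contra hc
    push Not at hc
    have hle : ∀ x, lev X Y l x ≤ 0 := by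
      intro x
      rcases hcs x with e | ⟨e, -⟩ | ⟨e, -⟩
      · omega
      · exact absurd e (hc x)
      · omega
    obtain ⟨x, hx⟩ := h
    exact hx ((Finset.sum_eq_zero_iff_of_nonpos (fun y _ => hle y)).mp h0 x (mem_univ x))
  have hneg : ∃ x, lev X Y l x = -1 := by
    by_contra hc
    push Not at hc
    have hle : ∀ x, 0 ≤ lev X Y l x := by
      intro x
      rcases hcs x with e | ⟨e, -⟩ | ⟨e, -⟩
      · omega
      · omega
      · exact absurd e (hc x)
    obtain ⟨x, hx⟩ := h
    exact hx ((Finset.sum_eq_zero_iff_of_nonneg (fun y _ => hle y)).mp h0 x (mem_univ x))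
  refine ⟨hpos, hneg, ?_, ?_, ?_⟩
  · rw [hF.lvs_eq hX hY hs]
    obtain ⟨x, hx⟩ := hpos
    have h1 : ind (lev X Y l x = 1) ≤ ∑ y, ind (lev X Y l y = 1) :=
      Finset.single_le_sum (f := fun y => ind (lev X Y l y = 1)) (fun y _ => ind_nonneg _)
        (mem_univ x)
    rw [ind_true hx] at h1
    omega
  · obtain ⟨x, hx⟩ := hpos
    rcases hcs x with e | ⟨-, e, -⟩ | ⟨e, -⟩
    · omega
    · rw [← e]; exact hF.deg X hX x
    · omega
  · obtain ⟨x, hx⟩ := hneg
    rcases hcs x with e | ⟨e, -⟩ | ⟨-, e, -⟩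
    · omega
    · omega
    · rw [← e]; exact hF.deg X hX x

/-- action of the adjacency matrix on a level -/
theorem FamE.act (hF : FamE F R q) {X Y : SimpleGraph V} (hX : X ∈ F) (hY : Y ∈ F) {v : V}
    (hs : Same X Y v) (l : ℤ) (x : V) : ∑ y, ad X x y * lev X Y l y
      = q l (dg X x) - q l (dg Y x) - ind (l ≤ dg X v) * (dg X x - dg Y x)
        + lvs X Y v l * ind (x = v) := by
  by_cases hx : x = v
  · rw [hx, ind_true rfl, hF.dgv hX hY hs]
    unfold lvs
    ring
  · rw [ind_false hx, ← hF.nbr X hX x l, ← hF.nbr Y hY x l, hF.dgx hX hY hs x,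
      ad_comm X v x, ad_comm Y v x]
    unfold nbg lev
    have e1 : ∑ y ∈ univ.erase v, ad X x y * ind (l ≤ dg Y y)
        = ∑ y ∈ univ.erase v, ad Y x y * ind (l ≤ dg Y y) :=
      Finset.sum_congr rfl (fun y hy => by rw [hs.ad hx (Finset.ne_of_mem_erase hy)])
    rw [sum_erase_eq, sum_erase_eq, ← hF.dgv hX hY hs] at e1
    have e2 : ∑ y, ad X x y * (ind (l ≤ dg X y) - ind (l ≤ dg Y y))
        = ∑ y, ad X x y * ind (l ≤ dg X y) - ∑ y, ad X x y * ind (l ≤ dg Y y) := by
      rw [← Finset.sum_sub_distrib]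
      exact Finset.sum_congr rfl (fun y _ => by ring)
    rw [e2]
    linear_combination -e1

/-- an inactive level determines differences of parameters -/
theorem FamE.inactive (hF : FamE F R q) {X Y : SimpleGraph V} (hX : X ∈ F) (hY : Y ∈ F) {v : V}
    (hs : Same X Y v) {g j : ℤ} (hg : ∀ x, lev X Y g x = 0) (hj : ∃ x, lev X Y j x ≠ 0) :
    q g j - q g (j - 1) = ind (g ≤ dg X v) := by
  obtain ⟨⟨x, hx⟩, -⟩ := hF.active hX hY hs hj
  have h1 := hF.act hX hY hs g x
  have h2 : ∑ y, ad X x y * lev X Y g y = 0 :=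
    Finset.sum_eq_zero (fun y _ => by rw [hg y, mul_zero])
  have h3 : lvs X Y v g = 0 := Finset.sum_eq_zero (fun y _ => by rw [hg y, mul_zero])
  rw [h2, h3] at h1
  rcases hF.lev_cases hX hY hs j x with e | ⟨-, e, e', -⟩ | ⟨e, -⟩
  · omega
  · rw [e, e'] at h1
    linarith
  · omega

end pairs

section gap

variable {F : Set (SimpleGraph V)} {R : ℤ → Prop} {q : ℤ → ℤ → ℤ}

theorem FamE.half (hF : FamE F R q) (gap : ∀ k, R (k - 1) → R k → ¬ R (k + 1))
    {X Y Z : SimpleGraph V} (hX : X ∈ F) (hY : Y ∈ F) (hZ : Z ∈ F) {u x : V}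
    (hs : Same X Y u) (hs' : Same X Z x) (k j : ℤ)
    (hdis : ∀ l, (∃ y, lev X Y l y ≠ 0) → (∃ y, lev X Z l y ≠ 0) → False)
    (hj : ∃ y, lev X Z j y ≠ 0) :
    ∑ y, lev X Z j y * ∑ z, ad X y z * lev X Y k z = lvs X Y u k * lev X Z j u := by
  obtain ⟨-, -, -, Rj, Rj'⟩ := hF.active hX hZ hs' hj
  have h1 : ∀ y, lev X Z j y * ∑ z, ad X y z * lev X Y k z
      = lev X Z j y * (lvs X Y u k * ind (y = u)) := by
    intro y
    rw [hF.act hX hY hs k y]
    by_cases h0 : lev X Z j y = 0
    · rw [h0]; ring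
    · have hd : dg X y = dg Y y := by
        rcases hF.tri hX hY hs y with h | ⟨h, -⟩ | ⟨h, -⟩
        · exact h
        · exfalso
          have hact : ∃ y', lev X Y (dg X y) y' ≠ 0 :=
            ⟨y, by unfold lev; rw [ind_true (le_refl _), ind_false (by omega)]; norm_num⟩
          obtain ⟨-, -, -, r1, r2⟩ := hF.active hX hY hs hact
          rcases hF.lev_cases hX hZ hs' j y with e | ⟨-, e, -, -⟩ | ⟨-, e, -, -⟩
          · exact h0 e
          · rw [e] at hact
            exact hdis j hact hj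
          · rw [e] at r1 r2
            exact gap (j - 1) r2 r1 (by rw [sub_add_cancel]; exact Rj)
        · exfalso
          have hact : ∃ y', lev X Y (dg X y + 1) y' ≠ 0 :=
            ⟨y, by unfold lev; rw [ind_false (by omega), ind_true (by omega)]; norm_num⟩
          obtain ⟨-, -, -, r1, r2⟩ := hF.active hX hY hs hact
          rcases hF.lev_cases hX hZ hs' j y with e | ⟨-, e, -, -⟩ | ⟨-, e, -, -⟩
          · exact h0 e
          · rw [e] at r1 r2
            exact gap j Rj' Rj r1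
          · rw [e, sub_add_cancel] at hact
            exact hdis j hact hj
      rw [hd]; ring
  rw [Finset.sum_congr rfl (fun y _ => h1 y), sum_mul_sind]

/-- an active level of the difference at `u` is next to the degree of `u` -/
theorem FamE.stepA (hF : FamE F R q) (gap : ∀ k, R (k - 1) → R k → ¬ R (k + 1))
    {X Y : SimpleGraph V} (hX : X ∈ F) (hY : Y ∈ F) {u : V}
    (hs : Same X Y u) {k : ℤ} (hk : ∃ y, lev X Y k y ≠ 0) :
    dg X u = k ∨ dg X u = k - 1 := by
  by_contra hc
  push Not at hc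
  obtain ⟨⟨xp, hxp⟩, ⟨xm, hxm⟩, hsk, Rk, Rk'⟩ := hF.active hX hY hs hk
  have Ru := hF.deg X hX u
  have c1 : dg X u ≠ k + 1 := fun h => gap k Rk' Rk (h ▸ Ru)
  have nR2 : ¬ R (k - 2) := fun h => gap (k - 1) (by rw [show k - 1 - 1 = k - 2 by ring]; exact h)
    Rk' (by rw [sub_add_cancel]; exact Rk)
  have nR1 : ¬ R (k + 1) := fun h => gap k Rk' Rk h
  have c2 : dg X u ≠ k - 2 := fun h => nR2 (h ▸ Ru)
  -- disjointness of the levels
  have hdis : ∀ (Z : SimpleGraph V) (x : V), Z ∈ F → Same X Z x → (dg X x = k ∨ dg X x = k - 1) →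
      ∀ l, (∃ y, lev X Y l y ≠ 0) → (∃ y, lev X Z l y ≠ 0) → False := by
    intro Z x hZ hs' hx l hl hl'
    have main : ∀ g, (∀ (Z : SimpleGraph V) (x : V), Z ∈ F → Same X Z x →
        ∀ y, lev X Z g y = 0) → ind (g ≤ dg X u) = ind (g ≤ dg X x) := by
      intro g hg
      rw [← hF.inactive hX hY hs (hg Y u hY hs) hl, ← hF.inactive hX hZ hs' (hg Z x hZ hs') hl']
    rcases lt_trichotomy (dg X u) k with h | h | h
    · -- gap level `k - 1`
      have := main (k - 1) (by
        intro Z x hZ hs' y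
        by_contra hne
        obtain ⟨-, -, -, -, r⟩ := hF.active hX hZ hs' ⟨y, hne⟩
        exact nR2 (by rw [show k - 2 = k - 1 - 1 by ring]; exact r))
      rw [ind_false (by omega), ind_true (by omega)] at this
      omega
    · exact hc.1 h
    · have := main (k + 1) (by
        intro Z x hZ hs' y
        by_contra hne
        obtain ⟨-, -, -, r, -⟩ := hF.active hX hZ hs' ⟨y, hne⟩
        exact nR1 r)
      rw [ind_true (by omega), ind_false (by omega)] at this
      omega
  have pairing : ∀ (Z : SimpleGraph V) (x : V), Z ∈ F → Same X Z x →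
      (dg X x = k ∨ dg X x = k - 1) → ∀ j, (∃ y, lev X Z j y ≠ 0) →
      lvs X Z x j * lev X Y k x = lvs X Y u k * lev X Z j u := by
    intro Z x hZ hs' hx j hj
    have h1 := hF.half gap hX hY hZ hs hs' k j (hdis Z x hZ hs' hx) hj
    have h2 := hF.half gap hX hZ hY hs' hs j k
      (fun l hl hl' => hdis Z x hZ hs' hx l hl' hl) hk
    rw [← h1, ← h2]
    simp only [Finset.mul_sum]
    rw [Finset.sum_comm]
    refine Finset.sum_congr rfl (fun y _ => Finset.sum_congr rfl (fun z _ => ?_))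
    rw [ad_comm X z y]
    ring
  -- a level for every alternative
  have exlev : ∀ (Z : SimpleGraph V) (x : V), Z ∈ F → Z ≠ X → Same X Z x →
      ∃ j, ∃ y, lev X Z j y ≠ 0 := by
    intro Z x hZ hne hs'
    by_contra hno
    push Not at hno
    apply hne
    refine (graph_ext hs' (fun y => ?_)).symm
    have h1 := hF.dgx hX hZ hs' y
    have h2 : dg X y = dg Z y := by
      rcases hF.tri hX hZ hs' y with h | ⟨h, -⟩ | ⟨h, -⟩
      · exact h
      · exfalso
        have := hno (dg X y) y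
        unfold lev at this
        rw [ind_true (le_refl _), ind_false (by omega)] at this
        norm_num at this
      · exfalso
        have := hno (dg X y + 1) y
        unfold lev at this
        rw [ind_false (by omega), ind_true (by omega)] at this
        norm_num at this
    omega
  have dxp : dg X xp = k := by
    rcases hF.lev_cases hX hY hs k xp with e | ⟨-, e, -, -⟩ | ⟨e, -⟩
    · omega
    · exact e
    · omega
  have dxm : dg X xm = k - 1 := by
    rcases hF.lev_cases hX hY hs k xm with e | ⟨e, -⟩ | ⟨-, e, -, -⟩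
    · omega
    · omega
    · exact e
  obtain ⟨Z, hZ, hZX, hsZ⟩ := hF.part X hX xp
  obtain ⟨j, hj⟩ := exlev Z xp hZ hZX hsZ
  obtain ⟨W, hW, hWX, hsW⟩ := hF.part X hX xm
  obtain ⟨i, hi⟩ := exlev W xm hW hWX hsW
  have P1 := pairing Z xp hZ hsZ (Or.inl dxp) j hj
  have P2 := pairing W xm hW hsW (Or.inr dxm) i hi
  obtain ⟨-, -, sj, Rj, Rj'⟩ := hF.active hX hZ hsZ hj
  obtain ⟨-, -, si, Ri, Ri'⟩ := hF.active hX hW hsW hi
  rw [hxp, mul_one] at P1
  rw [hxm] at P2
  have u1 : dg X u = j := by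
    rcases hF.lev_cases hX hZ hsZ j u with e | ⟨-, e, -, -⟩ | ⟨e, -⟩
    · rw [e, mul_zero] at P1; omega
    · exact e
    · rw [e] at P1; omega
  have u2 : dg X u = i - 1 := by
    rcases hF.lev_cases hX hW hsW i u with e | ⟨e, -⟩ | ⟨-, e, -, -⟩
    · rw [e, mul_zero] at P2; omega
    · rw [e] at P2; omega
    · exact e
  exact gap j Rj' Rj (by rw [show j + 1 = i by omega]; exact Ri)

end gap

end Pool.Agent.Helper373_CM
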