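import Pool.Agent.Helper373_CM.DegSeq

set_option autoImplicit false
set_option linter.unusedSectionVars false
set_option linter.unnecessarySeqFocus false
set_option linter.unusedVariables false

namespace Pool.Agent.Helper373_CM

open Finset

variable {V : Type*} [Fintype V] [DecidableEq V]

/-- A family of labelled graphs such that the numbers of neighbours of each degree depend on the
degree, for the vertices whose degree is next to another degree, and such that every card extends
in a second way. The set `R` contains the degrees. -/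
structure FamW (F : Set (SimpleGraph V)) (R : ℤ → Prop) (q : ℤ → ℤ → ℤ) : Prop where
  deg : ∀ X ∈ F, ∀ x, R (dg X x)
  nbr : ∀ X ∈ F, ∀ x l, (R (dg X x - 1) ∨ R (dg X x + 1)) → nbg X l x = q l (dg X x)
  part : ∀ X ∈ F, ∀ v, ∃ Y ∈ F, Y ≠ X ∧ Same X Y v
  tots : ∀ X ∈ F, ∀ Y ∈ F, tot X = tot Y
  clgs : ∀ X ∈ F, ∀ Y ∈ F, ∀ l, clg X l = clg Y l

section pairs

variable {F : Set (SimpleGraph V)} {R : ℤ → Prop} {q : ℤ → ℤ → ℤ}

theorem FamW.dgv (hF : FamW F R q) {X Y : SimpleGraph V} (hX : X ∈ F) (hY : Y ∈ F) {v : V}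
    (hs : Same X Y v) : dg X v = dg Y v := by
  have h1 := tot_card hs.ci
  have h2 := hF.tots X hX Y hY
  omega

theorem FamW.dgx (hF : FamW F R q) {X Y : SimpleGraph V} (hX : X ∈ F) (hY : Y ∈ F) {v : V}
    (hs : Same X Y v) (x : V) : dg X x - dg Y x = ad X v x - ad Y v x := by
  by_cases hx : x = v
  · rw [hx, ad_self, ad_self, hF.dgv hX hY hs]; ring
  · have := hs.dg hx
    rw [ad_comm X x v, ad_comm Y x v] at this
    linarith

/-- the three possibilities for a vertex -/
theorem FamW.tri (hF : FamW F R q) {X Y : SimpleGraph V} (hX : X ∈ F) (hY : Y ∈ F) {v : V}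
    (hs : Same X Y v) (x : V) : dg X x = dg Y x ∨ (dg X x = dg Y x + 1 ∧ X.Adj v x) ∨
      (dg Y x = dg X x + 1 ∧ ¬ X.Adj v x) := by
  have h := hF.dgx hX hY hs x
  by_cases hA : X.Adj v x
  · rw [show ad X v x = 1 from ind_true hA] at h
    rcases ind_eq_one_or_zero (Y.Adj v x) with e | e
    · rw [show ad Y v x = 1 from e] at h; left; omega
    · rw [show ad Y v x = 0 from e] at h; right; left; exact ⟨by omega, hA⟩
  · rw [show ad X v x = 0 from ind_false hA] at h
    rcases ind_eq_one_or_zero (Y.Adj v x) with e | e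
    · rw [show ad Y v x = 1 from e] at h; right; right; exact ⟨by omega, hA⟩
    · rw [show ad Y v x = 0 from e] at h; left; omega

theorem FamW.lev_cases (hF : FamW F R q) {X Y : SimpleGraph V} (hX : X ∈ F) (hY : Y ∈ F) {v : V}
    (hs : Same X Y v) (l : ℤ) (x : V) : lev X Y l x = 0 ∨
      (lev X Y l x = 1 ∧ dg X x = l ∧ dg Y x = l - 1 ∧ X.Adj v x) ∨
      (lev X Y l x = -1 ∧ dg X x = l - 1 ∧ dg Y x = l ∧ ¬ X.Adj v x) := by
  unfold lev
  rcases hF.tri hX hY hs x with h | ⟨h, h'⟩ | ⟨h, h'⟩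
  · left; rw [h]; ring
  · by_cases hl : dg X x = l
    · right; left
      rw [ind_true (by omega), ind_false (by omega)]
      exact ⟨by norm_num, hl, by omega, h'⟩
    · left
      rw [ind_congr (show l ≤ dg X x ↔ l ≤ dg Y x by omega)]; ring
  · by_cases hl : dg Y x = l
    · right; right
      rw [ind_false (by omega), ind_true (by omega)]
      exact ⟨by norm_num, by omega, hl, h'⟩
    · left
      rw [ind_congr (show l ≤ dg X x ↔ l ≤ dg Y x by omega)]; ring

theorem FamW.lev_v (hF : FamW F R q) {X Y : SimpleGraph V} (hX : X ∈ F) (hY : Y ∈ F) {v : V}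
    (hs : Same X Y v) (l : ℤ) : lev X Y l v = 0 := by
  unfold lev
  rw [hF.dgv hX hY hs]; ring

theorem FamW.lev_sum (hF : FamW F R q) {X Y : SimpleGraph V} (hX : X ∈ F) (hY : Y ∈ F)
    (l : ℤ) : ∑ x, lev X Y l x = 0 := by
  unfold lev
  rw [Finset.sum_sub_distrib]
  have := hF.clgs X hX Y hY l
  unfold clg at this
  omega

theorem FamW.lvs_eq (hF : FamW F R q) {X Y : SimpleGraph V} (hX : X ∈ F) (hY : Y ∈ F) {v : V}
    (hs : Same X Y v) (l : ℤ) : lvs X Y v l = ∑ x, ind (lev X Y l x = 1) := by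
  unfold lvs
  refine Finset.sum_congr rfl (fun y _ => ?_)
  rcases hF.lev_cases hX hY hs l y with e | ⟨e, -, -, e'⟩ | ⟨e, -, -, e'⟩
  · rw [e, ind_false (by norm_num)]; ring
  · rw [e, ind_true rfl, show ad X v y = 1 from ind_true e']; ring
  · rw [e, ind_false (by norm_num), show ad X v y = 0 from ind_false e']; ring

theorem FamW.active (hF : FamW F R q) {X Y : SimpleGraph V} (hX : X ∈ F) (hY : Y ∈ F) {v : V}
    (hs : Same X Y v) {l : ℤ} (h : ∃ x, lev X Y l x ≠ 0) :
    (∃ x, lev X Y l x = 1) ∧ (∃ x, lev X Y l x = -1) ∧ 0 < lvs X Y v l ∧ R l ∧ R (l - 1) := by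
  have h0 := hF.lev_sum hX hY l
  have hcs := hF.lev_cases hX hY hs l
  have hpos : ∃ x, lev X Y l x = 1 := by
    by_contra hc
    push Not at hc
    have hle : ∀ x, lev X Y l x ≤ 0 := by
      intro x
      rcases hcs x with e | ⟨e, -⟩ | ⟨e, -⟩
      · omega
      · exact absurd e (hc x)
      · omega
    obtain ⟨x, hx⟩ := h
    exact hx ((Finset.sum_eq_zero_iff_of_nonpos (fun y _ => hle y)).mp h0 x (mem_univ x))
  have hneg : ∃ x, lev X Y l x = -1 := by
    by_contra hc
    push Not at hc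
    have hle : ∀ x, 0 ≤ lev X Y l x := by
      intro x
      rcases hcs x with e | ⟨e, -⟩ | ⟨e, -⟩
      · omega
      · omega
      · exact absurd e (hc x)
    obtain ⟨x, hx⟩ := h
    exact hx ((Finset.sum_eq_zero_iff_of_nonneg (fun y _ => hle y)).mp h0 x (mem_univ x))
  refine ⟨hpos, hneg, ?_, ?_, ?_⟩
  · rw [hF.lvs_eq hX hY hs]
    obtain ⟨x, hx⟩ := hpos
    have h1 : ind (lev X Y l x = 1) ≤ ∑ y, ind (lev X Y l y = 1) :=
      Finset.single_le_sum (f := fun y => ind (lev X Y l y = 1)) (fun y _ => ind_nonneg _)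
        (mem_univ x)
    rw [ind_true hx] at h1
    omega
  · obtain ⟨x, hx⟩ := hpos
    rcases hcs x with e | ⟨-, e, -⟩ | ⟨e, -⟩
    · omega
    · rw [← e]; exact hF.deg X hX x
    · omega
  · obtain ⟨x, hx⟩ := hneg
    rcases hcs x with e | ⟨e, -⟩ | ⟨-, e, -⟩
    · omega
    · omega
    · rw [← e]; exact hF.deg X hX x

/-- action of the adjacency matrix on a level -/
theorem FamW.act (hF : FamW F R q) {X Y : SimpleGraph V} (hX : X ∈ F) (hY : Y ∈ F) {v : V}
    (hs : Same X Y v) (l : ℤ) (x : V) (hx1 : R (dg X x - 1) ∨ R (dg X x + 1))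
    (hx2 : R (dg Y x - 1) ∨ R (dg Y x + 1)) : ∑ y, ad X x y * lev X Y l y
      = q l (dg X x) - q l (dg Y x) - ind (l ≤ dg X v) * (dg X x - dg Y x)
        + lvs X Y v l * ind (x = v) := by
  by_cases hx : x = v
  · rw [hx, ind_true rfl, hF.dgv hX hY hs]
    unfold lvs
    ring
  · rw [ind_false hx, ← hF.nbr X hX x l hx1, ← hF.nbr Y hY x l hx2, hF.dgx hX hY hs x,
      ad_comm X v x, ad_comm Y v x]
    unfold nbg lev
    have e1 : ∑ y ∈ univ.erase v, ad X x y * ind (l ≤ dg Y y)
        = ∑ y ∈ univ.erase v, ad Y x y * ind (l ≤ dg Y y) :=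
      Finset.sum_congr rfl (fun y hy => by rw [hs.ad hx (Finset.ne_of_mem_erase hy)])
    rw [sum_erase_eq, sum_erase_eq, ← hF.dgv hX hY hs] at e1
    have e2 : ∑ y, ad X x y * (ind (l ≤ dg X y) - ind (l ≤ dg Y y))
        = ∑ y, ad X x y * ind (l ≤ dg X y) - ∑ y, ad X x y * ind (l ≤ dg Y y) := by
      rw [← Finset.sum_sub_distrib]
      exact Finset.sum_congr rfl (fun y _ => by ring)
    rw [e2]
    linear_combination -e1

/-- an inactive level determines differences of parameters -/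
theorem FamW.inactive (hF : FamW F R q) {X Y : SimpleGraph V} (hX : X ∈ F) (hY : Y ∈ F) {v : V}
    (hs : Same X Y v) {g j : ℤ} (hg : ∀ x, lev X Y g x = 0) (hj : ∃ x, lev X Y j x ≠ 0) :
    q g j - q g (j - 1) = ind (g ≤ dg X v) := by
  obtain ⟨⟨x, hx⟩, -, -, Rj, Rj'⟩ := hF.active hX hY hs hj
  have hxx : dg X x = j ∧ dg Y x = j - 1 := by
    rcases hF.lev_cases hX hY hs j x with e | ⟨-, e, e', -⟩ | ⟨e, -⟩
    · omega
    · exact ⟨e, e'⟩
    · omega
  have h1 := hF.act hX hY hs g x (Or.inl (by rw [hxx.1]; exact Rj'))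
    (Or.inr (by rw [hxx.2, sub_add_cancel]; exact Rj))
  have h2 : ∑ y, ad X x y * lev X Y g y = 0 :=
    Finset.sum_eq_zero (fun y _ => by rw [hg y, mul_zero])
  have h3 : lvs X Y v g = 0 := Finset.sum_eq_zero (fun y _ => by rw [hg y, mul_zero])
  rw [h2, h3] at h1
  rcases hF.lev_cases hX hY hs j x with e | ⟨-, e, e', -⟩ | ⟨e, -⟩
  · omega
  · rw [e, e'] at h1
    linarith
  · omega

end pairs

section gap

variable {F : Set (SimpleGraph V)} {R : ℤ → Prop} {q : ℤ → ℤ → ℤ}

theorem FamW.half (hF : FamW F R q) (gap : ∀ k, R (k - 1) → R k → ¬ R (k + 1))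
    {X Y Z : SimpleGraph V} (hX : X ∈ F) (hY : Y ∈ F) (hZ : Z ∈ F) {u x : V}
    (hs : Same X Y u) (hs' : Same X Z x) (k j : ℤ)
    (hdis : ∀ l, (∃ y, lev X Y l y ≠ 0) → (∃ y, lev X Z l y ≠ 0) → False)
    (hj : ∃ y, lev X Z j y ≠ 0) :
    ∑ y, lev X Z j y * ∑ z, ad X y z * lev X Y k z = lvs X Y u k * lev X Z j u := by
  obtain ⟨-, -, -, Rj, Rj'⟩ := hF.active hX hZ hs' hj
  have h1 : ∀ y, lev X Z j y * ∑ z, ad X y z * lev X Y k z
      = lev X Z j y * (lvs X Y u k * ind (y = u)) := by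
    intro y
    by_cases h0 : lev X Z j y = 0
    · rw [h0]; ring
    · have hiso : R (dg X y - 1) ∨ R (dg X y + 1) := by
        rcases hF.lev_cases hX hZ hs' j y with e | ⟨-, e, -, -⟩ | ⟨-, e, -, -⟩
        · exact absurd e h0
        · exact Or.inl (by rw [e]; exact Rj')
        · exact Or.inr (by rw [e, sub_add_cancel]; exact Rj)
      have hd : dg X y = dg Y y := by
        rcases hF.tri hX hY hs y with h | ⟨h, -⟩ | ⟨h, -⟩
        · exact h
        · exfalso
          have hact : ∃ y', lev X Y (dg X y) y' ≠ 0 :=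
            ⟨y, by unfold lev; rw [ind_true (le_refl _), ind_false (by omega)]; norm_num⟩
          obtain ⟨-, -, -, r1, r2⟩ := hF.active hX hY hs hact
          rcases hF.lev_cases hX hZ hs' j y with e | ⟨-, e, -, -⟩ | ⟨-, e, -, -⟩
          · exact h0 e
          · rw [e] at hact
            exact hdis j hact hj
          · rw [e] at r1 r2
            exact gap (j - 1) r2 r1 (by rw [sub_add_cancel]; exact Rj)
        · exfalso
          have hact : ∃ y', lev X Y (dg X y + 1) y' ≠ 0 :=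
            ⟨y, by unfold lev; rw [ind_false (by omega), ind_true (by omega)]; norm_num⟩
          obtain ⟨-, -, -, r1, r2⟩ := hF.active hX hY hs hact
          rcases hF.lev_cases hX hZ hs' j y with e | ⟨-, e, -, -⟩ | ⟨-, e, -, -⟩
          · exact h0 e
          · rw [e] at r1 r2
            exact gap j Rj' Rj r1
          · rw [e, sub_add_cancel] at hact
            exact hdis j hact hj
      rw [hF.act hX hY hs k y hiso (by rw [← hd]; exact hiso), hd]; ring
  rw [Finset.sum_congr rfl (fun y _ => h1 y), sum_mul_sind]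

/-- an active level of the difference at `u` is next to the degree of `u` -/
theorem FamW.stepA (hF : FamW F R q) (gap : ∀ k, R (k - 1) → R k → ¬ R (k + 1))
    {X Y : SimpleGraph V} (hX : X ∈ F) (hY : Y ∈ F) {u : V}
    (hs : Same X Y u) {k : ℤ} (hk : ∃ y, lev X Y k y ≠ 0) :
    dg X u = k ∨ dg X u = k - 1 := by
  by_contra hc
  push Not at hc
  obtain ⟨⟨xp, hxp⟩, ⟨xm, hxm⟩, hsk, Rk, Rk'⟩ := hF.active hX hY hs hk
  have Ru := hF.deg X hX u
  have c1 : dg X u ≠ k + 1 := fun h => gap k Rk' Rk (h ▸ Ru)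
  have nR2 : ¬ R (k - 2) := fun h => gap (k - 1) (by rw [show k - 1 - 1 = k - 2 by ring]; exact h)
    Rk' (by rw [sub_add_cancel]; exact Rk)
  have nR1 : ¬ R (k + 1) := fun h => gap k Rk' Rk h
  have c2 : dg X u ≠ k - 2 := fun h => nR2 (h ▸ Ru)
  -- disjointness of the levels
  have hdis : ∀ (Z : SimpleGraph V) (x : V), Z ∈ F → Same X Z x → (dg X x = k ∨ dg X x = k - 1) →
      ∀ l, (∃ y, lev X Y l y ≠ 0) → (∃ y, lev X Z l y ≠ 0) → False := by
    intro Z x hZ hs' hx l hl hl'
    have main : ∀ g, (∀ (Z : SimpleGraph V) (x : V), Z ∈ F → Same X Z x →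
        ∀ y, lev X Z g y = 0) → ind (g ≤ dg X u) = ind (g ≤ dg X x) := by
      intro g hg
      rw [← hF.inactive hX hY hs (hg Y u hY hs) hl, ← hF.inactive hX hZ hs' (hg Z x hZ hs') hl']
    rcases lt_trichotomy (dg X u) k with h | h | h
    · -- gap level `k - 1`
      have := main (k - 1) (by
        intro Z x hZ hs' y
        by_contra hne
        obtain ⟨-, -, -, -, r⟩ := hF.active hX hZ hs' ⟨y, hne⟩
        exact nR2 (by rw [show k - 2 = k - 1 - 1 by ring]; exact r))
      rw [ind_false (by omega), ind_true (by omega)] at this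
      omega
    · exact hc.1 h
    · have := main (k + 1) (by
        intro Z x hZ hs' y
        by_contra hne
        obtain ⟨-, -, -, r, -⟩ := hF.active hX hZ hs' ⟨y, hne⟩
        exact nR1 r)
      rw [ind_true (by omega), ind_false (by omega)] at this
      omega
  have pairing : ∀ (Z : SimpleGraph V) (x : V), Z ∈ F → Same X Z x →
      (dg X x = k ∨ dg X x = k - 1) → ∀ j, (∃ y, lev X Z j y ≠ 0) →
      lvs X Z x j * lev X Y k x = lvs X Y u k * lev X Z j u := by
    intro Z x hZ hs' hx j hj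
    have h1 := hF.half gap hX hY hZ hs hs' k j (hdis Z x hZ hs' hx) hj
    have h2 := hF.half gap hX hZ hY hs' hs j k
      (fun l hl hl' => hdis Z x hZ hs' hx l hl' hl) hk
    rw [← h1, ← h2]
    simp only [Finset.mul_sum]
    rw [Finset.sum_comm]
    refine Finset.sum_congr rfl (fun y _ => Finset.sum_congr rfl (fun z _ => ?_))
    rw [ad_comm X z y]
    ring
  -- a level for every alternative
  have exlev : ∀ (Z : SimpleGraph V) (x : V), Z ∈ F → Z ≠ X → Same X Z x →
      ∃ j, ∃ y, lev X Z j y ≠ 0 := by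
    intro Z x hZ hne hs'
    by_contra hno
    push Not at hno
    apply hne
    refine (graph_ext hs' (fun y => ?_)).symm
    have h1 := hF.dgx hX hZ hs' y
    have h2 : dg X y = dg Z y := by
      rcases hF.tri hX hZ hs' y with h | ⟨h, -⟩ | ⟨h, -⟩
      · exact h
      · exfalso
        have := hno (dg X y) y
        unfold lev at this
        rw [ind_true (le_refl _), ind_false (by omega)] at this
        norm_num at this
      · exfalso
        have := hno (dg X y + 1) y
        unfold lev at this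
        rw [ind_false (by omega), ind_true (by omega)] at this
        norm_num at this
    omega
  have dxp : dg X xp = k := by
    rcases hF.lev_cases hX hY hs k xp with e | ⟨-, e, -, -⟩ | ⟨e, -⟩
    · omega
    · exact e
    · omega
  have dxm : dg X xm = k - 1 := by
    rcases hF.lev_cases hX hY hs k xm with e | ⟨e, -⟩ | ⟨-, e, -, -⟩
    · omega
    · omega
    · exact e
  obtain ⟨Z, hZ, hZX, hsZ⟩ := hF.part X hX xp
  obtain ⟨j, hj⟩ := exlev Z xp hZ hZX hsZ
  obtain ⟨W, hW, hWX, hsW⟩ := hF.part X hX xm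
  obtain ⟨i, hi⟩ := exlev W xm hW hWX hsW
  have P1 := pairing Z xp hZ hsZ (Or.inl dxp) j hj
  have P2 := pairing W xm hW hsW (Or.inr dxm) i hi
  obtain ⟨-, -, sj, Rj, Rj'⟩ := hF.active hX hZ hsZ hj
  obtain ⟨-, -, si, Ri, Ri'⟩ := hF.active hX hW hsW hi
  rw [hxp, mul_one] at P1
  rw [hxm] at P2
  have u1 : dg X u = j := by
    rcases hF.lev_cases hX hZ hsZ j u with e | ⟨-, e, -, -⟩ | ⟨e, -⟩
    · rw [e, mul_zero] at P1; omega
    · exact e
    · rw [e] at P1; omega
  have u2 : dg X u = i - 1 := by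
    rcases hF.lev_cases hX hW hsW i u with e | ⟨e, -⟩ | ⟨-, e, -, -⟩
    · rw [e, mul_zero] at P2; omega
    · rw [e] at P2; omega
    · exact e
  exact gap j Rj' Rj (by rw [show j + 1 = i by omega]; exact Ri)

end gap

end Pool.Agent.Helper373_CM
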