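import Pool.Agent.Helper373_CM.Count

set_option autoImplicit false
set_option linter.unusedSectionVars false
set_option linter.unnecessarySeqFocus false
set_option linter.unusedVariables false

namespace Pool.Agent.Helper373_CM

open Finset

variable {V : Type*} [Fintype V] [DecidableEq V]

/-- the potential used in `pair_shift` -/
noncomputable def pot (l : ℤ) (a : ℤ → ℤ) (k : ℤ) : ℤ := ind (l ≤ k) * (a k - a l - a (l - 1))

/-- pointwise identity for neighbours of the removed vertices -/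
theorem pt_nbr {l d d' : ℤ} {p p' : Prop} (h : d - ind p = d' - ind p') :
    ind (l ≤ d') * ind p - ind (l ≤ d) * ind p'
      = ind p * ind (l + 1 ≤ d) - ind p' * ind (l + 1 ≤ d') := by
  by_cases hp : p
  · by_cases hp' : p'
    · rw [ind_true hp, ind_true hp'] at *
      have : d = d' := by omega
      rw [this]; ring
    · rw [ind_true hp, ind_false hp'] at *
      rw [ind_congr (show l ≤ d' ↔ l + 1 ≤ d by omega)]; ring
  · by_cases hp' : p'
    · rw [ind_false hp, ind_true hp'] at *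
      rw [ind_congr (show l ≤ d ↔ l + 1 ≤ d' by omega)]; ring
    · rw [ind_false hp, ind_false hp'] at *
      ring

/-- pointwise identity for the degrees -/
theorem pt_deg {l d d' P A B : ℤ} {p p' : Prop} (a : ℤ → ℤ) (h : d - ind p = d' - ind p')
    (hA : l - 1 ≤ d → A = a d) (hB : l - 1 ≤ d' → B = a d' - P) :
    ind (l ≤ d') * A - ind (l ≤ d) * B = pot l a d - pot l a d' + ind (l ≤ d) * P := by
  have h1 := ind_nonneg p
  have h2 := ind_le_one p
  have h3 := ind_nonneg p'
  have h4 := ind_le_one p'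
  unfold pot
  by_cases hd : l ≤ d
  · by_cases hd' : l ≤ d'
    · rw [ind_true hd, ind_true hd', hA (by omega), hB (by omega)]; ring
    · have e1 : d = l := by omega
      have e2 : d' = l - 1 := by omega
      rw [ind_true hd, ind_false hd', hB (by omega), e1, e2]; ring
  · by_cases hd' : l ≤ d'
    · have e1 : d' = l := by omega
      have e2 : d = l - 1 := by omega
      rw [ind_false hd, ind_true hd', hA (by omega), e1, e2]; ring
    · rw [ind_false hd, ind_false hd']; ring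

/-- **Pairing identity** for the indicator of the vertices of degree at least `l`. -/
theorem pair_shift {G H : SimpleGraph V} {v w : V} (h : CI G H v w) (hd : dg G v = dg H w)
    (l : ℤ) (a : ℤ → ℤ)
    (hG : ∀ x, l - 1 ≤ dg G x → nbg G l x = a (dg G x))
    (hH : ∀ y, l - 1 ≤ dg H y → nbg H l y = a (dg H y) - (sg G l - sg H l)) :
    ∑ x, pot l a (dg G x) - ∑ x, pot l a (dg H x) + (sg G l - sg H l) * clg G l
      = ind (l ≤ dg G v) * ((sg G l - sg H l) + (sg G (l + 1) - sg H (l + 1))) := by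
  have hsh := nbg_shift h hd (l + 1)
  obtain ⟨σ, hv, hσ⟩ := h
  have hdc : ∀ x, x ≠ v → dg G x - ind (G.Adj x v) = dg H (σ x) - ind (H.Adj (σ x) w) :=
    fun x hx => dg_card hv hσ hx
  -- inner sums
  have i1 : ∀ x, ∑ y ∈ univ.erase v, ad G x y * ind (l ≤ dg G y)
      = nbg G l x - ad G x v * ind (l ≤ dg G v) := fun x => sum_erase_eq v _
  have i2 : ∀ x, x ≠ v → ∑ y ∈ univ.erase v, ad G x y * ind (l ≤ dg H (σ y))
      = nbg H l (σ x) - ad H (σ x) w * ind (l ≤ dg G v) := by
    intro x hx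
    rw [hd]
    have e : ∑ y ∈ univ.erase w, ad H (σ x) y * ind (l ≤ dg H y)
      = nbg H l (σ x) - ad H (σ x) w * ind (l ≤ dg H w) := sum_erase_eq w _
    rw [← e]
    refine sum_card σ hv _ (fun y => ad H (σ x) y * ind (l ≤ dg H y)) (fun y hy => ?_)
    rw [show ad G x y = ad H (σ x) (σ y) from ind_congr (hσ x y hx hy)]
  -- antisymmetry
  have as1 : ∑ x ∈ univ.erase v, ind (l ≤ dg H (σ x)) *
        (∑ y ∈ univ.erase v, ad G x y * ind (l ≤ dg G y))
      = ∑ x ∈ univ.erase v, ind (l ≤ dg G x) *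
        (∑ y ∈ univ.erase v, ad G x y * ind (l ≤ dg H (σ y))) := by
    simp only [Finset.mul_sum]
    rw [Finset.sum_comm]
    refine Finset.sum_congr rfl (fun x _ => Finset.sum_congr rfl (fun y _ => ?_))
    rw [ad_comm G y x]
    ring
  have as2 : ∑ x ∈ univ.erase v, (ind (l ≤ dg H (σ x)) * nbg G l x
        - ind (l ≤ dg G x) * nbg H l (σ x))
      = ind (l ≤ dg G v) * ∑ x ∈ univ.erase v, (ind (l ≤ dg H (σ x)) * ad G x v
        - ind (l ≤ dg G x) * ad H (σ x) w) := by
    have e1 : ∑ x ∈ univ.erase v, ind (l ≤ dg H (σ x)) *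
        (∑ y ∈ univ.erase v, ad G x y * ind (l ≤ dg G y))
        = ∑ x ∈ univ.erase v, ind (l ≤ dg H (σ x)) * nbg G l x
          - ind (l ≤ dg G v) * ∑ x ∈ univ.erase v, ind (l ≤ dg H (σ x)) * ad G x v := by
      rw [Finset.mul_sum, ← Finset.sum_sub_distrib]
      refine Finset.sum_congr rfl (fun x _ => ?_)
      rw [i1]; ring
    have e2 : ∑ x ∈ univ.erase v, ind (l ≤ dg G x) *
        (∑ y ∈ univ.erase v, ad G x y * ind (l ≤ dg H (σ y)))
        = ∑ x ∈ univ.erase v, ind (l ≤ dg G x) * nbg H l (σ x)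
          - ind (l ≤ dg G v) * ∑ x ∈ univ.erase v, ind (l ≤ dg G x) * ad H (σ x) w := by
      rw [Finset.mul_sum, ← Finset.sum_sub_distrib]
      refine Finset.sum_congr rfl (fun x hx => ?_)
      rw [i2 x (Finset.ne_of_mem_erase hx)]; ring
    rw [e1, e2] at as1
    rw [Finset.sum_sub_distrib, Finset.sum_sub_distrib]
    linear_combination as1
  -- the right-hand side
  have r1 : ∑ x ∈ univ.erase v, (ind (l ≤ dg H (σ x)) * ad G x v
        - ind (l ≤ dg G x) * ad H (σ x) w) = sg G (l + 1) - sg H (l + 1) := by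
    rw [← hsh]
    have e1 : ∑ x ∈ univ.erase v, (ind (l ≤ dg H (σ x)) * ad G x v
        - ind (l ≤ dg G x) * ad H (σ x) w)
        = ∑ x ∈ univ.erase v, ad G x v * ind (l + 1 ≤ dg G x)
          - ∑ x ∈ univ.erase v, ad H (σ x) w * ind (l + 1 ≤ dg H (σ x)) := by
      rw [← Finset.sum_sub_distrib]
      exact Finset.sum_congr rfl (fun x hx => pt_nbr (hdc x (Finset.ne_of_mem_erase hx)))
    have e2 : ∑ x ∈ univ.erase v, ad H (σ x) w * ind (l + 1 ≤ dg H (σ x))
        = ∑ x ∈ univ.erase w, ad H x w * ind (l + 1 ≤ dg H x) :=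
      sum_card σ hv _ (fun x => ad H x w * ind (l + 1 ≤ dg H x)) (fun x _ => rfl)
    rw [e1, e2, sum_erase_eq, sum_erase_eq, ad_self, ad_self]
    unfold nbg
    rw [Finset.sum_congr rfl (fun x _ => by rw [ad_comm G x v] :
        ∀ x ∈ univ, ad G x v * ind (l + 1 ≤ dg G x) = ad G v x * ind (l + 1 ≤ dg G x)),
      Finset.sum_congr rfl (fun x _ => by rw [ad_comm H x w] :
        ∀ x ∈ univ, ad H x w * ind (l + 1 ≤ dg H x) = ad H w x * ind (l + 1 ≤ dg H x))]
    ring
  -- the left-hand side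
  have l1 : ∑ x ∈ univ.erase v, (ind (l ≤ dg H (σ x)) * nbg G l x
        - ind (l ≤ dg G x) * nbg H l (σ x))
      = ∑ x, pot l a (dg G x) - ∑ x, pot l a (dg H x)
        + (sg G l - sg H l) * (clg G l - ind (l ≤ dg G v)) := by
    have e1 : ∑ x ∈ univ.erase v, (ind (l ≤ dg H (σ x)) * nbg G l x
        - ind (l ≤ dg G x) * nbg H l (σ x))
        = ∑ x ∈ univ.erase v, pot l a (dg G x) - ∑ x ∈ univ.erase v, pot l a (dg H (σ x))
          + (sg G l - sg H l) * ∑ x ∈ univ.erase v, ind (l ≤ dg G x) := by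
      rw [Finset.mul_sum, ← Finset.sum_sub_distrib, ← Finset.sum_add_distrib]
      refine Finset.sum_congr rfl (fun x hx => ?_)
      rw [pt_deg a (hdc x (Finset.ne_of_mem_erase hx)) (hG x) (hH (σ x))]
      ring
    have e2 : ∑ x ∈ univ.erase v, pot l a (dg H (σ x)) = ∑ x ∈ univ.erase w, pot l a (dg H x) :=
      sum_card σ hv _ (fun x => pot l a (dg H x)) (fun x _ => rfl)
    rw [e1, e2, sum_erase_eq, sum_erase_eq, sum_erase_eq, hd]
    unfold clg
    ring
  rw [l1, r1] at as2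
  linear_combination as2

theorem sg_high (G : SimpleGraph V) (l : ℤ) (h : ∀ x, dg G x < l) : sg G l = 0 := by
  have := sg_top G (l - 1) (fun x => by have := h x; omega)
  rwa [sub_add_cancel] at this

theorem sg_low (G : SimpleGraph V) (l : ℤ) (h : ∀ x, l - 1 ≤ dg G x) :
    sg G l = tot G - (Fintype.card V : ℤ) * (l - 1) := by
  have := sg_bot G (l - 1) h
  rwa [sub_add_cancel] at this

/-- consecutive values of `sg G - sg H` are opposite -/
theorem psi_step {G H : SimpleGraph V} (hGH : ∀ v, ∃ w, CI G H v w) (hHG : ∀ w, ∃ v, CI G H v w)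
    (htot : tot G = tot H) (l : ℤ) (a : ℤ → ℤ)
    (hG : ∀ x, l - 1 ≤ dg G x → nbg G l x = a (dg G x))
    (h1 : ∃ x, dg G x < l) (h2 : ∃ x, l ≤ dg G x) :
    (sg G l - sg H l) + (sg G (l + 1) - sg H (l + 1)) = 0 := by
  have hH : ∀ y, l - 1 ≤ dg H y → nbg H l y = a (dg H y) - (sg G l - sg H l) := by
    intro y hy
    obtain ⟨v, hv⟩ := hHG y
    have hd := dg_eq_of_ci htot hv
    have h3 := nbg_shift hv hd l
    rw [hG v (by rw [hd]; exact hy), hd] at h3
    linarith
  obtain ⟨x1, hx1⟩ := h1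
  obtain ⟨x2, hx2⟩ := h2
  obtain ⟨y1, hy1⟩ := hGH x1
  obtain ⟨y2, hy2⟩ := hGH x2
  have p1 := pair_shift hy1 (dg_eq_of_ci htot hy1) l a hG hH
  have p2 := pair_shift hy2 (dg_eq_of_ci htot hy2) l a hG hH
  rw [ind_false (by omega)] at p1
  rw [ind_true hx2] at p2
  linarith

theorem CI.compl {G H : SimpleGraph V} {v w : V} (h : CI G H v w) : CI Gᶜ Hᶜ v w := by
  obtain ⟨σ, hv, hσ⟩ := h
  refine ⟨σ, hv, fun x y hx hy => ?_⟩
  rw [SimpleGraph.compl_adj, SimpleGraph.compl_adj, hσ x y hx hy, σ.injective.ne_iff]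

theorem sg_compl (G : SimpleGraph V) (j : ℤ) :
    sg Gᶜ ((Fintype.card V : ℤ) - j) = sg G (j + 1) + (Fintype.card V : ℤ) * j - tot G := by
  unfold sg tot
  have h1 : ∀ y, max (dg Gᶜ y - ((Fintype.card V : ℤ) - j) + 1) 0
      = max (dg G y - (j + 1) + 1) 0 + (j - dg G y) := by
    intro y
    rw [dg_compl]
    rcases le_total j (dg G y) with h | h
    · rw [max_eq_right (by omega), max_eq_left (by omega)]; ring
    · rw [max_eq_left (by omega), max_eq_right (by omega)]; ring
  rw [Finset.sum_congr rfl (fun y _ => h1 y), Finset.sum_add_distrib, Finset.sum_sub_distrib]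
  simp
  ring

theorem nbg_compl (G : SimpleGraph V) (j : ℤ) (x : V) :
    nbg Gᶜ ((Fintype.card V : ℤ) - j) x
      = (Fintype.card V : ℤ) - clg G j - ind (dg G x < j) - dg G x + nbg G j x := by
  unfold nbg clg
  have h1 : ∀ y, ind ((Fintype.card V : ℤ) - j ≤ dg Gᶜ y) = 1 - ind (j ≤ dg G y) := by
    intro y
    rw [dg_compl]
    by_cases h : j ≤ dg G y
    · rw [ind_true h, ind_false (by omega)]; ring
    · rw [ind_false h, ind_true (by omega)]; ring
  have h2 : ∑ y, ad Gᶜ x y * ind ((Fintype.card V : ℤ) - j ≤ dg Gᶜ y)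
      = ∑ y, ((1 : ℤ) - ind (j ≤ dg G y) - ad G x y + ad G x y * ind (j ≤ dg G y)
        - (1 - ind (j ≤ dg G y)) * ind (y = x)) := by
    refine Finset.sum_congr rfl (fun y _ => ?_)
    rw [h1, ad_compl, ind_congr (eq_comm : x = y ↔ y = x)]
    ring
  rw [h2, Finset.sum_sub_distrib, Finset.sum_add_distrib, Finset.sum_sub_distrib,
    Finset.sum_sub_distrib, sum_mul_ind_eq]
  have h3 : ind (dg G x < j) = 1 - ind (j ≤ dg G x) := by
    by_cases h : j ≤ dg G x
    · rw [ind_true h, ind_false (by omega)]; ring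
    · rw [ind_false h, ind_true (by omega)]; ring
  rw [h3]
  have h4 : ∑ y, ad G x y = dg G x := rfl
  rw [h4]
  simp
  ring

/-- the same for the small degrees -/
theorem psi_step_dual {G H : SimpleGraph V} (hGH : ∀ v, ∃ w, CI G H v w)
    (hHG : ∀ w, ∃ v, CI G H v w)
    (htot : tot G = tot H) (j : ℤ) (a : ℤ → ℤ)
    (hG : ∀ x, dg G x ≤ j → nbg G j x = a (dg G x))
    (h1 : ∃ x, dg G x < j) (h2 : ∃ x, j ≤ dg G x) :
    (sg G j - sg H j) + (sg G (j + 1) - sg H (j + 1)) = 0 := by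
  obtain ⟨n, hn⟩ : ∃ n : ℤ, n = (Fintype.card V : ℤ) := ⟨_, rfl⟩
  have key := psi_step (G := Gᶜ) (H := Hᶜ)
    (fun v => by obtain ⟨w, hw⟩ := hGH v; exact ⟨w, hw.compl⟩)
    (fun w => by obtain ⟨v, hv⟩ := hHG w; exact ⟨v, hv.compl⟩)
    (by rw [tot_compl, tot_compl, htot]) ((Fintype.card V : ℤ) - j)
    (fun k => n - clg G j - ind (n - 1 - k < j) - (n - 1 - k) + a (n - 1 - k))
    (fun x hx => by
      rw [dg_compl] at hx
      rw [nbg_compl, dg_compl, hG x (by omega), ← hn]
      rw [show n - 1 - (n - 1 - dg G x) = dg G x by ring])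
    (by
      obtain ⟨x, hx⟩ := h2
      exact ⟨x, by rw [dg_compl]; omega⟩)
    (by
      obtain ⟨x, hx⟩ := h1
      exact ⟨x, by rw [dg_compl]; omega⟩)
  rw [sg_compl, sg_compl, show (Fintype.card V : ℤ) - j + 1 = (Fintype.card V : ℤ) - (j - 1) by ring,
    sg_compl, sg_compl, sub_add_cancel] at key
  linarith

end Pool.Agent.Helper373_CM
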