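import Pool.Agent.Helper373_CM.Basic

set_option autoImplicit false
set_option linter.unusedSectionVars false
set_option linter.unnecessarySeqFocus false

namespace Pool.Agent.Helper373_CM

open Finset

variable {V : Type*} [Fintype V] [DecidableEq V]

theorem inv1 {G H : SimpleGraph V} {v w : V} (h : CI G H v w) (f : ℤ → ℤ) :
    ∑ x ∈ univ.erase v, f (dg G x - ad G x v) = ∑ x ∈ univ.erase w, f (dg H x - ad H x w) := by
  obtain ⟨σ, hv, hσ⟩ := h
  exact sum_card σ hv _ (fun x => f (dg H x - ad H x w)) (fun x hx => by rw [dg_card hv hσ hx])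

theorem inv2 {G H : SimpleGraph V} {v w : V} (h : CI G H v w) (f g : ℤ → ℤ) :
    ∑ x ∈ univ.erase v, ∑ y ∈ univ.erase v,
        ad G x y * f (dg G x - ad G x v) * g (dg G y - ad G y v)
      = ∑ x ∈ univ.erase w, ∑ y ∈ univ.erase w,
        ad H x y * f (dg H x - ad H x w) * g (dg H y - ad H y w) := by
  obtain ⟨σ, hv, hσ⟩ := h
  refine sum_card2 σ hv _ (fun x y => ad H x y * f (dg H x - ad H x w) * g (dg H y - ad H y w)) ?_
  intro x y hx hy
  have h1 : ad G x y = ad H (σ x) (σ y) := ind_congr (hσ x y hx hy)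
  rw [dg_card hv hσ hx, dg_card hv hσ hy, h1]

theorem dg_eq_sum' (G : SimpleGraph V) (v : V) : ∑ x, ad G x v = dg G v :=
  Finset.sum_congr rfl (fun x _ => ad_comm G x v)

theorem tot_card {G H : SimpleGraph V} {v w : V} (h : CI G H v w) :
    tot G - 2 * dg G v = tot H - 2 * dg H w := by
  have h1 := inv1 h (fun x => x)
  rw [sum_erase_eq, sum_erase_eq, Finset.sum_sub_distrib, Finset.sum_sub_distrib,
    dg_eq_sum', dg_eq_sum', ad_self, ad_self] at h1
  unfold tot
  linarith

theorem ind_le_sub (k d : ℤ) (p : Prop) :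
    ind (k ≤ d - ind p) = ind (k ≤ d) - ind p * ind (d = k) := by
  by_cases hp : p
  · rw [ind_true hp]
    by_cases h1 : k ≤ d - 1
    · rw [ind_true h1, ind_true (by omega : k ≤ d), ind_false (by omega : ¬ d = k)]; norm_num
    · by_cases h2 : d = k
      · rw [ind_false h1, ind_true (by omega : k ≤ d), ind_true h2]; norm_num
      · rw [ind_false h1, ind_false (by omega : ¬ k ≤ d), ind_false h2]; norm_num
  · rw [ind_false hp]
    simp

theorem clg_card {G H : SimpleGraph V} {v w : V} (h : CI G H v w) (k : ℤ) :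
    clg G k - ind (k ≤ dg G v) - nb G k v = clg H k - ind (k ≤ dg H w) - nb H k w := by
  have h1 := inv1 h (fun x => ind (k ≤ x))
  have e : ∀ (G : SimpleGraph V) (v : V),
      ∑ x ∈ univ.erase v, ind (k ≤ dg G x - ad G x v)
        = clg G k - ind (k ≤ dg G v) - nb G k v := by
    intro G v
    rw [sum_erase_eq, ad_self]
    have : ∀ x, ind (k ≤ dg G x - ad G x v) = ind (k ≤ dg G x) - ad G v x * ind (dg G x = k) := by
      intro x
      rw [show ad G x v = ind (G.Adj x v) from rfl, ind_le_sub, ad_comm G v x]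
      rfl
    rw [Finset.sum_congr rfl (fun x _ => this x), Finset.sum_sub_distrib]
    unfold clg nb
    rw [sub_zero]
    ring
  rw [e, e] at h1
  exact h1

/-- number of vertices of degree `k` is a difference -/
theorem cls_eq (G : SimpleGraph V) (k : ℤ) : cls G k = clg G k - clg G (k + 1) := by
  unfold cls clg
  rw [← Finset.sum_sub_distrib]
  refine Finset.sum_congr rfl (fun x _ => ?_)
  by_cases h1 : dg G x = k
  · rw [ind_true h1, ind_true (by omega : k ≤ dg G x), ind_false (by omega : ¬ k + 1 ≤ dg G x)]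
    norm_num
  · by_cases h2 : k ≤ dg G x
    · rw [ind_false h1, ind_true h2, ind_true (by omega : k + 1 ≤ dg G x)]; norm_num
    · rw [ind_false h1, ind_false h2, ind_false (by omega : ¬ k + 1 ≤ dg G x)]; norm_num

/-- `nb` for equal degrees: the difference does not depend on the card. -/
theorem nb_shift {G H : SimpleGraph V} {v w : V} (h : CI G H v w) (hd : dg G v = dg H w) (k : ℤ) :
    nb G k v - nb H k w = clg G k - clg H k := by
  have := clg_card h k
  rw [hd] at this
  linarith

/-- number of neighbours of degree at least `k` -/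
noncomputable def nbg (G : SimpleGraph V) (k : ℤ) (v : V) : ℤ := ∑ y, ad G v y * ind (k ≤ dg G y)

/-- sum over all vertices of `(d - k + 1)⁺` -/
noncomputable def sg (G : SimpleGraph V) (k : ℤ) : ℤ := ∑ y, max (dg G y - k + 1) 0

theorem max_sub (k d : ℤ) (p : Prop) :
    max (d - ind p - k + 1) 0 = max (d - k + 1) 0 - ind p * ind (k ≤ d) := by
  by_cases hp : p
  · rw [ind_true hp]
    by_cases h1 : k ≤ d
    · rw [ind_true h1, max_eq_left (by omega), max_eq_left (by omega)]; ring
    · rw [ind_false h1, max_eq_right (by omega), max_eq_right (by omega)]; ring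
  · rw [ind_false hp]; simp

theorem nbg_shift {G H : SimpleGraph V} {v w : V} (h : CI G H v w) (hd : dg G v = dg H w) (k : ℤ) :
    nbg G k v - nbg H k w = sg G k - sg H k := by
  have h1 := inv1 h (fun x => max (x - k + 1) 0)
  have e : ∀ (G : SimpleGraph V) (v : V),
      ∑ x ∈ univ.erase v, max (dg G x - ad G x v - k + 1) 0
        = sg G k - max (dg G v - k + 1) 0 - nbg G k v := by
    intro G v
    rw [sum_erase_eq, ad_self]
    have : ∀ x, max (dg G x - ad G x v - k + 1) 0
        = max (dg G x - k + 1) 0 - ad G v x * ind (k ≤ dg G x) := by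
      intro x
      rw [show ad G x v = ind (G.Adj x v) from rfl, max_sub, ad_comm G v x]
      rfl
    rw [Finset.sum_congr rfl (fun x _ => this x), Finset.sum_sub_distrib]
    unfold sg nbg
    rw [sub_zero]
    ring
  rw [e, e, hd] at h1
  linarith

theorem sg_sub (G : SimpleGraph V) (k : ℤ) : sg G k - sg G (k + 1) = clg G k := by
  unfold sg clg
  rw [← Finset.sum_sub_distrib]
  refine Finset.sum_congr rfl (fun x _ => ?_)
  by_cases h2 : k ≤ dg G x
  · rw [ind_true h2, max_eq_left (by omega), max_eq_left (by omega)]; ring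
  · rw [ind_false h2, max_eq_right (by omega), max_eq_right (by omega)]; ring

/-- double counting of edges between two degree classes -/
theorem cross_count (G : SimpleGraph V) (k l : ℤ) :
    ∑ x, ind (dg G x = k) * nb G l x = ∑ x, ind (dg G x = l) * nb G k x := by
  unfold nb
  simp only [Finset.mul_sum]
  rw [Finset.sum_comm]
  refine Finset.sum_congr rfl (fun x _ => Finset.sum_congr rfl (fun y _ => ?_))
  rw [ad_comm G y x]
  ring

theorem sum_nb (G : SimpleGraph V) (k : ℤ) : ∑ x, nb G k x = k * cls G k := by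
  unfold nb cls
  rw [Finset.sum_comm, Finset.mul_sum]
  refine Finset.sum_congr rfl (fun y _ => ?_)
  rw [← Finset.sum_mul, dg_eq_sum']
  by_cases h : dg G y = k
  · rw [h]
  · rw [ind_false h]; ring

end Pool.Agent.Helper373_CM
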