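import Pool.Agent.Helper373_CM.Wrap

/-! Two earlier results, now special cases of `OneRepeatedEdgeNumber` and
`EquitableNoThreeConsecutive`. -/

set_option autoImplicit false

namespace Pool.Agent.Helper373_CM.DistinctEdgeNumbers

open Pool.Agent.Helper373_CM

theorem superseded :
    ∀ n : ℕ, 4 ≤ n → ∀ G H : SimpleGraph (Fin n),
      (∀ v : Fin n, ∃ w : Fin n,
        Nonempty (G.induce ({v}ᶜ : Set (Fin n)) ≃g H.induce ({w}ᶜ : Set (Fin n)))) →
      (∀ w : Fin n, ∃ v : Fin n,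
        Nonempty (G.induce ({v}ᶜ : Set (Fin n)) ≃g H.induce ({w}ᶜ : Set (Fin n)))) →
      (∀ u v : Fin n, (G.induce ({u}ᶜ : Set (Fin n))).edgeSet.ncard
          = (G.induce ({v}ᶜ : Set (Fin n))).edgeSet.ncard →
        Nonempty (G.induce ({u}ᶜ : Set (Fin n)) ≃g G.induce ({v}ᶜ : Set (Fin n)))) →
      ∀ v : Fin n,
        Set.ncard {u : Fin n |
          Nonempty (G.induce ({u}ᶜ : Set (Fin n)) ≃g G.induce ({v}ᶜ : Set (Fin n)))} =
        Set.ncard {u : Fin n |
          Nonempty (H.induce ({u}ᶜ : Set (Fin n)) ≃g G.induce ({v}ᶜ : Set (Fin n)))} := by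
  intro n hn G H h1 h2 h3 v
  haveI : Nonempty (Fin n) := ⟨v⟩
  refine wrap hn G H h1 h2 (fun g1 g2 g3 v => ?_) v
  refine cnt_eq_of_dist g1 g2 g3 (fun x y hxy => ?_) v
  refine (ci_iff _ _ _ _).mp (h3 x y ?_)
  have e1 := card_edges G x
  have e2 := card_edges G y
  omega

end Pool.Agent.Helper373_CM.DistinctEdgeNumbers

namespace Pool.Agent.Helper373_CM.TwoDegreesEquitable

open Pool.Agent.Helper373_CM

theorem superseded :
    ∀ n : ℕ, 4 ≤ n → ∀ G H : SimpleGraph (Fin n),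
      (∀ v : Fin n, ∃ w : Fin n,
        Nonempty (G.induce ({v}ᶜ : Set (Fin n)) ≃g H.induce ({w}ᶜ : Set (Fin n)))) →
      (∀ w : Fin n, ∃ v : Fin n,
        Nonempty (G.induce ({v}ᶜ : Set (Fin n)) ≃g H.induce ({w}ᶜ : Set (Fin n)))) →
      (∃ e f : ℕ,
        (∀ x : Fin n, (G.neighborSet x).ncard = e ∨ (G.neighborSet x).ncard = f) ∧
        ∀ u v : Fin n, (G.neighborSet u).ncard = (G.neighborSet v).ncard →
          Set.ncard {y : Fin n | G.Adj u y ∧ (G.neighborSet y).ncard = e} =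
          Set.ncard {y : Fin n | G.Adj v y ∧ (G.neighborSet y).ncard = e}) →
      ∀ v : Fin n,
        Set.ncard {u : Fin n |
          Nonempty (G.induce ({u}ᶜ : Set (Fin n)) ≃g G.induce ({v}ᶜ : Set (Fin n)))} =
        Set.ncard {u : Fin n |
          Nonempty (H.induce ({u}ᶜ : Set (Fin n)) ≃g G.induce ({v}ᶜ : Set (Fin n)))} := by
  intro n hn G H h1 h2 h3 v
  have : Nonempty (Fin n) := ⟨v⟩
  refine wrap hn G H h1 h2 (fun g1 g2 g3 v => ?_) v
  obtain ⟨e, f, hef, heq⟩ := h3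
  have hd : ∀ x, dg G x = (((G.neighborSet x).ncard : ℕ) : ℤ) := fun x => (deg_ncard G x).symm
  have hnb : ∀ x, nb G (e : ℤ) x
      = ((Set.ncard {y : Fin n | G.Adj x y ∧ (G.neighborSet y).ncard = e} : ℕ) : ℤ) := by
    intro x
    rw [ncard_ind]
    unfold nb
    refine Finset.sum_congr rfl (fun y _ => ?_)
    by_cases h1 : G.Adj x y
    · by_cases h2 : (G.neighborSet y).ncard = e
      · have e1 : ad G x y = 1 := ind_true h1
        have e2 : ind (dg G y = (e : ℤ)) = 1 := ind_true (show dg G y = (e : ℤ) by rw [hd y, h2])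
        have e3 : ind (G.Adj x y ∧ (G.neighborSet y).ncard = e) = 1 := ind_true (And.intro h1 h2)
        rw [e1, e2, e3]; ring
      · have e2 : ind (dg G y = (e : ℤ)) = 0 :=
          ind_false (fun h : dg G y = (e : ℤ) => h2 (by rw [hd y] at h; exact_mod_cast h))
        have e3 : ind (G.Adj x y ∧ (G.neighborSet y).ncard = e) = 0 :=
          ind_false (fun h : (G.Adj x y ∧ (G.neighborSet y).ncard = e) => h2 h.2)
        rw [e2, e3]; ring
    · have e1 : ad G x y = 0 := ind_false h1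
      have e3 : ind (G.Adj x y ∧ (G.neighborSet y).ncard = e) = 0 :=
        ind_false (fun h : (G.Adj x y ∧ (G.neighborSet y).ncard = e) => h1 h.1)
      rw [e1, e3]; ring
  refine cnt_eq_of_two_degrees g1 g2 g3 (e : ℤ) (f : ℤ) (fun x => ?_) (fun x y hxy => ?_) v
  · rcases hef x with h | h
    · left; rw [hd x, h]
    · right; rw [hd x, h]
  · rw [hnb, hnb, heq x y (by rw [hd x, hd y] at hxy; exact_mod_cast hxy)]

end Pool.Agent.Helper373_CM.TwoDegreesEquitable
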