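import Pool.Agent.Helper373_CM.Wrap3
import Pool.Agent.Helper373_CM.Equi

/-! Two earlier results, now special cases of `OneNonuniformDegreePerRun` and
`EquitableUpToIsolatedDegrees`. -/

set_option autoImplicit false

namespace Pool.Agent.Helper373_CM.OneRepeatedEdgeNumber

open Pool.Agent.Helper373_CM

theorem superseded :
    ∀ n : ℕ, 4 ≤ n → ∀ G H : SimpleGraph (Fin n),
      (∀ v : Fin n, ∃ w : Fin n,
        Nonempty (G.induce ({v}ᶜ : Set (Fin n)) ≃g H.induce ({w}ᶜ : Set (Fin n)))) →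
      (∀ w : Fin n, ∃ v : Fin n,
        Nonempty (G.induce ({v}ᶜ : Set (Fin n)) ≃g H.induce ({w}ᶜ : Set (Fin n)))) →
      (∃ e : ℕ,
        (∀ u v : Fin n, (G.induce ({u}ᶜ : Set (Fin n))).edgeSet.ncard
            = (G.induce ({v}ᶜ : Set (Fin n))).edgeSet.ncard →
          (G.induce ({u}ᶜ : Set (Fin n))).edgeSet.ncard ≠ e →
          Nonempty (G.induce ({u}ᶜ : Set (Fin n)) ≃g G.induce ({v}ᶜ : Set (Fin n)))) ∧
        (∀ a : Fin n → ℚ,
          (∀ u v : Fin n,
            Nonempty (G.induce ({u}ᶜ : Set (Fin n)) ≃g G.induce ({v}ᶜ : Set (Fin n))) →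
            a u = a v) →
          (∀ u : Fin n, (G.induce ({u}ᶜ : Set (Fin n))).edgeSet.ncard ≠ e → a u = 0) →
          ∑ u, a u = 0 →
          (∀ k : ℕ, ∑ u, a u * ((Set.ncard {x : ({u}ᶜ : Set (Fin n)) |
            ((G.induce ({u}ᶜ : Set (Fin n))).neighborSet x).ncard = k} : ℕ) : ℚ) = 0) →
          ∀ u, a u = 0)) →
      ∀ v : Fin n,
        Set.ncard {u : Fin n |
          Nonempty (G.induce ({u}ᶜ : Set (Fin n)) ≃g G.induce ({v}ᶜ : Set (Fin n)))} =
        Set.ncard {u : Fin n |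
          Nonempty (H.induce ({u}ᶜ : Set (Fin n)) ≃g G.induce ({v}ᶜ : Set (Fin n)))} := by
  intro n hn G H h1 h2 h3 v
  haveI : Nonempty (Fin n) := ⟨v⟩
  obtain ⟨e, he, haff⟩ := h3
  refine wrap hn G H h1 h2 (fun g1 g2 g3 v => ?_) v
  obtain ⟨c, hc⟩ : ∃ c : ℤ, ∀ u,
      dg G u = c ↔ (G.induce ({u}ᶜ : Set (Fin n))).edgeSet.ncard = e := by
    by_cases hex : ∃ u0, (G.induce ({u0}ᶜ : Set (Fin n))).edgeSet.ncard = e
    · obtain ⟨u0, hu0⟩ := hex
      refine ⟨dg G u0, fun u => ?_⟩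
      have e1 := card_edges G u
      have e2 := card_edges G u0
      rw [hu0] at e2
      constructor
      · intro h
        rw [h] at e1
        omega
      · intro h
        rw [h] at e1
        omega
    · refine ⟨-1, fun u => ⟨fun h => ?_, fun h => absurd ⟨u, h⟩ hex⟩⟩
      have := dg_nonneg G u
      omega
  refine cnt_eq_of_one_repeated g1 g2 g3 c (fun x y hxy hx => ?_) (fun a ha1 ha2 ha3 ha4 => ?_) v
  · refine (ci_iff _ _ _ _).mp (he x y ?_ (fun h => hx ((hc x).mpr h)))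
    have e1 := card_edges G x
    have e2 := card_edges G y
    omega
  · refine haff a (fun u v huv => ha1 u v ((ci_iff _ _ _ _).mp huv))
      (fun u hu => ha2 u (fun h => hu ((hc u).mp h))) ha3 (fun k => ?_)
    rw [← ha4 (k : ℤ)]
    refine Finset.sum_congr rfl (fun u _ => ?_)
    rw [← card_deg_ncard]
    norm_cast

end Pool.Agent.Helper373_CM.OneRepeatedEdgeNumber

namespace Pool.Agent.Helper373_CM.EquitableNoThreeConsecutive

open Pool.Agent.Helper373_CM

theorem superseded :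
    ∀ n : ℕ, 4 ≤ n → ∀ G H : SimpleGraph (Fin n),
      (∀ v : Fin n, ∃ w : Fin n,
        Nonempty (G.induce ({v}ᶜ : Set (Fin n)) ≃g H.induce ({w}ᶜ : Set (Fin n)))) →
      (∀ w : Fin n, ∃ v : Fin n,
        Nonempty (G.induce ({v}ᶜ : Set (Fin n)) ≃g H.induce ({w}ᶜ : Set (Fin n)))) →
      (∀ u v : Fin n, (G.neighborSet u).ncard = (G.neighborSet v).ncard → ∀ k : ℕ,
          Set.ncard {y : Fin n | G.Adj u y ∧ (G.neighborSet y).ncard = k} =
          Set.ncard {y : Fin n | G.Adj v y ∧ (G.neighborSet y).ncard = k}) →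
      (¬ ∃ x y z : Fin n, (G.neighborSet y).ncard = (G.neighborSet x).ncard + 1 ∧
          (G.neighborSet z).ncard = (G.neighborSet x).ncard + 2) →
      ∀ v : Fin n,
        Set.ncard {u : Fin n |
          Nonempty (G.induce ({u}ᶜ : Set (Fin n)) ≃g G.induce ({v}ᶜ : Set (Fin n)))} =
        Set.ncard {u : Fin n |
          Nonempty (H.induce ({u}ᶜ : Set (Fin n)) ≃g G.induce ({v}ᶜ : Set (Fin n)))} := by
  intro n hn G H h1 h2 h3 h4 v
  have : Nonempty (Fin n) := ⟨v⟩
  have hd : ∀ x, dg G x = (((G.neighborSet x).ncard : ℕ) : ℤ) := fun x => (deg_ncard G x).symm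
  refine wrap hn G H h1 h2 (fun g1 g2 g3 v => ?_) v
  refine cnt_eq_of_equitable g1 g2 g3 (fun x y hxy l => ?_) (fun x y z hy hz => h4 ?_) v
  · exact nbg_eq_of_ncard G x y
      (h3 x y (by rw [hd x, hd y] at hxy; exact_mod_cast hxy)) l
  · rw [hd x, hd y] at hy
    rw [hd x, hd z] at hz
    exact ⟨x, y, z, by exact_mod_cast hy, by exact_mod_cast hz⟩

end Pool.Agent.Helper373_CM.EquitableNoThreeConsecutive
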