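import Pool.Agent.Helper373_CM.Count

set_option autoImplicit false
set_option linter.unusedSectionVars false
set_option linter.unnecessarySeqFocus false
set_option linter.unusedVariables false

namespace Pool.Agent.Helper373_CM

open Finset

variable {V : Type*} [Fintype V] [DecidableEq V]

/-- cards with the same number of edges are isomorphic -/
theorem cnt_eq_of_dist [Nonempty V] {G H : SimpleGraph V}
    (hGH : ∀ v, ∃ w, CI G H v w) (hHG : ∀ w, ∃ v, CI G H v w) (htot : tot G = tot H)
    (hdist : Dist G) (v0 : V) : cnt G G v0 = cnt H G v0 := by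
  have h1 : ∀ u, CI G G u v0 ↔ dg G u = dg G v0 := fun u =>
    ⟨fun h => by have := tot_card h; omega, fun h => hdist u v0 h⟩
  have h2 : ∀ u, CI H G u v0 ↔ dg H u = dg G v0 := by
    intro u
    constructor
    · intro h
      have := tot_card h
      omega
    · intro h
      obtain ⟨v, hv⟩ := hHG u
      have h3 := dg_eq_of_ci htot hv
      exact hv.symm.trans (hdist v v0 (h3.trans h))
  unfold cnt
  rw [Finset.sum_congr rfl (fun u _ => ind_congr (h1 u)),
    Finset.sum_congr rfl (fun u _ => ind_congr (h2 u))]
  change cls G (dg G v0) = cls H (dg G v0)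
  rw [cls_eq, cls_eq, clg_eq_of_dist hGH hHG htot hdist, clg_eq_of_dist hGH hHG htot hdist]

/-- two degrees at distance at least two -/
theorem iso_of_gap {G H : SimpleGraph V} [Nonempty V]
    (hGH : ∀ v, ∃ w, CI G H v w) (hHG : ∀ w, ∃ v, CI G H v w) (htot : tot G = tot H)
    (e f : ℤ) (hef : ∀ x, dg G x = e ∨ dg G x = f) (hgap : 2 ≤ e - f ∨ 2 ≤ f - e) :
    IsoTo G H := by
  have dd : ∀ v w, CI G H v w → dg G v = dg H w := fun v w h => dg_eq_of_ci htot h
  have hefH : ∀ x, dg H x = e ∨ dg H x = f := by
    intro x
    obtain ⟨v, hv⟩ := hHG x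
    rw [← dd _ _ hv]; exact hef v
  obtain ⟨v⟩ := ‹Nonempty V›
  obtain ⟨w, hvw⟩ := hGH v
  obtain ⟨σ, hσv, hσ⟩ := hvw
  have key : ∀ x, x ≠ v → (G.Adj x v ↔ H.Adj (σ x) w) := by
    intro x hx
    have h1 := dg_card hσv hσ hx
    have h2 := hef x
    have h3 := hefH (σ x)
    by_cases hA : G.Adj x v
    · by_cases hB : H.Adj (σ x) w
      · exact ⟨fun _ => hB, fun _ => hA⟩
      · rw [show ad G x v = 1 from ind_true hA, show ad H (σ x) w = 0 from ind_false hB] at h1
        omega
    · by_cases hB : H.Adj (σ x) w
      · rw [show ad G x v = 0 from ind_false hA, show ad H (σ x) w = 1 from ind_true hB] at h1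
        omega
      · exact ⟨fun h => absurd h hA, fun h => absurd h hB⟩
  refine ⟨σ, fun x y => ?_⟩
  by_cases hx : x = v
  · by_cases hy : y = v
    · rw [hx, hy]
      exact ⟨fun h => absurd h (G.loopless.irrefl v), fun h => absurd h (H.loopless.irrefl _)⟩
    · rw [hx, hσv, G.adj_comm, H.adj_comm]
      exact key y hy
  · by_cases hy : y = v
    · rw [hy, hσv]
      exact key x hx
    · exact hσ x y hx hy

/-- **At most two degrees, equitable.** -/
theorem cnt_eq_of_two_degrees [Nonempty V] {G H : SimpleGraph V}
    (hGH : ∀ v, ∃ w, CI G H v w) (hHG : ∀ w, ∃ v, CI G H v w) (htot : tot G = tot H)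
    (e f : ℤ) (hef : ∀ x, dg G x = e ∨ dg G x = f)
    (heq : ∀ u v, dg G u = dg G v → nb G e u = nb G e v) (v0 : V) :
    cnt G G v0 = cnt H G v0 := by
  by_cases hgap : 2 ≤ e - f ∨ 2 ≤ f - e
  · exact cnt_iso (iso_of_gap hGH hHG htot e f hef hgap) v0
  · push Not at hgap
    rcases lt_trichotomy e f with h | h | h
    · refine cnt_eq_consecutive hGH hHG htot e (fun x => ?_) heq v0
      rcases hef x with h' | h'
      · left; exact h'
      · right; omega
    · refine cnt_eq_consecutive hGH hHG htot e (fun x => ?_) heq v0
      rcases hef x with h' | h' <;> left <;> omega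
    · refine cnt_eq_consecutive hGH hHG htot f (fun x => ?_) (fun u v huv => ?_) v0
      · rcases hef x with h' | h'
        · right; omega
        · left; exact h'
      · have key : ∀ x, nb G f x = dg G x - nb G e x := by
          intro x
          unfold nb dg
          rw [← Finset.sum_sub_distrib]
          refine Finset.sum_congr rfl (fun y _ => ?_)
          change ad G x y * ind (dg G y = f) = ad G x y - ad G x y * ind (dg G y = e)
          rcases hef y with h' | h'
          · rw [ind_true h', ind_false (by omega)]; ring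
          · rw [ind_true h', ind_false (by omega)]; ring
        rw [key, key, huv, heq u v huv]

theorem cnt_eq_three [Nonempty V] {G H : SimpleGraph V}
    (hGH : ∀ v, ∃ w, CI G H v w) (hHG : ∀ w, ∃ v, CI G H v w) (htot : tot G = tot H)
    (a b c : V) (habc : ∀ x, CI G G x a ∨ CI G G x b ∨ CI G G x c) (v0 : V) :
    cnt G G v0 = cnt H G v0 := by
  by_cases hdist : Dist G
  · exact cnt_eq_of_dist hGH hHG htot hdist v0
  have dd : ∀ v w, CI G H v w → dg G v = dg H w := fun v w h => dg_eq_of_ci htot h
  have ddG : ∀ v w, CI G G v w → dg G v = dg G w := fun v w h => dg_eq_of_ci rfl h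
  unfold Dist at hdist
  push Not at hdist
  obtain ⟨u, v, huv, hnci⟩ := hdist
  obtain ⟨w, hw⟩ : ∃ w, ∀ x, CI G G x u ∨ CI G G x v ∨ CI G G x w := by
    rcases habc u with hu | hu | hu <;> rcases habc v with hv | hv | hv
    · exact absurd (hu.trans hv.symm) hnci
    · refine ⟨c, fun x => ?_⟩
      rcases habc x with h | h | h
      · exact Or.inl (h.trans hu.symm)
      · exact Or.inr (Or.inl (h.trans hv.symm))
      · exact Or.inr (Or.inr h)
    · refine ⟨b, fun x => ?_⟩
      rcases habc x with h | h | h
      · exact Or.inl (h.trans hu.symm)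
      · exact Or.inr (Or.inr h)
      · exact Or.inr (Or.inl (h.trans hv.symm))
    · refine ⟨c, fun x => ?_⟩
      rcases habc x with h | h | h
      · exact Or.inr (Or.inl (h.trans hv.symm))
      · exact Or.inl (h.trans hu.symm)
      · exact Or.inr (Or.inr h)
    · exact absurd (hu.trans hv.symm) hnci
    · refine ⟨a, fun x => ?_⟩
      rcases habc x with h | h | h
      · exact Or.inr (Or.inr h)
      · exact Or.inl (h.trans hu.symm)
      · exact Or.inr (Or.inl (h.trans hv.symm))
    · refine ⟨b, fun x => ?_⟩
      rcases habc x with h | h | h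
      · exact Or.inr (Or.inl (h.trans hv.symm))
      · exact Or.inr (Or.inr h)
      · exact Or.inl (h.trans hu.symm)
    · refine ⟨a, fun x => ?_⟩
      rcases habc x with h | h | h
      · exact Or.inr (Or.inr h)
      · exact Or.inr (Or.inl (h.trans hv.symm))
      · exact Or.inl (h.trans hu.symm)
    · exact absurd (hu.trans hv.symm) hnci
  obtain ⟨e, he⟩ : ∃ e, e = dg G u := ⟨_, rfl⟩
  obtain ⟨f, hf⟩ : ∃ f, f = dg G w := ⟨_, rfl⟩
  have hev : dg G v = e := by omega
  have hef : ∀ x, dg G x = e ∨ dg G x = f := by
    intro x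
    rcases hw x with h | h | h
    · left; rw [ddG _ _ h, he]
    · left; rw [ddG _ _ h, hev]
    · right; rw [ddG _ _ h, hf]
  have hefH : ∀ x, dg H x = e ∨ dg H x = f := by
    intro x
    obtain ⟨y, hy⟩ := hHG x
    rw [← dd _ _ hy]; exact hef y
  by_cases hfe : f = e
  · -- regular graph
    refine cnt_eq_of_two_degrees hGH hHG htot e e (fun x => ?_) (fun x y hxy => ?_) v0
    · rcases hef x with h | h
      · exact Or.inl h
      · left; omega
    · have key : ∀ x, nb G e x = dg G x := by
        intro x
        unfold nb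
        refine Finset.sum_congr rfl (fun y _ => ?_)
        rw [ind_true (by rcases hef y with h | h <;> omega), mul_one]
      rw [key, key, hxy]
  -- the third card type has a different degree
  have hcuv : ∀ x, ind (CI G G x u) + ind (CI G G x v) = ind (dg G x = e) := by
    intro x
    rcases hw x with h | h | h
    · rw [ind_true h, ind_false (fun h' => hnci (h.symm.trans h')),
        ind_true ((ddG _ _ h).trans he.symm)]
      norm_num
    · rw [ind_true h, ind_false (fun h' => hnci (h'.symm.trans h)),
        ind_true ((ddG _ _ h).trans hev)]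
      norm_num
    · have hx : dg G x = f := (ddG _ _ h).trans hf.symm
      rw [ind_false (fun h' => hfe (hx.symm.trans ((ddG _ _ h').trans he.symm))),
        ind_false (fun h' => hfe (hx.symm.trans ((ddG _ _ h').trans hev))),
        ind_false (fun h' => hfe (hx.symm.trans h'))]
      norm_num
  have hcw : ∀ x, ind (CI G G x w) = ind (dg G x = f) := by
    intro x
    refine ind_congr ⟨fun h => (ddG _ _ h).trans hf.symm, fun hx => ?_⟩
    rcases hw x with h | h | h
    · exact absurd (hx.symm.trans ((ddG _ _ h).trans he.symm)) hfe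
    · exact absurd (hx.symm.trans ((ddG _ _ h).trans hev)) hfe
    · exact h
  -- same for `H`
  have hHCI : ∀ x y, CI G H y x → ∀ t, (CI H G x t ↔ CI G G y t) := fun x y h t =>
    ⟨fun h' => h.trans h', fun h' => h.symm.trans h'⟩
  have hcuvH : ∀ x, ind (CI H G x u) + ind (CI H G x v) = ind (dg H x = e) := by
    intro x
    obtain ⟨y, hy⟩ := hHG x
    rw [ind_congr (hHCI x y hy u), ind_congr (hHCI x y hy v), hcuv, dd _ _ hy]
  have hcwH : ∀ x, ind (CI H G x w) = ind (dg H x = f) := by
    intro x
    obtain ⟨y, hy⟩ := hHG x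
    rw [ind_congr (hHCI x y hy w), hcw, dd _ _ hy]
  have clsn : ∀ (K : SimpleGraph V), (∀ x, dg K x = e ∨ dg K x = f) →
      cls K e + cls K f = (Fintype.card V : ℤ) ∧ e * cls K e + f * cls K f = tot K := by
    intro K hK
    constructor
    · unfold cls
      rw [← Finset.sum_add_distrib, Finset.sum_congr rfl (fun x _ => (by
        rcases hK x with h | h
        · rw [ind_true h, ind_false (by omega)]; ring
        · rw [ind_true h, ind_false (by omega)]; ring :
          ind (dg K x = e) + ind (dg K x = f) = 1))]
      simp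
    · unfold cls tot
      rw [Finset.mul_sum, Finset.mul_sum, ← Finset.sum_add_distrib]
      refine Finset.sum_congr rfl (fun x _ => ?_)
      rcases hK x with h | h
      · rw [ind_true h, ind_false (by omega), h]; ring
      · rw [ind_true h, ind_false (by omega), h]; ring
  obtain ⟨n1, t1⟩ := clsn G hef
  obtain ⟨n2, t2⟩ := clsn H hefH
  have hclse : cls G e = cls H e := by
    have h1 : (e - f) * (cls G e - cls H e) = 0 := by
      linear_combination t1 - t2 + htot - f * (n1 - n2)
    rcases mul_eq_zero.mp h1 with h | h
    · exact absurd (by omega) hfe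
    · omega
  have hclsf : cls G f = cls H f := by omega
  have hclge : clg G e = clg H e := by
    have key : ∀ (K : SimpleGraph V), (∀ x, dg K x = e ∨ dg K x = f) →
        clg K e = if f < e then cls K e else (Fintype.card V : ℤ) := by
      intro K hK
      split_ifs with hlt
      · unfold clg cls
        refine Finset.sum_congr rfl (fun x _ => ind_congr ?_)
        rcases hK x with h | h <;> constructor <;> intro h' <;> omega
      · exact clg_bot K e (fun x => by rcases hK x with h | h <;> omega)
    rw [key G hef, key H hefH, hclse]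
  -- counting of neighbours of degree `e`
  have s1 := sum_nb G e
  have s2 := sum_nb H e
  have nbG : ∀ x, nb G e x = ind (CI G G x u) * nb G e u + ind (CI G G x v) * nb G e v
      + ind (CI G G x w) * nb G e w := by
    intro x
    have cst : ∀ t, CI G G x t → nb G e x = nb G e t := by
      intro t h
      have := nb_shift h (ddG _ _ h) e
      linarith
    rcases hw x with h | h | h
    · have hx : dg G x = e := (ddG _ _ h).trans he.symm
      have h2 := hcuv x
      have h3 : ind (CI G G x w) = 0 := by
        rw [hcw x]; exact ind_false (fun h' => hfe (h'.symm.trans hx))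
      rw [ind_true h, ind_true hx] at h2
      rw [cst u h, ind_true h, h3, (by linarith : ind (CI G G x v) = 0)]; ring
    · have hx : dg G x = e := (ddG _ _ h).trans hev
      have h2 := hcuv x
      have h3 : ind (CI G G x w) = 0 := by
        rw [hcw x]; exact ind_false (fun h' => hfe (h'.symm.trans hx))
      rw [ind_true h, ind_true hx] at h2
      rw [cst v h, ind_true h, h3, (by linarith : ind (CI G G x u) = 0)]; ring
    · have h2 : ind (CI G G x u) + ind (CI G G x v) = 0 := by
        rw [hcuv x]
        exact ind_false (fun h' => hfe (((ddG _ _ h).trans hf.symm).symm.trans h'))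
      have p1 := ind_nonneg (CI G G x u)
      have p2 := ind_nonneg (CI G G x v)
      rw [cst w h, ind_true h, (by linarith : ind (CI G G x u) = 0),
        (by linarith : ind (CI G G x v) = 0)]; ring
  have nbH : ∀ x, nb H e x = ind (CI H G x u) * nb G e u + ind (CI H G x v) * nb G e v
      + ind (CI H G x w) * nb G e w := by
    intro x
    obtain ⟨y, hy⟩ := hHG x
    have h1 := nb_shift hy (dd _ _ hy) e
    rw [ind_congr (hHCI x y hy u), ind_congr (hHCI x y hy v), ind_congr (hHCI x y hy w), ← nbG y]
    linarith
  have S1 : ∑ x, nb G e x = cnt G G u * nb G e u + cnt G G v * nb G e v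
      + cnt G G w * nb G e w := by
    unfold cnt
    rw [Finset.sum_mul, Finset.sum_mul, Finset.sum_mul, ← Finset.sum_add_distrib,
      ← Finset.sum_add_distrib]
    exact Finset.sum_congr rfl (fun x _ => nbG x)
  have S2 : ∑ x, nb H e x = cnt H G u * nb G e u + cnt H G v * nb G e v
      + cnt H G w * nb G e w := by
    unfold cnt
    rw [Finset.sum_mul, Finset.sum_mul, Finset.sum_mul, ← Finset.sum_add_distrib,
      ← Finset.sum_add_distrib]
    exact Finset.sum_congr rfl (fun x _ => nbH x)
  have c1 : cnt G G u + cnt G G v = cls G e := by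
    unfold cnt cls
    rw [← Finset.sum_add_distrib]
    exact Finset.sum_congr rfl (fun x _ => hcuv x)
  have c2 : cnt H G u + cnt H G v = cls H e := by
    unfold cnt cls
    rw [← Finset.sum_add_distrib]
    exact Finset.sum_congr rfl (fun x _ => hcuvH x)
  have c3 : cnt G G w = cls G f := by
    unfold cnt cls
    exact Finset.sum_congr rfl (fun x _ => hcw x)
  have c4 : cnt H G w = cls H f := by
    unfold cnt cls
    exact Finset.sum_congr rfl (fun x _ => hcwH x)
  have key : (cnt G G u - cnt H G u) * (nb G e u - nb G e v) = 0 := by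
    have h1 : cnt G G w = cnt H G w := by rw [c3, c4, hclsf]
    have h2 : cnt G G v - cnt H G v = -(cnt G G u - cnt H G u) := by linarith
    have h3 : ∑ x, nb G e x = ∑ x, nb H e x := by rw [s1, s2, hclse]
    rw [S1, S2, h1] at h3
    linear_combination h3 - (nb G e v) * h2
  rcases mul_eq_zero.mp key with h | h
  · -- all multiplicities agree
    have cntcongr : ∀ t, CI G G v0 t → (cnt G G v0 = cnt G G t ∧ cnt H G v0 = cnt H G t) := by
      intro t ht
      constructor
      · unfold cnt
        exact Finset.sum_congr rfl (fun x _ => ind_congr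
          ⟨fun h => h.trans ht, fun h => h.trans ht.symm⟩)
      · unfold cnt
        exact Finset.sum_congr rfl (fun x _ => ind_congr
          ⟨fun h => h.trans ht, fun h => h.trans ht.symm⟩)
    rcases hw v0 with h' | h' | h'
    · obtain ⟨g1, g2⟩ := cntcongr u h'
      rw [g1, g2]; linarith
    · obtain ⟨g1, g2⟩ := cntcongr v h'
      rw [g1, g2]; linarith
    · obtain ⟨g1, g2⟩ := cntcongr w h'
      rw [g1, g2, c3, c4, hclsf]
  · -- the degree partition is equitable
    refine cnt_eq_of_two_degrees hGH hHG htot e f hef (fun x y hxy => ?_) v0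
    have hconst : ∀ z, dg G z = e → nb G e z = nb G e u := by
      intro z hz
      have cst : ∀ t, CI G G z t → nb G e z = nb G e t := by
        intro t h
        have := nb_shift h (ddG _ _ h) e
        linarith
      rcases hw z with h' | h' | h'
      · exact cst u h'
      · rw [cst v h']; linarith
      · exact absurd (((ddG _ _ h').trans hf.symm).symm.trans hz) hfe
    have hconst' : ∀ z, dg G z = f → nb G e z = nb G e w := by
      intro z hz
      have cst : ∀ t, CI G G z t → nb G e z = nb G e t := by
        intro t h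
        have := nb_shift h (ddG _ _ h) e
        linarith
      rcases hw z with h' | h' | h'
      · exact absurd (hz.symm.trans ((ddG _ _ h').trans he.symm)) hfe
      · exact absurd (hz.symm.trans ((ddG _ _ h').trans hev)) hfe
      · exact cst w h'
    rcases hef x with hx | hx
    · rw [hconst x hx, hconst y (hxy.symm.trans hx)]
    · rw [hconst' x hx, hconst' y (hxy.symm.trans hx)]

/-! ### translation to Mathlib notions -/

theorem ncard_ind (p : V → Prop) : ((Set.ncard {x | p x} : ℕ) : ℤ) = ∑ x, ind (p x) := by
  classical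
  rw [Set.ncard_eq_toFinset_card', Set.toFinset_ofPred, Finset.card_filter]
  push_cast
  refine Finset.sum_congr rfl (fun x _ => ?_)
  by_cases h : p x
  · rw [ind_true h, if_pos h]
  · rw [ind_false h, if_neg h]

theorem deg_ncard (G : SimpleGraph V) (x : V) : (((G.neighborSet x).ncard : ℕ) : ℤ) = dg G x :=
  ncard_ind (fun y => G.Adj x y)

theorem tot_eq_edges {W : Type*} [Fintype W] [DecidableEq W] (K : SimpleGraph W) :
    2 * ((K.edgeSet.ncard : ℕ) : ℤ) = ∑ x, ∑ y, ind (K.Adj x y) := by
  classical
  have h := K.sum_degrees_eq_twice_card_edges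
  have h1 : K.edgeSet.ncard = K.edgeFinset.card := by
    rw [Set.ncard_eq_toFinset_card']
    rfl
  rw [h1]
  have h2 : ((∑ v, K.degree v : ℕ) : ℤ) = 2 * ((K.edgeFinset.card : ℕ) : ℤ) := by
    rw [h]; push_cast; ring
  rw [← h2]
  push_cast
  refine Finset.sum_congr rfl (fun x _ => ?_)
  rw [← SimpleGraph.card_neighborFinset_eq_degree]
  have : (K.neighborFinset x).card = (K.neighborSet x).ncard := by
    rw [Set.ncard_eq_toFinset_card']
    rfl
  rw [this]
  exact deg_ncard K x

theorem card_edges (G : SimpleGraph V) (v : V) :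
    2 * (((G.induce ({v}ᶜ : Set V)).edgeSet.ncard : ℕ) : ℤ) = tot G - 2 * dg G v := by
  classical
  rw [tot_eq_edges]
  have e1 : ∀ f : V → ℤ, ∑ x : ({v}ᶜ : Set V), f x = ∑ x ∈ univ.erase v, f x := by
    intro f
    refine (Finset.sum_subtype (univ.erase v) (fun x => ?_) f).symm
    simp
  have e2 : ∀ x : ({v}ᶜ : Set V), ∑ y : ({v}ᶜ : Set V), ind ((G.induce ({v}ᶜ : Set V)).Adj x y)
      = ∑ y ∈ univ.erase v, ad G x y := by
    intro x
    rw [← e1 (fun y => ad G x y)]
    rfl
  rw [Finset.sum_congr rfl (fun x _ => e2 x), e1 (fun x => ∑ y ∈ univ.erase v, ad G x y)]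
  have e3 : ∀ x, ∑ y ∈ univ.erase v, ad G x y = dg G x - ad G x v := fun x => sum_erase_eq v _
  rw [Finset.sum_congr rfl (fun x _ => e3 x), sum_erase_eq, Finset.sum_sub_distrib, dg_eq_sum',
    ad_self]
  unfold tot
  ring

end Pool.Agent.Helper373_CM
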