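import Pool.Agent.Helper373_CM.Shift

set_option autoImplicit false
set_option linter.unusedSectionVars false
set_option linter.unnecessarySeqFocus false

namespace Pool.Agent.Helper373_CM

open Finset

variable {V : Type*} [Fintype V] [DecidableEq V]

/-- ordered pairs `(x, y)` forming a triangle with `v`, with `dg x = k` and `dg y = l` -/
noncomputable def tri (G : SimpleGraph V) (k l : ℤ) (v : V) : ℤ :=
  ∑ x, ∑ y, ad G v x * ad G v y * ad G x y * ind (dg G x = k) * ind (dg G y = l)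

theorem tri_swap (G : SimpleGraph V) (k l : ℤ) (v : V) : tri G k l v = tri G l k v := by
  unfold tri
  rw [Finset.sum_comm]
  refine Finset.sum_congr rfl (fun x _ => Finset.sum_congr rfl (fun y _ => ?_))
  rw [ad_comm G y x]
  ring

theorem tri_rot (G : SimpleGraph V) (i k l : ℤ) :
    ∑ v, ind (dg G v = i) * tri G k l v = ∑ v, ind (dg G v = k) * tri G i l v := by
  unfold tri
  simp only [Finset.mul_sum]
  rw [Finset.sum_comm]
  refine Finset.sum_congr rfl (fun x _ => Finset.sum_congr rfl (fun y _ =>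
    Finset.sum_congr rfl (fun z _ => ?_)))
  rw [ad_comm G y x]
  ring

theorem invA_eq (G : SimpleGraph V) (v : V) (δ κ : ℤ) (hδ : ∀ x, δ ≤ dg G x) :
    ∑ x ∈ univ.erase v, ∑ y ∈ univ.erase v,
        ad G x y * ind (dg G x - ad G x v = δ - 1) * ind (κ ≤ dg G y - ad G y v)
      = ∑ x, ad G v x * ind (dg G x = δ) * (nbg G κ x - ind (κ ≤ dg G v)) - tri G δ κ v := by
  have h1 : ∀ x, ind (dg G x - ad G x v = δ - 1) = ad G v x * ind (dg G x = δ) := by
    intro x
    rw [ad_comm G x v]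
    rcases ind_eq_one_or_zero (G.Adj v x) with h | h
    · rw [show ad G v x = ind (G.Adj v x) from rfl, h, one_mul]
      exact ind_congr ⟨fun h => by omega, fun h => by omega⟩
    · rw [show ad G v x = ind (G.Adj v x) from rfl, h, zero_mul]
      exact ind_false (by have := hδ x; omega)
  have h2 : ∀ y, ind (κ ≤ dg G y - ad G y v) = ind (κ ≤ dg G y) - ad G v y * ind (dg G y = κ) := by
    intro y
    rw [show ad G y v = ind (G.Adj y v) from rfl, ind_le_sub, ad_comm G v y]
    rfl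
  have h3 : ∀ x, ∑ y ∈ univ.erase v,
        ad G x y * ind (dg G x - ad G x v = δ - 1) * ind (κ ≤ dg G y - ad G y v)
      = ad G v x * ind (dg G x = δ) * (nbg G κ x - ind (κ ≤ dg G v))
        - ∑ y, ad G v x * ad G v y * ad G x y * ind (dg G x = δ) * ind (dg G y = κ) := by
    intro x
    rw [sum_erase_eq]
    have e1 : ∑ y, ad G x y * ind (dg G x - ad G x v = δ - 1) * ind (κ ≤ dg G y - ad G y v)
        = ad G v x * ind (dg G x = δ) * nbg G κ x
          - ∑ y, ad G v x * ad G v y * ad G x y * ind (dg G x = δ) * ind (dg G y = κ) := by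
      unfold nbg
      rw [Finset.mul_sum, ← Finset.sum_sub_distrib]
      refine Finset.sum_congr rfl (fun y _ => ?_)
      rw [h1, h2]
      ring
    rw [e1, h1, ad_self, sub_zero, ad_comm G x v]
    have e2 : ad G v x * (ad G v x * ind (dg G x = δ)) = ad G v x * ind (dg G x = δ) := by
      rw [← mul_assoc, show ad G v x = ind (G.Adj v x) from rfl, ind_sq]
    rw [e2]
    ring
  rw [Finset.sum_congr rfl (fun x _ => h3 x), sum_erase_eq, Finset.sum_sub_distrib]
  have e3 : ∑ y, ad G v v * ad G v y * ad G v y * ind (dg G v = δ) * ind (dg G y = κ) = 0 := by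
    refine Finset.sum_eq_zero (fun y _ => ?_)
    rw [ad_self]; ring
  rw [e3, ad_self]
  unfold tri
  ring

theorem invA {G H : SimpleGraph V} {v w : V} (h : CI G H v w) (hd : dg G v = dg H w)
    (δ κ : ℤ) (hG : ∀ x, δ ≤ dg G x) (hH : ∀ x, δ ≤ dg H x) (Q Q' : ℤ)
    (hQ : ∀ x, dg G x = δ → nbg G κ x = Q) (hQ' : ∀ x, dg H x = δ → nbg H κ x = Q') :
    nb G δ v * (Q - ind (κ ≤ dg G v)) - tri G δ κ v
      = nb H δ w * (Q' - ind (κ ≤ dg G v)) - tri H δ κ w := by
  have h1 := inv2 h (fun x => ind (x = δ - 1)) (fun x => ind (κ ≤ x))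
  have e : ∀ (G : SimpleGraph V) (v : V) (Q : ℤ) (_ : ∀ x, dg G x = δ → nbg G κ x = Q),
      ∑ x, ad G v x * ind (dg G x = δ) * (nbg G κ x - ind (κ ≤ dg G v))
        = nb G δ v * (Q - ind (κ ≤ dg G v)) := by
    intro G v Q hQ
    unfold nb
    rw [Finset.sum_mul]
    refine Finset.sum_congr rfl (fun x _ => ?_)
    by_cases hx : dg G x = δ
    · rw [hQ x hx]
    · rw [ind_false hx]; ring
  have h2 := invA_eq G v δ κ hG
  have h3 := invA_eq H w δ κ hH
  rw [e G v Q hQ] at h2
  rw [e H w Q' hQ'] at h3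
  rw [← hd] at h3
  rw [← h2, ← h3]
  exact h1

theorem invB_eq (G : SimpleGraph V) (v : V) (Δ κ : ℤ) (hΔ : ∀ x, dg G x ≤ Δ) (hv : dg G v ≠ Δ) :
    ∑ x ∈ univ.erase v, ∑ y ∈ univ.erase v,
        ad G x y * ind (Δ ≤ dg G x - ad G x v) * ind (κ ≤ dg G y - ad G y v)
      = ∑ x, (1 - ad G v x) * ind (dg G x = Δ) * nbg G κ x
        - ∑ y, ad G v y * ind (dg G y = κ) * nb G Δ y + tri G Δ κ v := by
  have h1 : ∀ x, ind (Δ ≤ dg G x - ad G x v) = (1 - ad G v x) * ind (dg G x = Δ) := by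
    intro x
    rw [ad_comm G x v]
    rcases ind_eq_one_or_zero (G.Adj v x) with h | h
    · rw [show ad G v x = ind (G.Adj v x) from rfl, h]
      rw [ind_false (by have := hΔ x; omega)]; ring
    · rw [show ad G v x = ind (G.Adj v x) from rfl, h]
      rw [sub_zero, sub_zero, one_mul]
      exact ind_congr ⟨fun h => by have := hΔ x; omega, fun h => by omega⟩
  have h2 : ∀ y, ind (κ ≤ dg G y - ad G y v) = ind (κ ≤ dg G y) - ad G v y * ind (dg G y = κ) := by
    intro y
    rw [show ad G y v = ind (G.Adj y v) from rfl, ind_le_sub, ad_comm G v y]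
    rfl
  have h3 : ∀ x, ∑ y ∈ univ.erase v,
        ad G x y * ind (Δ ≤ dg G x - ad G x v) * ind (κ ≤ dg G y - ad G y v)
      = (1 - ad G v x) * ind (dg G x = Δ) * nbg G κ x
        - ∑ y, (1 - ad G v x) * ind (dg G x = Δ) * (ad G x y * (ad G v y * ind (dg G y = κ))) := by
    intro x
    rw [sum_erase_eq]
    have e1 : ∑ y, ad G x y * ind (Δ ≤ dg G x - ad G x v) * ind (κ ≤ dg G y - ad G y v)
        = (1 - ad G v x) * ind (dg G x = Δ) * nbg G κ x
          - ∑ y, (1 - ad G v x) * ind (dg G x = Δ) * (ad G x y * (ad G v y * ind (dg G y = κ))) := by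
      unfold nbg
      rw [Finset.mul_sum, ← Finset.sum_sub_distrib]
      refine Finset.sum_congr rfl (fun y _ => ?_)
      rw [h1, h2]
      ring
    rw [e1, h1, ad_self, sub_zero, ad_comm G x v]
    have e2 : ad G v x * ((1 - ad G v x) * ind (dg G x = Δ)) = 0 := by
      have : ad G v x * ad G v x = ad G v x := ind_sq _
      linear_combination (-ind (dg G x = Δ)) * this
    rw [e2]
    ring
  rw [Finset.sum_congr rfl (fun x _ => h3 x), sum_erase_eq, Finset.sum_sub_distrib,
    ind_false hv]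
  have e4 : ∑ x, ∑ y, (1 - ad G v x) * ind (dg G x = Δ) * (ad G x y * (ad G v y * ind (dg G y = κ)))
      = ∑ y, ad G v y * ind (dg G y = κ) * nb G Δ y - tri G Δ κ v := by
    unfold nb tri
    simp only [Finset.mul_sum]
    rw [Finset.sum_comm, Finset.sum_comm (f := fun x y => ad G v x * ad G v y * ad G x y *
      ind (dg G x = Δ) * ind (dg G y = κ)), ← Finset.sum_sub_distrib]
    refine Finset.sum_congr rfl (fun x _ => ?_)
    rw [← Finset.sum_sub_distrib]
    refine Finset.sum_congr rfl (fun y _ => ?_)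
    rw [ad_comm G y x]
    ring
  rw [e4]
  simp only [mul_zero, zero_mul, Finset.sum_const_zero, sub_zero]
  ring

theorem invB {G H : SimpleGraph V} {v w : V} (h : CI G H v w) (hd : dg G v = dg H w)
    (Δ κ : ℤ) (hG : ∀ x, dg G x ≤ Δ) (hH : ∀ x, dg H x ≤ Δ) (hv : dg G v ≠ Δ) (R R' S S' : ℤ)
    (hR : ∀ x, dg G x = Δ → nbg G κ x = R) (hR' : ∀ x, dg H x = Δ → nbg H κ x = R')
    (hS : ∀ x, dg G x = κ → nb G Δ x = S) (hS' : ∀ x, dg H x = κ → nb H Δ x = S') :
    (cls G Δ - nb G Δ v) * R - nb G κ v * S + tri G Δ κ v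
      = (cls H Δ - nb H Δ w) * R' - nb H κ w * S' + tri H Δ κ w := by
  have h1 := inv2 h (fun x => ind (Δ ≤ x)) (fun x => ind (κ ≤ x))
  have e : ∀ (G : SimpleGraph V) (v : V) (R : ℤ) (_ : ∀ x, dg G x = Δ → nbg G κ x = R),
      ∑ x, (1 - ad G v x) * ind (dg G x = Δ) * nbg G κ x
        = (cls G Δ - nb G Δ v) * R := by
    intro G v R hR
    unfold nb cls
    rw [← Finset.sum_sub_distrib, Finset.sum_mul]
    refine Finset.sum_congr rfl (fun x _ => ?_)
    by_cases hx : dg G x = Δ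
    · rw [hR x hx]; ring
    · rw [ind_false hx]; ring
  have e' : ∀ (G : SimpleGraph V) (v : V) (S : ℤ) (_ : ∀ x, dg G x = κ → nb G Δ x = S),
      ∑ y, ad G v y * ind (dg G y = κ) * nb G Δ y = nb G κ v * S := by
    intro G v S hS
    rw [show nb G κ v = ∑ y, ad G v y * ind (dg G y = κ) from rfl, Finset.sum_mul]
    refine Finset.sum_congr rfl (fun x _ => ?_)
    by_cases hx : dg G x = κ
    · rw [hS x hx]
    · rw [ind_false hx]; ring
  have h2 := invB_eq G v Δ κ hG hv
  have h3 := invB_eq H w Δ κ hH (by rw [← hd]; exact hv)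
  rw [e G v R hR, e' G v S hS] at h2
  rw [e H w R' hR', e' H w S' hS'] at h3
  rw [← h2, ← h3]
  exact h1

end Pool.Agent.Helper373_CM
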