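import Pool.Agent.Helper373_CM.Three

set_option autoImplicit false
set_option linter.unusedSectionVars false
set_option linter.unusedVariables false

namespace Pool.Agent.Helper373_CM

open Finset

/-- translation of the conclusion -/
theorem wrap {n : ℕ} (hn : 4 ≤ n) (G H : SimpleGraph (Fin n))
    (h1 : ∀ v : Fin n, ∃ w : Fin n,
        Nonempty (G.induce ({v}ᶜ : Set (Fin n)) ≃g H.induce ({w}ᶜ : Set (Fin n))))
    (h2 : ∀ w : Fin n, ∃ v : Fin n,
        Nonempty (G.induce ({v}ᶜ : Set (Fin n)) ≃g H.induce ({w}ᶜ : Set (Fin n))))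
    (key : (∀ v, ∃ w, CI G H v w) → (∀ w, ∃ v, CI G H v w) → tot G = tot H →
      ∀ v, cnt G G v = cnt H G v) (v : Fin n) :
    Set.ncard {u : Fin n |
          Nonempty (G.induce ({u}ᶜ : Set (Fin n)) ≃g G.induce ({v}ᶜ : Set (Fin n)))} =
        Set.ncard {u : Fin n |
          Nonempty (H.induce ({u}ᶜ : Set (Fin n)) ≃g G.induce ({v}ᶜ : Set (Fin n)))} := by
  have h1' : ∀ v, ∃ w, CI G H v w := fun v => by
    obtain ⟨w, hw⟩ := h1 v
    exact ⟨w, (ci_iff G H v w).mp hw⟩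
  have h2' : ∀ w, ∃ v, CI G H v w := fun w => by
    obtain ⟨v, hv⟩ := h2 w
    exact ⟨v, (ci_iff G H v w).mp hv⟩
  have h3 := key h1' h2' (tot_eq (by simpa using hn) h1' h2') v
  have h4 : ((Set.ncard {u : Fin n |
          Nonempty (G.induce ({u}ᶜ : Set (Fin n)) ≃g G.induce ({v}ᶜ : Set (Fin n)))} : ℕ) : ℤ) =
        ((Set.ncard {u : Fin n |
          Nonempty (H.induce ({u}ᶜ : Set (Fin n)) ≃g G.induce ({v}ᶜ : Set (Fin n)))} : ℕ) : ℤ) := by
    rw [ncard_ind, ncard_ind]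
    simp only [ci_iff]
    exact h3
  exact_mod_cast h4

end Pool.Agent.Helper373_CM
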