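import Pool.Agent.Helper373_CM.Wrap
import Pool.Agent.Helper373_CM.Equi

set_option autoImplicit false
set_option linter.unusedSectionVars false
set_option linter.unusedVariables false

namespace Pool.Agent.Helper373_CM

open Finset

variable {V : Type*} [Fintype V] [DecidableEq V]

theorem dg_nonneg (G : SimpleGraph V) (x : V) : 0 ≤ dg G x :=
  Finset.sum_nonneg (fun y _ => ind_nonneg _)

theorem dg_le_card (G : SimpleGraph V) (x : V) : dg G x ≤ (Fintype.card V : ℤ) := by
  have h1 : dg G x ≤ ∑ _y : V, (1 : ℤ) := Finset.sum_le_sum (fun y _ => ind_le_one _)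
  simpa using h1

theorem sum_range_ind (n : ℕ) (d : ℤ) (h0 : 0 ≤ d) (h1 : d ≤ n) (f : ℤ → ℤ) :
    ∑ k ∈ Finset.range (n + 1), f (k : ℤ) * ind (d = (k : ℤ)) = f d := by
  obtain ⟨m, hm⟩ : ∃ m : ℕ, d = m := ⟨d.toNat, by omega⟩
  rw [hm, Finset.sum_eq_single m]
  · rw [ind_true rfl, mul_one]
  · intro b _ hb
    rw [ind_false (by omega), mul_zero]
  · intro h
    exact absurd (Finset.mem_range.mpr (by omega)) h

theorem nbg_eq_sum (G : SimpleGraph V) (l : ℤ) (x : V) :
    nbg G l x = ∑ k ∈ Finset.range (Fintype.card V + 1), ind (l ≤ (k : ℤ)) * nb G (k : ℤ) x := by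
  unfold nbg nb
  simp only [Finset.mul_sum]
  rw [Finset.sum_comm]
  refine Finset.sum_congr rfl (fun y _ => ?_)
  have := sum_range_ind (Fintype.card V) (dg G y) (dg_nonneg G y) (dg_le_card G y)
    (fun k => ad G x y * ind (l ≤ k))
  rw [← this]
  exact Finset.sum_congr rfl (fun k _ => by ring)

theorem nb_ncard (G : SimpleGraph V) (k : ℕ) (x : V) :
    ((Set.ncard {y : V | G.Adj x y ∧ (G.neighborSet y).ncard = k} : ℕ) : ℤ) = nb G (k : ℤ) x := by
  rw [ncard_ind]
  unfold nb
  refine Finset.sum_congr rfl (fun y _ => ?_)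
  have hd : dg G y = (((G.neighborSet y).ncard : ℕ) : ℤ) := (deg_ncard G y).symm
  by_cases h1 : G.Adj x y
  · by_cases h2 : (G.neighborSet y).ncard = k
    · have e1 : ad G x y = 1 := ind_true h1
      have e2 : ind (dg G y = (k : ℤ)) = 1 := ind_true (show dg G y = (k : ℤ) by rw [hd, h2])
      have e3 : ind (G.Adj x y ∧ (G.neighborSet y).ncard = k) = 1 := ind_true (And.intro h1 h2)
      rw [e1, e2, e3]; ring
    · have e2 : ind (dg G y = (k : ℤ)) = 0 :=
        ind_false (fun h : dg G y = (k : ℤ) => h2 (by rw [hd] at h; exact_mod_cast h))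
      have e3 : ind (G.Adj x y ∧ (G.neighborSet y).ncard = k) = 0 :=
        ind_false (fun h : (G.Adj x y ∧ (G.neighborSet y).ncard = k) => h2 h.2)
      rw [e2, e3]; ring
  · have e1 : ad G x y = 0 := ind_false h1
    have e3 : ind (G.Adj x y ∧ (G.neighborSet y).ncard = k) = 0 :=
      ind_false (fun h : (G.Adj x y ∧ (G.neighborSet y).ncard = k) => h1 h.1)
    rw [e1, e3]; ring

/-- equal numbers of neighbours of each degree give equal `nbg` -/
theorem nbg_eq_of_ncard (G : SimpleGraph V) (u v : V)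
    (h : ∀ k : ℕ, Set.ncard {y : V | G.Adj u y ∧ (G.neighborSet y).ncard = k} =
          Set.ncard {y : V | G.Adj v y ∧ (G.neighborSet y).ncard = k}) (l : ℤ) :
    nbg G l u = nbg G l v := by
  rw [nbg_eq_sum, nbg_eq_sum]
  refine Finset.sum_congr rfl (fun k _ => ?_)
  rw [← nb_ncard, ← nb_ncard, h]

end Pool.Agent.Helper373_CM
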